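import Mathlib
import Pool.Agent.N969.P15.Defs

/-!
# JL: squarefree parts of products
-/

set_option autoImplicit false
set_option linter.unusedVariables false

namespace Pool.Agent.N856.JL

open Finset

/-- the squarefree part -/
noncomputable def sfp (N : ℕ) : ℕ := if h : 0 < N then (Nat.sq_mul_squarefree_of_pos h).choose else 1

theorem sfp_spec {N : ℕ} (h : 0 < N) : ∃ s : ℕ, 0 < s ∧ sfp N * s ^ 2 = N ∧ 0 < sfp N ∧
    Squarefree (sfp N) := by
  unfold sfp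
  rw [dif_pos h]
  obtain ⟨b, h1, h2, h3, h4⟩ := (Nat.sq_mul_squarefree_of_pos h).choose_spec
  exact ⟨b, h2, by rw [mul_comm, h3], h1, h4⟩

theorem sfp_pos (N : ℕ) : 0 < sfp N := by
  by_cases h : 0 < N
  · exact (sfp_spec h).choose_spec.2.2.1
  · unfold sfp
    rw [dif_neg h]
    norm_num

theorem sfp_sqf (N : ℕ) : Squarefree (sfp N) := by
  by_cases h : 0 < N
  · exact (sfp_spec h).choose_spec.2.2.2
  · unfold sfp
    rw [dif_neg h]
    exact squarefree_one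

theorem sfp_dvd {N : ℕ} (h : 0 < N) : sfp N ∣ N := by
  obtain ⟨s, -, h1, -⟩ := sfp_spec h
  exact ⟨s ^ 2, h1.symm⟩

/-- two squarefree numbers which agree up to squares are equal -/
theorem sq_uniq {x y s t : ℕ} (hx : Squarefree x) (hy : Squarefree y) (hs : s ≠ 0) (ht : t ≠ 0)
    (h : x * s ^ 2 = y * t ^ 2) : x = y := by
  refine Nat.eq_of_factorization_eq hx.ne_zero hy.ne_zero fun p => ?_
  have h1 := congrArg (fun n => n.factorization p) h
  simp only [Nat.factorization_mul hx.ne_zero (pow_ne_zero 2 hs),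
    Nat.factorization_mul hy.ne_zero (pow_ne_zero 2 ht), Nat.factorization_pow,
    Finsupp.add_apply, Finsupp.smul_apply, smul_eq_mul] at h1
  have h2 := hx.natFactorization_le_one p
  have h3 := hy.natFactorization_le_one p
  omega

theorem sfp_mul_sq {x s : ℕ} (hx : Squarefree x) (hs : s ≠ 0) : sfp (x * s ^ 2) = x := by
  obtain ⟨t, h1, h2, -, h4⟩ := sfp_spec (N := x * s ^ 2)
    (Nat.pos_of_ne_zero (mul_ne_zero hx.ne_zero (pow_ne_zero 2 hs)))
  exact sq_uniq h4 hx h1.ne' hs h2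

theorem sfp_self {x : ℕ} (hx : Squarefree x) : sfp x = x := by
  have := sfp_mul_sq hx one_ne_zero
  rwa [one_pow, mul_one] at this

theorem sfp_mul {N D : ℕ} (hN : 0 < N) (hD : Squarefree D) (h : N.Coprime D) :
    sfp (N * D) = sfp N * D := by
  obtain ⟨s, h1, h2, h3, h4⟩ := sfp_spec hN
  have h5 : N * D = sfp N * D * s ^ 2 := by
    calc N * D = (sfp N * s ^ 2) * D := by rw [h2]
      _ = _ := by ring
  rw [h5]
  refine sfp_mul_sq ?_ h1.ne'
  rw [Nat.squarefree_mul (Nat.Coprime.coprime_dvd_left (sfp_dvd hN) h)]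
  exact ⟨h4, hD⟩

/-- the discriminants of the real quadratic fields -/
def Dsc (D : ℕ) : Prop := Squarefree D ∧ D % 12 = 1 ∧ (D % 5 = 1 ∨ D % 5 = 4)

/-- the class of the `n` -/
def Cn (n : ℕ) : Prop := Squarefree n ∧ (n % 60 = 23 ∨ n % 60 = 47)

/-- independence modulo squares -/
def Ind {r : ℕ} (d : Fin r → ℕ) : Prop :=
  ∀ T : Finset (Fin r), T.Nonempty → ¬ IsSquare (∏ i ∈ T, d i)

theorem prod_mod {r : ℕ} {d : Fin r → ℕ} (hd : ∀ i, Dsc (d i)) (T : Finset (Fin r)) :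
    (∏ i ∈ T, d i) % 12 = 1 ∧ ((∏ i ∈ T, d i) % 5 = 1 ∨ (∏ i ∈ T, d i) % 5 = 4) := by
  classical
  induction T using Finset.induction_on with
  | empty =>
    rw [prod_empty]
    exact ⟨rfl, Or.inl rfl⟩
  | insert a T ha ih =>
    rw [prod_insert ha]
    obtain ⟨-, h1, h2⟩ := hd a
    obtain ⟨h3, h4⟩ := ih
    refine ⟨by rw [Nat.mul_mod, h1, h3], ?_⟩
    rcases h2 with h2 | h2 <;> rcases h4 with h4 | h4 <;> rw [Nat.mul_mod, h2, h4] <;> norm_num

theorem prod_pos' {r : ℕ} {d : Fin r → ℕ} (hd : ∀ i, Dsc (d i)) (T : Finset (Fin r)) :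
    0 < ∏ i ∈ T, d i := prod_pos fun i _ => Nat.pos_of_ne_zero (hd i).1.ne_zero

theorem sfp_mod {N : ℕ} (h12 : N % 12 = 1) (h5 : N % 5 = 1 ∨ N % 5 = 4) :
    sfp N % 12 = 1 ∧ (sfp N % 5 = 1 ∨ sfp N % 5 = 4) := by
  obtain ⟨s, h1, h2, h3, h4⟩ := sfp_spec (show 0 < N by omega)
  set c := sfp N with hc
  rw [← h2] at h12 h5
  rw [pow_two, Nat.mul_mod, Nat.mul_mod s] at h12 h5
  have a1 : c % 12 < 12 := Nat.mod_lt _ (by norm_num)
  have a2 : s % 12 < 12 := Nat.mod_lt _ (by norm_num)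
  have a3 : c % 5 < 5 := Nat.mod_lt _ (by norm_num)
  have a4 : s % 5 < 5 := Nat.mod_lt _ (by norm_num)
  refine ⟨?_, ?_⟩
  · generalize c % 12 = x at *
    generalize s % 12 = y at *
    clear h5 h2 h1 h3 h4 hc a3 a4
    interval_cases y <;> interval_cases x <;> simp_all
  · generalize c % 5 = x at *
    generalize s % 5 = y at *
    clear h12 h2 h1 h3 h4 hc a1 a2
    interval_cases y <;> interval_cases x <;> simp_all

theorem sfp_inj {r : ℕ} {d : Fin r → ℕ} (hd : ∀ i, Dsc (d i)) (hi : Ind d) :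
    Function.Injective fun T : Finset (Fin r) => sfp (∏ i ∈ T, d i) := by
  classical
  intro T S h
  have h' : sfp (∏ i ∈ T, d i) = sfp (∏ i ∈ S, d i) := h
  obtain ⟨s, hs, h2, -⟩ := sfp_spec (prod_pos' hd T)
  obtain ⟨t, ht, h3, -⟩ := sfp_spec (prod_pos' hd S)
  by_contra hne
  have hsd : (symmDiff T S).Nonempty := by
    rw [Finset.nonempty_iff_ne_empty]
    intro h0
    exact hne (symmDiff_eq_bot.1 h0)
  refine hi _ hsd ?_
  -- the product over `T` times the product over `S`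
  have h4 : (∏ i ∈ T, d i) * (∏ i ∈ S, d i) =
      (∏ i ∈ symmDiff T S, d i) * (∏ i ∈ T ∩ S, d i) ^ 2 := by
    have e1 : ∏ i ∈ T, d i = (∏ i ∈ T \ S, d i) * ∏ i ∈ T ∩ S, d i := by
      rw [← prod_union (disjoint_sdiff_inter T S), sdiff_union_inter]
    have e2 : ∏ i ∈ S, d i = (∏ i ∈ S \ T, d i) * ∏ i ∈ T ∩ S, d i := by
      rw [inter_comm, ← prod_union (disjoint_sdiff_inter S T), sdiff_union_inter]
    have e3 : ∏ i ∈ symmDiff T S, d i = (∏ i ∈ T \ S, d i) * ∏ i ∈ S \ T, d i := by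
      have : symmDiff T S = (T \ S) ∪ (S \ T) := rfl
      rw [this, prod_union]
      exact disjoint_sdiff_sdiff
    rw [e1, e2, e3]
    ring
  have h5 : (sfp (∏ i ∈ T, d i) * s * t) ^ 2 =
      (∏ i ∈ symmDiff T S, d i) * (∏ i ∈ T ∩ S, d i) ^ 2 := by
    have e : (∏ i ∈ T, d i) * (∏ i ∈ S, d i) =
        (sfp (∏ i ∈ T, d i) * s ^ 2) * (sfp (∏ i ∈ S, d i) * t ^ 2) := by rw [h2, h3]
    rw [← h4, e, ← h']
    ring
  have h6 : (∏ i ∈ T ∩ S, d i) ^ 2 ∣ (sfp (∏ i ∈ T, d i) * s * t) ^ 2 := ⟨_, by rw [h5]; ring⟩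
  obtain ⟨u, hu⟩ := (Nat.pow_dvd_pow_iff two_ne_zero).1 h6
  rw [hu, mul_pow, mul_comm] at h5
  have h7 := Nat.eq_of_mul_eq_mul_right (pow_pos (prod_pos' hd (T ∩ S)) 2) h5
  exact ⟨u, by rw [← h7]; ring⟩

theorem cop_iff {r : ℕ} {d : Fin r → ℕ} (hd : ∀ i, Dsc (d i)) (n : ℕ) :
    (∀ T : Finset (Fin r), n.Coprime (sfp (∏ i ∈ T, d i))) ↔ ∀ i, n.Coprime (d i) := by
  constructor
  · intro h i
    have := h {i}
    rwa [prod_singleton, sfp_self (hd i).1] at this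
  · intro h T
    exact Nat.Coprime.coprime_dvd_right (sfp_dvd (prod_pos' hd T)) (Nat.Coprime.prod_right fun i _ => h i)

end Pool.Agent.N856.JL
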