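import Pool.Agent.N856.JL.Stm

/-!
# JL-FB: few sets have degenerate labels
-/

set_option autoImplicit false
set_option linter.unusedVariables false

open scoped Classical

namespace Pool.Agent.N856.JL.FB

open Finset Filter
open Pool.Agent.N856.JL
open Pool.Agent.Y703.CX (sm la zz kk S_SIE)
open Pool.Agent.Y703.CQ (nr)
open Pool.Agent.N973.ND (uu)
open Pool.Agent.N916.GB (Po SA S_ME8 S_HAL)

theorem crt (Z : Finset ℕ) (hZ : ∀ u ∈ Z, Po u) (r : ℕ → ℕ) (hr : ∀ u ∈ Z, (r u).Coprime u)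
    (r0 : ℕ) (h0 : r0 % 2 = 1) :
    ∃ a : ℕ, a.Coprime (8 * ∏ u ∈ Z, u) ∧ a % 8 = r0 % 8 ∧ ∀ u ∈ Z, a % u = r u % u := by
  induction Z using Finset.induction_on with
  | empty =>
    refine ⟨r0, ?_, rfl, fun u hu => absurd hu (notMem_empty u)⟩
    rw [prod_empty, mul_one, show (8 : ℕ) = 2 ^ 3 by norm_num]
    exact Nat.Coprime.pow_right 3 (Nat.coprime_two_right.2 (Nat.odd_iff.2 h0))
  | insert u Z hu ih =>
    obtain ⟨a, ha1, ha2, ha3⟩ := ih (fun v hv => hZ v (mem_insert_of_mem hv))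
      fun v hv => hr v (mem_insert_of_mem hv)
    have hup := hZ u (mem_insert_self u Z)
    have hco : (8 * ∏ v ∈ Z, v).Coprime u := by
      refine Nat.Coprime.mul_left ?_ (Nat.Coprime.prod_left fun v hv => ?_)
      · rw [show (8 : ℕ) = 2 ^ 3 by norm_num]
        exact Nat.Coprime.pow_left 3 ((Nat.coprime_primes Nat.prime_two hup.1).2 fun h => hup.2 h.symm)
      · refine (Nat.coprime_primes (hZ v (mem_insert_of_mem hv)).1 hup.1).2 fun h => hu (h ▸ hv)
    obtain ⟨b, hb1, hb2⟩ := Nat.chineseRemainder hco a (r u)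
    have hb8 : b % 8 = a % 8 := Nat.ModEq.of_dvd (Dvd.intro _ rfl) hb1
    refine ⟨b, ?_, hb8.trans ha2, fun v hv => ?_⟩
    · rw [prod_insert hu, show 8 * (u * ∏ v ∈ Z, v) = (8 * ∏ v ∈ Z, v) * u by ring]
      refine Nat.Coprime.mul_right ?_ ?_
      · have h1 : b.gcd (8 * ∏ v ∈ Z, v) = a.gcd (8 * ∏ v ∈ Z, v) := Nat.ModEq.gcd_eq hb1
        exact h1.trans ha1
      · have h1 : b.gcd u = (r u).gcd u := Nat.ModEq.gcd_eq hb2
        exact h1.trans (hr u (mem_insert_self u Z))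
    · rcases mem_insert.1 hv with h | h
      · rw [h]
        exact hb2
      · rw [← ha3 v h]
        exact Nat.ModEq.of_dvd (Dvd.dvd.mul_left (dvd_prod_of_mem _ h) 8) hb1

theorem nr_congr {u p q : ℕ} (h : p % u = q % u) : nr u p = nr u q := by
  unfold Pool.Agent.Y703.CQ.nr
  rw [(ZMod.natCast_eq_natCast_iff' p q u).2 h]

theorem nr_one (u : ℕ) : nr u 1 = 0 := by
  unfold Pool.Agent.Y703.CQ.nr
  rw [Nat.cast_one, if_pos (IsSquare.one)]

theorem exists_nr {u : ℕ} (hu : Po u) : ∃ g : ℕ, g.Coprime u ∧ nr u g = 1 := by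
  have : Fact u.Prime := ⟨hu.1⟩
  obtain ⟨a, ha⟩ := FiniteField.exists_nonsquare (F := ZMod u) (by
    rw [ZMod.ringChar_zmod_n]
    exact hu.2)
  refine ⟨a.val, ?_, ?_⟩
  · rw [Nat.coprime_comm, Nat.Prime.coprime_iff_not_dvd hu.1]
    intro h
    have h1 : (a.val : ZMod u) = 0 := (ZMod.natCast_eq_zero_iff _ _).2 h
    rw [ZMod.natCast_zmod_val] at h1
    rw [h1] at ha
    exact ha IsSquare.zero
  · unfold Pool.Agent.Y703.CQ.nr
    rw [ZMod.natCast_zmod_val, if_neg ha]

theorem t_FBJ (hB : S_BADJ) (hFe : S_FEWQ) (h1 : S_SIE) (h2 : S_HAL) (h3 : S_ME8) (h4 : S_MEQ) :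
    S_FBJ := by
  intro I _ F hF L V ε hε
  have hZ : ∀ u ∈ ZZ F, Po u := by
    intro u hu
    obtain ⟨i, -, hi⟩ := mem_biUnion.1 hu
    exact hF.po i u hi
  set Z := ZZ F with hZd
  set Q := 8 * ∏ u ∈ Z, u with hQ
  have hQ1 : 1 ≤ Q := by
    refine Nat.mul_pos (by norm_num) (prod_pos fun u hu => (hZ u hu).1.pos)
  have hdvd : ∀ u ∈ Z, u ∣ Q := fun u hu => Dvd.dvd.mul_left (dvd_prod_of_mem _ hu) 8
  obtain ⟨a1, ha1, ha2, ha3⟩ := crt Z hZ (fun _ => 1) (fun u _ => Nat.coprime_one_left u) 3 rfl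
  have hb : ∀ u0 ∈ Z, ∃ b : ℕ, b.Coprime Q ∧ b % 8 = 1 % 8 ∧ ∀ u ∈ Z,
      nr u b = if u = u0 then 1 else 0 := by
    intro u0 hu0
    obtain ⟨g, hg1, hg2⟩ := exists_nr (hZ u0 hu0)
    obtain ⟨b, hb1, hb2, hb3⟩ := crt Z hZ (fun u => if u = u0 then g else 1) (fun u _ => by
      by_cases h : u = u0
      · simp only [h, if_true]
        exact hg1
      · simp only [h, if_false]
        exact Nat.coprime_one_left u) 1 rfl
    refine ⟨b, hb1, hb2, fun u hu => ?_⟩
    rw [nr_congr (hb3 u hu)]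
    by_cases h : u = u0
    · rw [if_pos h, if_pos h, h]
      exact hg2
    · rw [if_neg h, if_neg h]
      exact nr_one u
  choose! b hb1 hb2 hb3 using hb
  set T : Finset ℕ := insert a1 (Z.image b) with hT
  have hTc : ∀ a ∈ T, a.Coprime Q := by
    intro a ha
    rcases mem_insert.1 ha with h | h
    · rw [h]
      exact ha1
    · obtain ⟨u, hu, rfl⟩ := mem_image.1 h
      exact hb1 u hu
  set ε' : ℝ := ε / (T.card + 1) with hε'
  have hε'0 : 0 < ε' := by positivity
  obtain ⟨X1, hX1⟩ := hB h1 h2 h3 Z hZ ε' hε'0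
  have hfew : ∀ a ∈ T, ∃ X₀ : ℕ, ∀ X : ℕ, X₀ ≤ X →
      (((SA X).filter fun S => ((la (zz X) S).filter fun p => p % Q = a % Q).card <
      L * (sm (zz X) S).card + (V + L * Z.card)).card : ℝ) ≤ ε' * X :=
    fun a ha => hFe h1 h4 Q a hQ1 (hTc a ha) L (V + L * Z.card) ε' hε'0
  choose! X2 hX2 using hfew
  refine ⟨X1 + ∑ a ∈ T, X2 a, fun X hX => ?_⟩
  have hXa : ∀ a ∈ T, X2 a ≤ X := fun a ha =>
    (single_le_sum (f := X2) (fun _ _ => Nat.zero_le _) ha).trans ((Nat.le_add_left _ _).trans hX)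
  have hsub : ((SA X).filter fun S => Disjoint S Z ∧ S.card ≤ kk X ∧
      ¬ NdJ F L V (sm (zz X) S) (la (zz X) S)) ⊆
      ((SA X).filter fun S => Disjoint S Z ∧ S.card ≤ kk X ∧
        ¬ N8J Z (sm (zz X) S) (la (zz X) S)) ∪
      T.biUnion fun a => (SA X).filter fun S => ((la (zz X) S).filter fun p => p % Q = a % Q).card <
        L * (sm (zz X) S).card + (V + L * Z.card) := by
    intro S hS
    obtain ⟨hS1, hS2, hS3, hS4⟩ := mem_filter.1 hS
    by_contra hn
    rw [mem_union, not_or] at hn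
    have hN8 : N8J Z (sm (zz X) S) (la (zz X) S) := by
      by_contra h
      exact hn.1 (mem_filter.2 ⟨hS1, hS2, hS3, h⟩)
    have hmany : ∀ a ∈ T, L * (sm (zz X) S).card + (V + L * Z.card) ≤
        ((la (zz X) S).filter fun p => p % Q = a % Q).card := by
      intro a ha
      by_contra h
      exact hn.2 (mem_biUnion.2 ⟨a, ha, mem_filter.2 ⟨hS1, not_le.1 h⟩⟩)
    have hcard : L * (sm (zz X) S ∪ Z).card + V ≤ L * (sm (zz X) S).card + (V + L * Z.card) := by
      have := Nat.mul_le_mul_left L (card_union_le (sm (zz X) S) Z)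
      rw [Nat.mul_add] at this
      omega
    refine hS4 ⟨?_, ?_, ?_⟩
    · intro w hw
      obtain ⟨p, hp1, hp2, hp3⟩ := hN8 w hw
      refine ⟨p, hp1, ?_, hp3⟩
      unfold Pool.Agent.N973.ND.uu
      rw [if_neg (by omega)]
    · intro i j
      refine hcard.trans ((hmany a1 (mem_insert_self _ _)).trans (card_le_card ?_))
      intro p hp
      obtain ⟨hp1, hp2⟩ := mem_filter.1 hp
      refine mem_filter.2 ⟨hp1, ?_⟩
      have e1 : ∀ u ∈ Z, nr u p = 0 := by
        intro u hu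
        have : p % u = a1 % u := Nat.ModEq.of_dvd (hdvd u hu) hp2
        rw [nr_congr (this.trans (ha3 u hu)), nr_one]
      have e2 : p % 8 = a1 % 8 := Nat.ModEq.of_dvd (Dvd.intro _ rfl) hp2
      have e3 : uu p = 1 := by
        unfold Pool.Agent.N973.ND.uu
        rw [if_pos (by omega)]
      rw [sum_eq_zero fun u hu => e1 u (mem_biUnion.2 ⟨i, mem_univ _, hu⟩),
        sum_eq_zero fun u hu => e1 u (mem_biUnion.2 ⟨j, mem_univ _, hu⟩), e3]
      decide
    · intro i j hij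
      have hne : F i ≠ F j := fun h => hij (hF.inj h)
      obtain ⟨u0, hu0⟩ : ∃ u0, ¬ (u0 ∈ F i ↔ u0 ∈ F j) := by
        by_contra h
        push Not at h
        exact hne (Finset.ext h)
      have hu0Z : u0 ∈ Z := by
        by_cases h : u0 ∈ F i
        · exact mem_biUnion.2 ⟨i, mem_univ _, h⟩
        · by_cases h' : u0 ∈ F j
          · exact mem_biUnion.2 ⟨j, mem_univ _, h'⟩
          · exact absurd (iff_of_false h h') hu0
      refine hcard.trans ((hmany (b u0) (mem_insert_of_mem (mem_image_of_mem _ hu0Z))).trans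
        (card_le_card ?_))
      intro p hp
      obtain ⟨hp1, hp2⟩ := mem_filter.1 hp
      refine mem_filter.2 ⟨hp1, ?_⟩
      have e1 : ∀ u ∈ Z, nr u p = if u = u0 then 1 else 0 := by
        intro u hu
        have : p % u = b u0 % u := Nat.ModEq.of_dvd (hdvd u hu) hp2
        rw [nr_congr this, hb3 u0 hu0Z u hu]
      have e2 : ∀ l : I, ∑ u ∈ F l, nr u p = if u0 ∈ F l then 1 else 0 := by
        intro l
        rw [sum_congr rfl fun u hu => e1 u (mem_biUnion.2 ⟨l, mem_univ _, hu⟩), sum_ite_eq']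
      rw [e2 i, e2 j]
      by_cases h : u0 ∈ F i
      · have h' : u0 ∉ F j := fun h' => hu0 (iff_of_true h h')
        rw [if_pos h, if_neg h', add_zero]
      · have h' : u0 ∈ F j := by
          by_contra h'
          exact hu0 (iff_of_false h h')
        rw [if_neg h, if_pos h', zero_add]
  have hc := card_le_card hsub
  have hc2 := hc.trans (card_union_le _ _)
  have hc3 := hc2.trans (Nat.add_le_add_left card_biUnion_le _)
  have hc4 := (Nat.cast_le (α := ℝ)).2 hc3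
  push_cast at hc4
  have hc5 : ∑ a ∈ T, (((SA X).filter fun S => ((la (zz X) S).filter fun p => p % Q = a % Q).card <
      L * (sm (zz X) S).card + (V + L * Z.card)).card : ℝ) ≤ ∑ a ∈ T, ε' * X :=
    sum_le_sum fun a ha => hX2 a ha X (hXa a ha)
  rw [sum_const, nsmul_eq_mul] at hc5
  have hc6 := hX1 X ((Nat.le_add_right _ _).trans hX)
  have hfin : ε' * X + T.card * (ε' * X) = ε * X := by
    rw [hε']
    have : ((T.card : ℝ) + 1) ≠ 0 := by positivity
    field_simp
    ring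
  linarith

end Pool.Agent.N856.JL.FB
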