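import Pool.Agent.N916.GB.Stm
import Pool.Agent.N856.JA.QJ

/-!
# Project JL (helper856): joint natural density of the conditions on the 4-ranks

Let `F i` (`i ∈ I`) be finitely many different finite sets of odd primes, with products `c i`. For the
squarefree numbers `m` of a union of classes modulo `120`, prime to all the `c i` and such that all
`c i * m` are `3` modulo `4`, the proportion of those for which none of the class groups of the fields
`ℚ(√(-c i m))` has an element of order four is `η ^ #I`, `η = ∏_{i ≥ 1} (1 - 2^{-i})`. Statements of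
the parts, after project GB (helper916; natural density of one condition) and project QJ (helper426;
joint proportions over `ℚ(√-7)`), whose abstract linear algebra (`S_LAJ`) is used.
-/

set_option autoImplicit false
set_option linter.unusedVariables false

open scoped Classical

namespace Pool.Agent.N856.JL

open Finset
open Pool.Agent.Y703.CX (sm la jj XX eL zz kk S_SIE)
open Pool.Agent.Y703.CQ (nr sg)
open Pool.Agent.N973.ND (uu)
open Pool.Agent.N916.GB (Po SS SA Gd eta ps HB S_EQ S_BIL S_ME8 S_HAL CntP)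
open Pool.Agent.N856.JA.QK (prs ext c2)
open Pool.Agent.N856.JA.QJ (La)

/-- the fixed sets -/
structure Fx {I : Type} (F : I → Finset ℕ) : Prop where
  po : ∀ i, ∀ p ∈ F i, Po p
  inj : Function.Injective F

/-- the union of the fixed sets -/
noncomputable def ZZ {I : Type} [Fintype I] (F : I → Finset ℕ) : Finset ℕ := univ.biUnion F

/-- the good sets -/
def GdJ {I : Type} (F : I → Finset ℕ) (S : Finset ℕ) : Prop := ∀ i, Gd false 0 0 (S ∪ F i)

/-- the sets of the class with product at most `X`, disjoint from `Z` -/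
noncomputable def SSJ (K Z : Finset ℕ) (X : ℕ) : Finset (Finset ℕ) :=
  (SS K X).filter fun S => Disjoint S Z

/-- the parameters: all the discriminants are negative and odd -/
def OkJ {I : Type} (K : Finset ℕ) (F : I → Finset ℕ) : Prop :=
  ∀ a ∈ K, a < 120 ∧ a % 2 = 1 ∧ ∀ i, (a * ∏ p ∈ F i, p) % 4 = 3

/-! ### Linear algebra -/

section blocks

variable {U J : Type} [Fintype U] [Fintype J]

/-- all the solutions of the block system for the subset `W` of the small primes are constant; the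
notation: `tU u = uu u`, `tJ k = uu (p k)`, `A u v = nr v u`, `B u k = nr (p k) u`,
`R k l = nr (p l) (p k)` -/
def GdR (W : Finset U) (tU : U → ZMod 2) (tJ : J → ZMod 2) (A : U → U → ZMod 2)
    (B : U → J → ZMod 2) (R : J → J → ZMod 2) : Prop :=
  ∀ (c : U → ZMod 2) (d : J → ZMod 2),
    (∀ u ∈ W, ∑ v ∈ W, A u v * (c u + c v) + ∑ l, B u l * (c u + d l) = 0) →
    (∀ k, ∑ u ∈ W, (B u k + tU u * tJ k) * (d k + c u) + ∑ l, R k l * (d k + d l) = 0) →
    (∀ u ∈ W, ∀ l, c u = d l) ∧ ∀ k l, d k = d l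

/-- the hypotheses on the blocks -/
structure HypR {I : Type} (K V : ℕ) (W : I → Finset U) (tU : U → ZMod 2) (tJ : J → ZMod 2)
    (A : U → U → ZMod 2) (B : U → J → ZMod 2) : Prop where
  many : ∀ i j : I, K * Fintype.card U + V ≤
    (univ.filter fun k => La tU tJ B (W i) k + La tU tJ B (W j) k + tJ k = 1).card
  diff : ∀ i j : I, i ≠ j → K * Fintype.card U + V ≤
    (univ.filter fun k => La tU tJ B (W i) k + La tU tJ B (W j) k = 1).card
  par : ∀ i, ∑ u ∈ W i, tU u + ∑ j, tJ j = 1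
  recip : ∀ u v, u ≠ v → A u v + A v u = tU u * tU v
  nd : ∀ w : U → ZMod 2, (∃ u, w u ≠ 0) → ∃ k, tJ k = 0 ∧ ∑ u, w u * B u k ≠ 0

end blocks

/-- the probability that a random completion is good for all the systems is close to `c2 ^ #I` -/
def LARJ (I : Type) [Fintype I] (ε : ℝ) (K V : ℕ) : Prop :=
  ∀ (U J : Type) [Fintype U] [Fintype J] [LinearOrder J] (W : I → Finset U)
  (tU : U → ZMod 2) (tJ : J → ZMod 2) (A : U → U → ZMod 2) (B : U → J → ZMod 2),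
  HypR K V W tU tJ A B →
  |((univ.filter fun α : prs J → ZMod 2 => ∀ i, GdR (W i) tU tJ A B (ext tJ α)).card : ℝ) /
      2 ^ (prs J).card - c2 ^ Fintype.card I| ≤ ε

/-- JL-LA -/
def S_LAR : Prop := ∀ (I : Type) [Fintype I] (ε : ℝ), 0 < ε → ∃ K V : ℕ, LARJ I ε K V

/-! ### The boxes -/

/-- the labels of the large primes with respect to the small ones and the fixed ones are not
degenerate -/
def NdJ {I : Type} [Fintype I] (F : I → Finset ℕ) (K V : ℕ) (S₀ S₁ : Finset ℕ) : Prop :=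
  (∀ w : ℕ → ZMod 2, (∃ u ∈ S₀ ∪ ZZ F, w u ≠ 0) →
    ∃ p ∈ S₁, uu p = 0 ∧ ∑ u ∈ S₀ ∪ ZZ F, w u * nr p u ≠ 0) ∧
  (∀ i j : I, K * (S₀ ∪ ZZ F).card + V ≤
    (S₁.filter fun p => ∑ u ∈ F i, nr u p + ∑ u ∈ F j, nr u p + uu p = 1).card) ∧
  ∀ i j : I, i ≠ j → K * (S₀ ∪ ZZ F).card + V ≤
    (S₁.filter fun p => ∑ u ∈ F i, nr u p + ∑ u ∈ F j, nr u p = 1).card

/-- JL-BOX: the count in a box. -/
def S_BOXJ : Prop := S_EQ → ∀ (I : Type) [Fintype I] (F : I → Finset ℕ), Fx F →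
  ∀ (ε : ℝ) (K V : ℕ), LARJ I ε K V → ∀ (ι : Type) [Fintype ι] [LinearOrder ι]
  (C : ι → Finset ℕ) (X : ι → ℕ) (κ : ℝ) (S₀ : Finset ℕ), 0 ≤ κ → (∀ i, (C i).card ≤ X i) →
  HB C X κ → (∀ u ∈ S₀, Po u) → Disjoint S₀ (ZZ F) → (∀ i, ∀ p ∈ C i, Po p ∧ p ∉ S₀ ∪ ZZ F) →
  (∀ i l, i ≠ l → Disjoint (C i) (C l)) →
  (∀ p ∈ Fintype.piFinset C, ∀ i : I, ∑ u ∈ S₀, uu u + ∑ u ∈ F i, uu u + ∑ j, uu (p j) = 1) →
  |(((Fintype.piFinset C).filter fun p => NdJ F K V S₀ (univ.image p) ∧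
        GdJ F (S₀ ∪ univ.image p)).card : ℝ) -
      c2 ^ Fintype.card I *
        (((Fintype.piFinset C).filter fun p => NdJ F K V S₀ (univ.image p)).card : ℝ)| ≤
    ε * (((Fintype.piFinset C).filter fun p => NdJ F K V S₀ (univ.image p)).card : ℝ) +
    2 ^ (((S₀ ∪ ZZ F).card + 1) * Fintype.card ι + (ps ι).card) * (κ * ∏ j, (X j : ℝ))

/-- the regular sets -/
noncomputable def RgJ (K Z : Finset ℕ) (X z H k : ℕ) : Finset (Finset ℕ) :=
  (SSJ K Z X).filter fun S => Set.InjOn (jj H) (la z S : Set ℕ) ∧ S.card ≤ k ∧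
    (∏ p ∈ sm z S, p) * ∏ p ∈ la z S, XX H (jj H p) ≤ X

/-- JL-KEY: the sum over the boxes. -/
def S_KEYJ : Prop := S_BIL → S_EQ → S_BOXJ → ∃ C : ℝ, 1 ≤ C ∧
  ∀ (I : Type) [Fintype I] (F : I → Finset ℕ), Fx F → ∀ K : Finset ℕ, OkJ K F →
  ∀ (ε : ℝ) (L V : ℕ), 0 < ε → LARJ I ε L V →
  ∀ (X z H k N : ℕ) (κ : ℝ), 1 ≤ X → 1 ≤ H → 1 ≤ z → 0 ≤ κ → C ≤ κ ^ 12 * z →
  (H : ℝ) * Real.log X < N → (∀ u ∈ ZZ F, u ≤ z) → (ZZ F).card ≤ k →
  |(((RgJ K (ZZ F) X z H k).filter fun S => NdJ F L V (sm z S) (la z S) ∧ GdJ F S).card : ℝ) -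
      c2 ^ Fintype.card I *
        (((RgJ K (ZZ F) X z H k).filter fun S => NdJ F L V (sm z S) (la z S)).card : ℝ)| ≤
    ε * ((RgJ K (ZZ F) X z H k).card : ℝ) +
    (120 * N + 120 : ℝ) ^ k * (3 ^ (9 * k ^ 2 + 9) * κ) * (X * (1 + Real.log X))

/-! ### Degenerate labels -/

/-- JL-MER: Mertens' theorem in a reduced class. -/
def S_MEQ : Prop := ∀ Q a : ℕ, 1 ≤ Q → a.Coprime Q → ∃ C : ℝ, ∀ y : ℕ, 3 ≤ y →
  |∑ p ∈ (range (y + 1)).filter (fun p => p.Prime ∧ p % Q = a % Q), (1 : ℝ) / p -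
    1 / (Nat.totient Q : ℝ) * Real.log (Real.log y)| ≤ C

/-- the labels of the large primes `1` modulo `8` with respect to the small primes and the primes
in `Z` -/
def N8J (Z S₀ S₁ : Finset ℕ) : Prop :=
  ∀ w : ℕ → ZMod 2, (∃ u ∈ S₀ ∪ Z, w u ≠ 0) → ∃ p ∈ S₁, p % 8 = 1 ∧ ∑ u ∈ S₀ ∪ Z, w u * nr p u ≠ 0

/-- JL-BAD: few sets have degenerate labels. -/
def S_BADJ : Prop := S_SIE → S_HAL → S_ME8 → ∀ Z : Finset ℕ, (∀ u ∈ Z, Po u) →
  ∀ ε : ℝ, 0 < ε → ∃ X₀ : ℕ, ∀ X : ℕ, X₀ ≤ X →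
  (((SA X).filter fun S => Disjoint S Z ∧ S.card ≤ kk X ∧
    ¬ N8J Z (sm (zz X) S) (la (zz X) S)).card : ℝ) ≤ ε * X

/-- JL-FEW: few sets have few large primes in a given reduced class, compared with the number of
the small primes. -/
def S_FEWQ : Prop := S_SIE → S_MEQ → ∀ Q a : ℕ, 1 ≤ Q → a.Coprime Q → ∀ (L V : ℕ) (ε : ℝ), 0 < ε →
  ∃ X₀ : ℕ, ∀ X : ℕ, X₀ ≤ X →
  (((SA X).filter fun S => ((la (zz X) S).filter fun p => p % Q = a % Q).card <
    L * (sm (zz X) S).card + V).card : ℝ) ≤ ε * X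

/-- JL-FB: few sets have degenerate labels. -/
def S_FBJ : Prop := ∀ (I : Type) [Fintype I] (F : I → Finset ℕ), Fx F →
  ∀ (L V : ℕ) (ε : ℝ), 0 < ε → ∃ X₀ : ℕ, ∀ X : ℕ, X₀ ≤ X →
  (((SA X).filter fun S => Disjoint S (ZZ F) ∧ S.card ≤ kk X ∧
    ¬ NdJ F L V (sm (zz X) S) (la (zz X) S)).card : ℝ) ≤ ε * X

/-! ### The final theorems -/

/-- FINAL: the proportion of the good sets -/
def S_DQJ : Prop := ∀ (I : Type) [Fintype I] (F : I → Finset ℕ), Fx F → ∀ K : Finset ℕ, OkJ K F →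
  ∀ ε : ℝ, 0 < ε → ∃ X₀ : ℕ, ∀ X : ℕ, X₀ ≤ X →
  |(((SSJ K (ZZ F) X).filter (GdJ F)).card : ℝ) -
    eta ^ Fintype.card I * ((SSJ K (ZZ F) X).card : ℝ)| ≤ ε * X


/-- FINAL, in terms of the numbers -/
def DensJ (Qc : ℕ → Prop) : Prop := ∀ (I : Type) [Fintype I] (c : I → ℕ), Function.Injective c →
  (∀ i, Squarefree (c i) ∧ c i % 2 = 1) → ∀ K : Finset ℕ, K.Nonempty →
  (∀ a ∈ K, a < 120 ∧ a.Coprime 120 ∧ ∀ i, (a * c i) % 4 = 3) →
  Filter.Tendsto
  (fun X : ℕ => (((Icc 1 X).filter fun n => Squarefree n ∧ n % 120 ∈ K ∧ (∀ i, n.Coprime (c i)) ∧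
      ∀ i, Qc (c i * n)).card : ℝ) /
    (((Icc 1 X).filter fun n => Squarefree n ∧ n % 120 ∈ K ∧ ∀ i, n.Coprime (c i)).card : ℝ))
    Filter.atTop (nhds (eta ^ Fintype.card I))

end Pool.Agent.N856.JL
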