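import Pool.Agent.N856.JL.Stm
import Pool.Agent.N916.GB.Tr

/-!
# JL: the translation to integers (after `Pool/Agent/N916/GB/Tr.lean`)
-/

set_option autoImplicit false
set_option linter.all false

open scoped Classical

namespace Pool.Agent.N856.JL.Tr

open Finset Filter
open Pool.Agent.N856.JL
open Pool.Agent.Y703.CQ (nr)
open Pool.Agent.N973.ND (uu)
open Pool.Agent.N969.P15 (Qc)
open Pool.Agent.N916.GB (Po SS SA Gd Cl eta card_eq Gd_iff_Qc sum_odd_sq)

/-! ### The positive density -/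

/-- the numbers `a` modulo `M` -/
def TM (M a X : ℕ) : Finset ℕ := (Icc 1 X).filter fun n => n % M = a

theorem card_TM {M a : ℕ} (ha : 0 < a) (ha' : a < M) (X : ℕ) : X / M ≤ (TM M a X).card := by
  have h : (range (X / M)).card ≤ (TM M a X).card := by
    apply card_le_card_of_injOn (fun k => M * k + a)
    · intro k hk
      rw [mem_coe, mem_range] at hk
      rw [mem_coe, TM, mem_filter, mem_Icc]
      show (1 ≤ M * k + a ∧ M * k + a ≤ X) ∧ (M * k + a) % M = a
      refine ⟨⟨by omega, ?_⟩, ?_⟩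
      · have h1 : M * (k + 1) ≤ X := by
          calc M * (k + 1) ≤ M * (X / M) := Nat.mul_le_mul_left M hk
            _ ≤ X := Nat.mul_div_le X M
        rw [Nat.mul_add, Nat.mul_one] at h1
        omega
      · rw [Nat.mul_add_mod, Nat.mod_eq_of_lt ha']
    · intro b _ c _ h
      have h' : M * b + a = M * c + a := h
      exact Nat.eq_of_mul_eq_mul_left (by omega : 0 < M) (by omega)
  rwa [card_range] at h

theorem card_BM {M a : ℕ} (hM : 0 < M) (hc : a.Coprime M) (X m : ℕ) (_ : 0 < m) :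
    ((TM M a X).filter fun n => m * m ∣ n).card ≤ X / (M * (m * m)) + 1 := by
  rw [← card_range (X / (M * (m * m)) + 1)]
  apply card_le_card_of_injOn (fun n => n / (M * (m * m)))
  · intro n hn
    rw [mem_coe, mem_filter, TM, mem_filter, mem_Icc] at hn
    rw [mem_coe, mem_range]
    exact Nat.lt_succ_of_le (Nat.div_le_div_right hn.1.1.2)
  · intro n hn n' hn' h
    rw [mem_coe, mem_filter, TM, mem_filter, mem_Icc] at hn hn'
    have h' : n / (M * (m * m)) = n' / (M * (m * m)) := h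
    have hcop : Nat.Coprime M (m * m) := by
      have h1 : Nat.Coprime M n := by
        rw [Nat.Coprime, Nat.gcd_rec, hn.1.2]
        exact hc
      exact Nat.Coprime.coprime_dvd_right hn.2 h1
    have h2 : n ≡ n' [MOD M * (m * m)] := by
      rw [← Nat.modEq_and_modEq_iff_modEq_mul hcop]
      refine ⟨?_, ?_⟩
      · show n % M = n' % M
        rw [hn.1.2, hn'.1.2]
      · show n % (m * m) = n' % (m * m)
        rw [Nat.mod_eq_zero_of_dvd hn.2, Nat.mod_eq_zero_of_dvd hn'.2]
    have h3 : n % (M * (m * m)) = n' % (M * (m * m)) := h2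
    rw [← Nat.div_add_mod n (M * (m * m)), ← Nat.div_add_mod n' (M * (m * m)), h', h3]

/-- the squarefree numbers in a class prime to the even number `M` have positive lower density -/
theorem lowM {M a : ℕ} (hM : 0 < M) (h2 : 2 ∣ M) (ha : 0 < a) (ha' : a < M) (hc : a.Coprime M)
    (X : ℕ) (hX : (4 * M + 4) * (4 * M + 4) ≤ X) :
    (1 / (4 * M) : ℝ) * X ≤ (((Icc 1 X).filter fun D => Squarefree D ∧ D % M = a).card : ℝ) := by
  have ha2 : a % 2 = 1 := by
    by_contra h
    have h1 : 2 ∣ a := by omega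
    have h2 : 2 ∣ Nat.gcd a M := Nat.dvd_gcd h1 h2
    rw [hc] at h2
    omega
  have hMR : (0 : ℝ) < M := by exact_mod_cast hM
  set K := Nat.sqrt X with hK
  have h1 : (TM M a X).filter (fun n => ¬ Squarefree n) ⊆
      (Icc 1 K).biUnion fun k => (TM M a X).filter fun n => (2 * k + 1) * (2 * k + 1) ∣ n := by
    intro n hn
    rw [mem_filter] at hn
    obtain ⟨hn1, hn2⟩ := hn
    have hn1' := hn1
    rw [TM, mem_filter, mem_Icc] at hn1'
    rw [Nat.squarefree_iff_prime_squarefree] at hn2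
    push Not at hn2
    obtain ⟨p, hp, hd⟩ := hn2
    have hn3 : n % 2 = 1 := by
      have : n % M % 2 = n % 2 := Nat.mod_mod_of_dvd n h2
      rw [hn1'.2] at this
      omega
    have hodd : p % 2 = 1 := by
      rcases hp.eq_two_or_odd with h | h
      · exfalso
        subst h
        have : 2 ∣ n := (Dvd.intro _ rfl).trans hd
        omega
      · exact h
    have hp3 : 3 ≤ p := by
      have := hp.two_le
      omega
    rw [mem_biUnion]
    have hle : p * p ≤ X := (Nat.le_of_dvd (by omega) hd).trans hn1'.1.2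
    have hle' : p ≤ K := Nat.le_sqrt.2 hle
    refine ⟨p / 2, mem_Icc.2 ⟨by omega, by omega⟩, ?_⟩
    rw [mem_filter]
    have : 2 * (p / 2) + 1 = p := by omega
    rw [this]
    exact ⟨hn1, hd⟩
  have h2 : ((TM M a X).filter (fun n => ¬ Squarefree n)).card ≤
      ∑ k ∈ Icc 1 K, (X / (M * ((2 * k + 1) * (2 * k + 1))) + 1) :=
    (card_le_card h1).trans (card_biUnion_le.trans (sum_le_sum fun k _ =>
      card_BM hM hc X (2 * k + 1) (by omega)))
  have h3 : (((TM M a X).filter (fun n => ¬ Squarefree n)).card : ℝ) ≤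
      ∑ k ∈ Icc 1 K, ((X : ℝ) / M * (1 / (((2 * k + 1 : ℕ) : ℝ) ^ 2)) + 1) := by
    have h4 : (((TM M a X).filter (fun n => ¬ Squarefree n)).card : ℝ) ≤
        ∑ k ∈ Icc 1 K, (((X / (M * ((2 * k + 1) * (2 * k + 1))) : ℕ) : ℝ) + 1) := by
      exact_mod_cast h2
    refine h4.trans (sum_le_sum fun k _ => ?_)
    have h5 : (((X / (M * ((2 * k + 1) * (2 * k + 1))) : ℕ) : ℝ)) ≤
        (X : ℝ) / ((M * ((2 * k + 1) * (2 * k + 1)) : ℕ) : ℝ) := Nat.cast_div_le
    have h6 : (X : ℝ) / ((M * ((2 * k + 1) * (2 * k + 1)) : ℕ) : ℝ) =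
        (X : ℝ) / M * (1 / (((2 * k + 1 : ℕ) : ℝ) ^ 2)) := by
      push_cast
      rw [div_mul_div_comm, mul_one, pow_two]
    linarith
  rw [sum_add_distrib, ← mul_sum, sum_const, Nat.card_Icc, Nat.add_sub_cancel, nsmul_eq_mul,
    mul_one] at h3
  have h4 := sum_odd_sq K
  have hX0 : (0 : ℝ) ≤ X := Nat.cast_nonneg _
  have h5 : (X : ℝ) / M * ∑ k ∈ Icc 1 K, (1 : ℝ) / (((2 * k + 1 : ℕ) : ℝ) ^ 2) ≤
      (X : ℝ) / M * (1 / 4) := by
    apply mul_le_mul_of_nonneg_left _ (by positivity)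
    have : (0 : ℝ) ≤ 1 / (4 * ((K : ℝ) + 1)) := by positivity
    linarith
  have h6 : (K : ℝ) + 1 ≤ (X : ℝ) / M * (1 / 2) := by
    have h7 : K * K ≤ X := Nat.sqrt_le X
    have h8 : X < (K + 1) * (K + 1) := Nat.lt_succ_sqrt X
    have h9 : 4 * M + 4 ≤ K := by
      rw [hK]
      exact Nat.le_sqrt.2 hX
    have h10 : (4 * M) * K ≤ X := (Nat.mul_le_mul_right K (by omega)).trans h7
    have h11 : (4 * M : ℝ) * K ≤ X := by exact_mod_cast h10
    have h12 : (1 : ℝ) ≤ K := by
      have : 1 ≤ K := by omega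
      exact_mod_cast this
    rw [div_mul_eq_mul_div, le_div_iff₀ hMR]
    nlinarith
  have h7 : (X : ℝ) / M - 1 ≤ ((TM M a X).card : ℝ) := by
    have h8 : (X : ℝ) / M < ((X / M : ℕ) : ℝ) + 1 := by
      rw [div_lt_iff₀ hMR]
      have : X < (X / M + 1) * M := by
        rw [Nat.add_mul, Nat.one_mul]
        exact Nat.lt_div_mul_add hM
      exact_mod_cast this
    have h9 : ((X / M : ℕ) : ℝ) ≤ (TM M a X).card := by exact_mod_cast card_TM ha ha' X
    linarith
  have h8 : ((TM M a X).filter Squarefree).card + ((TM M a X).filter (fun n => ¬ Squarefree n)).card =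
      (TM M a X).card := card_filter_add_card_filter_not _
  have h9 : (((TM M a X).filter Squarefree).card : ℝ) +
      (((TM M a X).filter (fun n => ¬ Squarefree n)).card : ℝ) = (TM M a X).card := by
    exact_mod_cast h8
  have h10 : (TM M a X).filter Squarefree = (Icc 1 X).filter fun D => Squarefree D ∧ D % M = a := by
    ext n
    rw [mem_filter, TM, mem_filter, mem_filter]
    tauto
  rw [← h10]
  have h11 : (1 / (4 * M) : ℝ) * X = (X : ℝ) / M * (1 / 4) := by
    field_simp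
  rw [h11]
  linarith

/-- the class of the numbers prime to the `c i` -/
theorem cls {I : Type} [Fintype I] (c : I → ℕ) (hc : ∀ i, Squarefree (c i) ∧ c i % 2 = 1) {a : ℕ}
    (ha : a < 120) (hac : a.Coprime 120) : ∃ M b : ℕ, 0 < M ∧ 2 ∣ M ∧ 0 < b ∧ b < M ∧ b.Coprime M ∧
    ∀ n, n % M = b → n % 120 = a ∧ ∀ i, n.Coprime (c i) := by
  set P := ((univ.biUnion fun i => (c i).primeFactors).filter fun p => ¬ p ∣ 120) with hP
  set R := ∏ p ∈ P, p with hR
  have hprime : ∀ p ∈ P, p.Prime := by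
    intro p hp
    obtain ⟨i, -, hi⟩ := mem_biUnion.1 (mem_filter.1 hp).1
    exact Nat.prime_of_mem_primeFactors hi
  have hR0 : 0 < R := prod_pos fun p hp => (hprime p hp).pos
  have hco : Nat.Coprime 120 R := by
    refine Nat.Coprime.prod_right fun p hp => ?_
    rw [Nat.coprime_comm, Nat.Prime.coprime_iff_not_dvd (hprime p hp)]
    exact (mem_filter.1 hp).2
  obtain ⟨k, hk1, hk2⟩ := Nat.chineseRemainder hco a 1
  have hM : 0 < 120 * R := by positivity
  have hkc : (k % (120 * R)).Coprime (120 * R) := by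
    have h1 : k.Coprime (120 * R) := by
      refine Nat.Coprime.mul_right ?_ ?_
      · have h : k.gcd 120 = a.gcd 120 := Nat.ModEq.gcd_eq hk1
        exact h.trans hac
      · have h : k.gcd R = (1 : ℕ).gcd R := Nat.ModEq.gcd_eq hk2
        exact h.trans (Nat.gcd_one_left R)
    have h2 : (k % (120 * R)).gcd (120 * R) = k.gcd (120 * R) :=
      Nat.ModEq.gcd_eq (Nat.mod_modEq k (120 * R))
    exact h2.trans h1
  refine ⟨120 * R, k % (120 * R), hM, ⟨60 * R, by ring⟩, ?_, Nat.mod_lt _ hM, hkc, ?_⟩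
  · rcases Nat.eq_zero_or_pos (k % (120 * R)) with h | h
    · rw [h, Nat.coprime_zero_left] at hkc
      omega
    · exact h
  · intro n hn
    have e1 : n ≡ k [MOD 120 * R] := hn.trans (Nat.mod_mod _ _ ▸ rfl)
    have e2 : n ≡ a [MOD 120] := (Nat.ModEq.of_dvd (Dvd.intro _ rfl) e1).trans hk1
    have e3 : n ≡ 1 [MOD R] := (Nat.ModEq.of_dvd (Dvd.intro_left _ rfl) e1).trans hk2
    refine ⟨?_, fun i => ?_⟩
    · have : n % 120 = a % 120 := e2
      rw [this, Nat.mod_eq_of_lt ha]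
    · refine Nat.Coprime.symm (Nat.coprime_of_dvd fun p hp hpc hpn => ?_)
      by_cases h : p ∣ 120
      · have h1 : p ∣ a := by
          have := (Nat.ModEq.dvd_iff e2 h).1 hpn
          exact this
        have h2 : p ∣ a.gcd 120 := Nat.dvd_gcd h1 h
        rw [hac] at h2
        exact hp.one_lt.ne' (Nat.dvd_one.1 h2)
      · have h1 : p ∈ P := mem_filter.2 ⟨mem_biUnion.2 ⟨i, mem_univ _,
          Nat.mem_primeFactors.2 ⟨hp, hpc, (hc i).1.ne_zero⟩⟩, h⟩
        have h2 : p ∣ 1 := (Nat.ModEq.dvd_iff e3 (dvd_prod_of_mem _ h1)).1 hpn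
        exact hp.one_lt.ne' (Nat.dvd_one.1 h2)

theorem dens (hDQ : S_DQJ) : DensJ Qc := by
  intro I _ c hinj hc K hKn hK
  set F : I → Finset ℕ := fun i => (c i).primeFactors with hF
  have hprod : ∀ i, ∏ p ∈ F i, p = c i := fun i => Nat.prod_primeFactors_of_squarefree (hc i).1
  have hFx : Fx F := by
    refine ⟨fun i p hp => ⟨Nat.prime_of_mem_primeFactors hp, ?_⟩, fun i j hij => ?_⟩
    · rintro rfl
      have h1 := Nat.dvd_of_mem_primeFactors hp
      have h2 := (hc i).2
      omega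
    · refine hinj ?_
      rw [← hprod i, ← hprod j, hij]
  have hK2 : ∀ a ∈ K, a % 2 = 1 := by
    intro a ha
    by_contra h
    have h1 : 2 ∣ a := by omega
    have h2 : 2 ∣ Nat.gcd a 120 := Nat.dvd_gcd h1 (by norm_num)
    rw [(hK a ha).2.1] at h2
    omega
  have hOk : OkJ K F := fun a ha => ⟨(hK a ha).1, hK2 a ha, fun i => by
    rw [hprod i]
    exact (hK a ha).2.2 i⟩
  obtain ⟨a, ha⟩ := hKn
  obtain ⟨M, b, hM0, hM2, hb0, hb1, hbc, hb⟩ := cls c hc (hK a ha).1 (hK a ha).2.1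
  have hMR : (0 : ℝ) < M := by exact_mod_cast hM0
  have hdis : ∀ n, n ≠ 0 → (Disjoint n.primeFactors (ZZ F) ↔ ∀ i, n.Coprime (c i)) := by
    intro n hn
    unfold ZZ
    rw [Finset.disjoint_biUnion_right]
    constructor
    · intro h i
      exact (Nat.disjoint_primeFactors hn (hc i).1.ne_zero).1 (h i (mem_univ _))
    · intro h i _
      exact (Nat.disjoint_primeFactors hn (hc i).1.ne_zero).2 (h i)
  rw [Metric.tendsto_atTop]
  intro ε hε
  obtain ⟨X₀, hX₀⟩ := hDQ I F hFx K hOk (ε / 2 * (1 / (4 * M))) (by positivity)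
  refine ⟨max X₀ ((4 * M + 4) * (4 * M + 4)), fun X hX => ?_⟩
  have h1 := hX₀ X ((le_max_left _ _).trans hX)
  have e1 := card_eq hK2 X (fun S => Disjoint S (ZZ F) ∧ GdJ F S)
  have e2 := card_eq hK2 X (fun S => Disjoint S (ZZ F))
  have e3 : (SSJ K (ZZ F) X).filter (GdJ F) = (SS K X).filter fun S => Disjoint S (ZZ F) ∧ GdJ F S := by
    unfold SSJ
    rw [filter_filter]
  have e4 : (Icc 1 X).filter (fun D => Squarefree D ∧ D % 120 ∈ K ∧
      (Disjoint D.primeFactors (ZZ F) ∧ GdJ F D.primeFactors)) = (Icc 1 X).filter fun n =>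
      Squarefree n ∧ n % 120 ∈ K ∧ (∀ i, n.Coprime (c i)) ∧ ∀ i, Qc (c i * n) := by
    refine filter_congr fun n hn => ?_
    refine and_congr_right fun hn1 => and_congr_right fun hn2 => ?_
    rw [hdis n hn1.ne_zero]
    refine and_congr_right fun hn3 => ?_
    unfold GdJ
    refine forall_congr' fun i => ?_
    have h5 : n.primeFactors ∪ F i = (c i * n).primeFactors := by
      rw [Nat.primeFactors_mul (hc i).1.ne_zero hn1.ne_zero, union_comm]
    have h6 : (c i * n) % 4 = 3 := by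
      have h7 := (hK _ hn2).2.2 i
      have h8 : n % 120 % 4 = n % 4 := Nat.mod_mod_of_dvd n (by norm_num)
      rw [Nat.mul_mod, h8, ← Nat.mul_mod, mul_comm] at h7
      exact h7
    rw [h5, Gd_iff_Qc ((Nat.squarefree_mul (hn3 i).symm).2 ⟨(hc i).1, hn1⟩) h6]
  have e5 : (Icc 1 X).filter (fun D => Squarefree D ∧ D % 120 ∈ K ∧
      Disjoint D.primeFactors (ZZ F)) = (Icc 1 X).filter fun n =>
      Squarefree n ∧ n % 120 ∈ K ∧ ∀ i, n.Coprime (c i) := by
    refine filter_congr fun n hn => ?_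
    refine and_congr_right fun hn1 => and_congr_right fun hn2 => ?_
    rw [hdis n hn1.ne_zero]
  have e6 : SSJ K (ZZ F) X = (SS K X).filter fun S => Disjoint S (ZZ F) := rfl
  have c1 : ((SSJ K (ZZ F) X).filter (GdJ F)).card = ((Icc 1 X).filter fun n =>
      Squarefree n ∧ n % 120 ∈ K ∧ (∀ i, n.Coprime (c i)) ∧ ∀ i, Qc (c i * n)).card := by
    rw [e3, ← e4]
    convert e1.symm
  have c2 : (SSJ K (ZZ F) X).card = ((Icc 1 X).filter fun n =>
      Squarefree n ∧ n % 120 ∈ K ∧ ∀ i, n.Coprime (c i)).card := by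
    rw [e6, ← e5]
    convert e2.symm
  rw [c1, c2] at h1
  have h2 := lowM hM0 hM2 hb0 hb1 hbc X ((le_max_right _ _).trans hX)
  have h3 : (((Icc 1 X).filter fun D => Squarefree D ∧ D % M = b).card : ℝ) ≤
      (((Icc 1 X).filter fun n => Squarefree n ∧ n % 120 ∈ K ∧ ∀ i, n.Coprime (c i)).card : ℝ) := by
    refine Nat.cast_le.2 (card_le_card fun n hn => ?_)
    rw [mem_filter] at hn ⊢
    obtain ⟨g1, g2⟩ := hb n hn.2.2
    refine ⟨hn.1, hn.2.1, ?_, g2⟩
    rw [g1]
    exact ha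
  have hX1 : (0 : ℝ) < X := by
    have : 0 < X := by
      have := (le_max_right X₀ ((4 * M + 4) * (4 * M + 4))).trans hX
      have h5 : 0 < (4 * M + 4) * (4 * M + 4) := by positivity
      omega
    exact_mod_cast this
  set N : ℝ := (((Icc 1 X).filter fun n => Squarefree n ∧ n % 120 ∈ K ∧
    ∀ i, n.Coprime (c i)).card : ℝ) with hN
  have hN0 : 0 < N := by
    have : (0 : ℝ) < 1 / (4 * M) * X := by positivity
    linarith
  rw [Real.dist_eq, div_sub' hN0.ne', abs_div, abs_of_pos hN0, div_lt_iff₀ hN0]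
  have h4 : ε / 2 * (1 / (4 * M)) * X ≤ ε / 2 * N := by
    have := h2.trans h3
    calc ε / 2 * (1 / (4 * M)) * X = ε / 2 * (1 / (4 * M) * X) := by ring
      _ ≤ ε / 2 * N := by gcongr
  have h5 : ε / 2 * N < ε * N := by
    apply mul_lt_mul_of_pos_right _ hN0
    linarith
  rw [mul_comm N]
  exact lt_of_le_of_lt (h1.trans h4) h5

end Pool.Agent.N856.JL.Tr
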