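import Pool.Agent.N856.JL.Fin
import Pool.Agent.N856.JL.Cmb

/-!
# JL: the joint law for all the numbers of the class, not only those prime to the fixed ones
-/

set_option autoImplicit false
set_option linter.unusedVariables false

open scoped Classical

namespace Pool.Agent.N856.JL.All

open Finset Filter
open Pool.Agent.N969.P15 (Qc)
open Pool.Agent.N916.GB (Po SS SA Gd Cl eta card_eq Gd_iff_Qc)

variable {I : Type}

/-- the family with the prime `p` flipped -/
def fl (p : ℕ) (F : I → Finset ℕ) : I → Finset ℕ := fun i => symmDiff (F i) {p}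

/-- all the sets `S ∆ F i` are good -/
def GA (F : I → Finset ℕ) (S : Finset ℕ) : Prop := ∀ i, Gd false 0 0 (symmDiff S (F i))

/-- the residues divided by `p` -/
def dv (K : Finset ℕ) (p : ℕ) : Finset ℕ := (range 120).filter fun b => b % 2 = 1 ∧ b * p % 120 ∈ K

/-- the count -/
noncomputable def N (K Z : Finset ℕ) (X : ℕ) (Q : Finset ℕ → Prop) : ℕ := ((SSJ K Z X).filter Q).card

theorem mem_SSJ {K Z : Finset ℕ} {X : ℕ} {S : Finset ℕ} : S ∈ SSJ K Z X ↔
    (∀ p ∈ S, Po p) ∧ (∏ p ∈ S, p) % 120 ∈ K ∧ ∏ p ∈ S, p ≤ X ∧ Disjoint S Z := by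
  unfold SSJ SS
  rw [mem_filter, mem_filter, mem_powerset]
  unfold Cl
  constructor
  · rintro ⟨⟨-, ⟨h1, h2⟩, h3⟩, h4⟩
    exact ⟨h1, h2, h3, h4⟩
  · rintro ⟨h1, h2, h3, h4⟩
    refine ⟨⟨fun p hp => ?_, ⟨h1, h2⟩, h3⟩, h4⟩
    rw [mem_range]
    have h5 : p ∣ ∏ q ∈ S, q := dvd_prod_of_mem _ hp
    have h6 : 0 < ∏ q ∈ S, q := prod_pos fun q hq => (h1 q hq).1.pos
    have := Nat.le_of_dvd h6 h5
    omega

theorem prod_odd {S : Finset ℕ} (h : ∀ p ∈ S, Po p) : (∏ p ∈ S, p) % 2 = 1 := by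
  induction S using Finset.induction_on with
  | empty => rfl
  | insert a S ha ih =>
    rw [prod_insert ha, Nat.mul_mod, ih fun p hp => h p (mem_insert_of_mem hp)]
    have h1 := h a (mem_insert_self a S)
    rcases h1.1.eq_two_or_odd with h2 | h2
    · exact absurd h2 h1.2
    · rw [h2]

/-- **the decomposition according to `p`** -/
theorem N_split {K Z : Finset ℕ} {p : ℕ} (hp : Po p) (hpZ : p ∉ Z) (X : ℕ) (Q : Finset ℕ → Prop) :
    N K Z X Q = N K (insert p Z) X Q + N (dv K p) (insert p Z) (X / p) fun S => Q (insert p S) := by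
  have h1 : (SSJ K Z X).filter Q = (SSJ K (insert p Z) X).filter Q ∪
      ((SSJ (dv K p) (insert p Z) (X / p)).filter fun S => Q (insert p S)).image (insert p) := by
    ext S
    rw [mem_union, mem_filter, mem_filter, mem_image, mem_SSJ, mem_SSJ]
    constructor
    · rintro ⟨⟨a1, a2, a3, a4⟩, a5⟩
      by_cases hpS : p ∈ S
      · right
        have e : insert p (S.erase p) = S := insert_erase hpS
        have e1 : p * ∏ q ∈ S.erase p, q = ∏ q ∈ S, q := mul_prod_erase S (fun q => q) hpS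
        refine ⟨S.erase p, ?_, e⟩
        rw [mem_filter, mem_SSJ, e]
        have hpo : ∀ q ∈ S.erase p, Po q := fun q hq => a1 q (mem_of_mem_erase hq)
        refine ⟨⟨hpo, ?_, ?_, ?_⟩, a5⟩
        · unfold dv
          rw [mem_filter, mem_range]
          refine ⟨Nat.mod_lt _ (by norm_num), ?_, ?_⟩
          · have := prod_odd hpo
            omega
          · rw [Nat.mod_mul_mod, mul_comm, e1]
            exact a2
        · rw [Nat.le_div_iff_mul_le hp.1.pos, mul_comm, e1]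
          exact a3
        · rw [disjoint_insert_right]
          exact ⟨notMem_erase p S, disjoint_of_subset_left (erase_subset p S) a4⟩
      · left
        exact ⟨⟨a1, a2, a3, disjoint_insert_right.2 ⟨hpS, a4⟩⟩, a5⟩
    · rintro (⟨⟨a1, a2, a3, a4⟩, a5⟩ | ⟨T, hT, rfl⟩)
      · exact ⟨⟨a1, a2, a3, (disjoint_insert_right.1 a4).2⟩, a5⟩
      · rw [mem_filter, mem_SSJ] at hT
        obtain ⟨⟨a1, a2, a3, a4⟩, a5⟩ := hT
        obtain ⟨a6, a7⟩ := disjoint_insert_right.1 a4
        refine ⟨⟨?_, ?_, ?_, ?_⟩, a5⟩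
        · intro q hq
          rcases mem_insert.1 hq with rfl | hq
          · exact hp
          · exact a1 q hq
        · rw [prod_insert a6]
          unfold dv at a2
          rw [mem_filter, Nat.mod_mul_mod, mul_comm] at a2
          exact a2.2.2
        · rw [prod_insert a6, mul_comm]
          exact (Nat.le_div_iff_mul_le hp.1.pos).1 a3
        · rw [disjoint_insert_left]
          exact ⟨hpZ, a7⟩
  unfold N
  rw [h1, card_union_of_disjoint, card_image_of_injOn]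
  · intro S hS T hT hST
    rw [mem_coe, mem_filter, mem_SSJ] at hS hT
    have h2 := (disjoint_insert_right.1 hS.1.2.2.2).1
    have h3 := (disjoint_insert_right.1 hT.1.2.2.2).1
    rw [← erase_insert h2, ← erase_insert h3]
    exact congrArg (fun U : Finset ℕ => U.erase p) hST
  · rw [Finset.disjoint_left]
    intro S hS hS'
    rw [mem_filter, mem_SSJ] at hS
    obtain ⟨T, -, rfl⟩ := mem_image.1 hS'
    exact (disjoint_insert_right.1 hS.1.2.2.2).1 (mem_insert_self p T)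

theorem N_congr {K Z : Finset ℕ} {X : ℕ} {Q Q' : Finset ℕ → Prop}
    (h : ∀ S ∈ SSJ K Z X, (Q S ↔ Q' S)) : N K Z X Q = N K Z X Q' := by
  unfold N
  rw [filter_congr h]

theorem GA_flip {F : I → Finset ℕ} {S : Finset ℕ} {p : ℕ} (h : p ∉ S) :
    GA F (insert p S) ↔ GA (fl p F) S := by
  refine forall_congr' fun i => ?_
  have e : insert p S = symmDiff S {p} := by
    rw [symmDiff_comm, Finset.insert_eq]
    ext x
    rw [mem_union, mem_symmDiff, mem_singleton]
    constructor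
    · rintro (rfl | hx)
      · exact Or.inl ⟨rfl, h⟩
      · exact Or.inr ⟨hx, fun hxp => h (hxp ▸ hx)⟩
    · rintro (⟨hx, -⟩ | ⟨hx, -⟩)
      · exact Or.inl hx
      · exact Or.inr hx
  unfold fl
  rw [e, symmDiff_assoc, symmDiff_comm {p} (F i)]

theorem fx_fl {F : I → Finset ℕ} (hF : Fx F) {p : ℕ} (hp : Po p) : Fx (fl p F) := by
  refine ⟨fun i q hq => ?_, fun i j hij => ?_⟩
  · unfold fl at hq
    rw [mem_symmDiff, mem_singleton] at hq
    rcases hq with ⟨h1, -⟩ | ⟨h1, -⟩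
    · exact hF.po i q h1
    · exact h1 ▸ hp
  · refine hF.inj ?_
    have h : symmDiff (F i) {p} = symmDiff (F j) {p} := hij
    exact symmDiff_left_injective {p} h

theorem prod_flip {T : Finset ℕ} {p : ℕ} : (∏ q ∈ T, q) * p = (∏ q ∈ symmDiff T {p}, q) *
    (if p ∈ T then p * p else 1) := by
  by_cases h : p ∈ T
  · rw [if_pos h]
    have e : symmDiff T {p} = T.erase p := by
      ext x
      rw [mem_symmDiff, mem_singleton, mem_erase]
      constructor
      · rintro (⟨h1, h2⟩ | ⟨h1, h2⟩)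
        · exact ⟨h2, h1⟩
        · exact absurd (h1 ▸ h) h2
      · rintro ⟨h1, h2⟩
        exact Or.inl ⟨h2, h1⟩
    rw [e, ← mul_prod_erase T (fun q => q) h]
    ring
  · rw [if_neg h, mul_one]
    have e : symmDiff T {p} = insert p T := by
      ext x
      rw [mem_symmDiff, mem_singleton, mem_insert]
      constructor
      · rintro (⟨h1, h2⟩ | ⟨h1, h2⟩)
        · exact Or.inr h1
        · exact Or.inl h1
      · rintro (h1 | h1)
        · exact Or.inr ⟨h1, h1 ▸ h⟩
        · exact Or.inl ⟨h1, fun h2 => h (h2 ▸ h1)⟩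
    rw [e, prod_insert h, mul_comm]

theorem ok_fl {K : Finset ℕ} {F : I → Finset ℕ} (hK : OkJ K F) {p : ℕ} (hp : Po p) :
    OkJ (dv K p) (fl p F) := by
  intro b hb
  unfold dv at hb
  rw [mem_filter, mem_range] at hb
  obtain ⟨h1, h2, h3⟩ := hb
  refine ⟨h1, h2, fun i => ?_⟩
  obtain ⟨-, -, h4⟩ := hK _ h3
  have h5 := h4 i
  have hp2 : p % 2 = 1 := by
    rcases hp.1.eq_two_or_odd with h | h
    · exact absurd h hp.2
    · exact h
  have e1 : b * p % 120 % 4 = b * p % 4 := Nat.mod_mod_of_dvd _ (by norm_num)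
  have e2 : b * p % 120 * ∏ q ∈ F i, q ≡ b * p * ∏ q ∈ F i, q [MOD 4] :=
    Nat.ModEq.mul_right _ e1
  have e3 : b * p * ∏ q ∈ F i, q = b * (∏ q ∈ fl p F i, q) * (if p ∈ F i then p * p else 1) := by
    unfold fl
    rw [mul_assoc b p, mul_comm p, prod_flip, ← mul_assoc]
  have e4 : (if p ∈ F i then p * p else 1) % 4 = 1 := by
    split_ifs
    · have : p % 4 = 1 ∨ p % 4 = 3 := by omega
      rcases this with h | h <;> rw [Nat.mul_mod, h]
    · rfl
  have e5 : (b * p * ∏ q ∈ F i, q) % 4 = 3 := by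
    have e6 : b * p % 120 * (∏ q ∈ F i, q) % 4 = b * p * (∏ q ∈ F i, q) % 4 := e2
    rw [← e6]
    exact h5
  rw [e3, Nat.mul_mod, e4, mul_one, Nat.mod_mod] at e5
  exact e5

/-- the property -/
def Pr [Fintype I] (F : I → Finset ℕ) (Z : Finset ℕ) : Prop := ∀ K : Finset ℕ, OkJ K F → ∀ ε : ℝ, 0 < ε →
  ∃ X₀ : ℕ, ∀ X : ℕ, X₀ ≤ X →
  |(N K Z X (GA F) : ℝ) - eta ^ Fintype.card I * (N K Z X (fun _ => True) : ℝ)| ≤ ε * X

variable [Fintype I]

theorem base {F : I → Finset ℕ} (hF : Fx F) : Pr F (ZZ F) := by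
  intro K hK ε hε
  obtain ⟨X₀, h⟩ := t_DQJ I F hF K hK ε hε
  refine ⟨X₀, fun X hX => ?_⟩
  have h1 := h X hX
  have e1 : N K (ZZ F) X (GA F) = ((SSJ K (ZZ F) X).filter (GdJ F)).card := by
    unfold N
    refine congrArg card (filter_congr fun S hS => ?_)
    refine forall_congr' fun i => ?_
    have hd : Disjoint S (F i) := by
      rw [mem_SSJ] at hS
      exact disjoint_of_subset_right (fun q hq => mem_biUnion.2 ⟨i, mem_univ i, hq⟩) hS.2.2.2
    rw [show symmDiff S (F i) = S ∪ F i from hd.symmDiff_eq_sup]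
  have e2 : N K (ZZ F) X (fun _ => True) = (SSJ K (ZZ F) X).card := by
    unfold N
    congr 1
    ext S
    simp
  rw [e1, e2]
  exact h1

/-- the error term for `p` -/
theorem err {F : I → Finset ℕ} {K Z : Finset ℕ} {p : ℕ} (hp : Po p) (hpZ : p ∉ Z) (X : ℕ) (c : ℝ) :
    (N K Z X (GA F) : ℝ) - c * (N K Z X (fun _ => True) : ℝ) =
      ((N K (insert p Z) X (GA F) : ℝ) - c * (N K (insert p Z) X (fun _ => True) : ℝ)) +
      ((N (dv K p) (insert p Z) (X / p) (GA (fl p F)) : ℝ) -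
        c * (N (dv K p) (insert p Z) (X / p) (fun _ => True) : ℝ)) := by
  rw [N_split hp hpZ X (GA F), N_split hp hpZ X (fun _ => True)]
  rw [N_congr (Q := fun S => GA F (insert p S)) (Q' := GA (fl p F)) fun S hS => ?_]
  · push_cast
    ring
  · rw [mem_SSJ] at hS
    exact GA_flip (disjoint_insert_right.1 hS.2.2.2).1

theorem up {F : I → Finset ℕ} {Z : Finset ℕ} {p : ℕ} (hp : Po p) (hpZ : p ∉ Z) (h1 : Pr F Z)
    (h2 : Pr (fl p F) (insert p Z)) : Pr F (insert p Z) := by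
  intro K hK ε hε
  obtain ⟨X₁, g1⟩ := h1 K hK (ε / 2) (half_pos hε)
  obtain ⟨X₂, g2⟩ := h2 (dv K p) (ok_fl hK hp) (ε / 2) (half_pos hε)
  refine ⟨max X₁ (X₂ * p), fun X hX => ?_⟩
  have a1 := g1 X ((le_max_left _ _).trans hX)
  have a2 := g2 (X / p) ((Nat.le_div_iff_mul_le hp.1.pos).2 ((le_max_right _ _).trans hX))
  rw [err hp hpZ] at a1
  have h0 : (N K (insert p Z) X (GA F) : ℝ) - eta ^ Fintype.card I *
      (N K (insert p Z) X (fun _ => True) : ℝ) =
      (((N K (insert p Z) X (GA F) : ℝ) - eta ^ Fintype.card I *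
      (N K (insert p Z) X (fun _ => True) : ℝ)) +
      ((N (dv K p) (insert p Z) (X / p) (GA (fl p F)) : ℝ) -
        eta ^ Fintype.card I * (N (dv K p) (insert p Z) (X / p) (fun _ => True) : ℝ))) -
      ((N (dv K p) (insert p Z) (X / p) (GA (fl p F)) : ℝ) -
        eta ^ Fintype.card I * (N (dv K p) (insert p Z) (X / p) (fun _ => True) : ℝ)) := by ring
  rw [h0]
  refine (abs_sub _ _).trans ?_
  have h3 : ((X / p : ℕ) : ℝ) ≤ X := by exact_mod_cast Nat.div_le_self X p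
  nlinarith

theorem down {F : I → Finset ℕ} {Z : Finset ℕ} {p : ℕ} (hp : Po p) (hpZ : p ∉ Z)
    (h1 : Pr F (insert p Z)) (h2 : Pr (fl p F) (insert p Z)) : Pr F Z := by
  intro K hK ε hε
  obtain ⟨X₁, g1⟩ := h1 K hK (ε / 2) (half_pos hε)
  obtain ⟨X₂, g2⟩ := h2 (dv K p) (ok_fl hK hp) (ε / 2) (half_pos hε)
  refine ⟨max X₁ (X₂ * p), fun X hX => ?_⟩
  have a1 := g1 X ((le_max_left _ _).trans hX)
  have a2 := g2 (X / p) ((Nat.le_div_iff_mul_le hp.1.pos).2 ((le_max_right _ _).trans hX))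
  rw [err hp hpZ]
  refine (abs_add_le _ _).trans ?_
  have h3 : ((X / p : ℕ) : ℝ) ≤ X := by exact_mod_cast Nat.div_le_self X p
  nlinarith

theorem ZZ_fl {F : I → Finset ℕ} {p : ℕ} : ZZ (fl p F) ⊆ insert p (ZZ F) := by
  intro q hq
  unfold ZZ at hq
  obtain ⟨i, -, hi⟩ := mem_biUnion.1 hq
  unfold fl at hi
  rw [mem_symmDiff, mem_singleton] at hi
  rcases hi with ⟨h1, -⟩ | ⟨h1, -⟩
  · exact mem_insert_of_mem (mem_biUnion.2 ⟨i, mem_univ i, h1⟩)
  · exact h1 ▸ mem_insert_self _ _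

theorem claim1 [Nonempty I] (m : ℕ) : ∀ (F : I → Finset ℕ), Fx F → ∀ Z : Finset ℕ, (∀ q ∈ Z, Po q) →
    ZZ F ⊆ Z → (Z \ ZZ F).card ≤ m → Pr F Z := by
  induction m with
  | zero =>
    intro F hF Z hZ hs hc
    have h1 : Z \ ZZ F = ∅ := card_eq_zero.1 (Nat.le_zero.1 hc)
    have h2 : Z = ZZ F := subset_antisymm (sdiff_eq_empty_iff_subset.1 h1) hs
    rw [h2]
    exact base hF
  | succ m ih =>
    intro F hF Z hZ hs hc
    by_cases h0 : Z \ ZZ F = ∅
    · have h2 : Z = ZZ F := subset_antisymm (sdiff_eq_empty_iff_subset.1 h0) hs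
      rw [h2]
      exact base hF
    obtain ⟨p, hp⟩ := nonempty_iff_ne_empty.2 h0
    obtain ⟨hpZ, hpF⟩ := mem_sdiff.1 hp
    have e : insert p (Z.erase p) = Z := insert_erase hpZ
    rw [← e]
    refine up (hZ p hpZ) (notMem_erase p Z) (ih F hF _ (fun q hq => hZ q (mem_of_mem_erase hq)) ?_ ?_)
      (ih (fl p F) (fx_fl hF (hZ p hpZ)) _ (by rw [e]; exact hZ) ?_ ?_)
    · intro q hq
      exact mem_erase.2 ⟨fun h => hpF (h ▸ hq), hs hq⟩
    · have h1 : (Z.erase p) \ ZZ F = (Z \ ZZ F).erase p := by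
        ext q
        simp only [Finset.mem_sdiff, Finset.mem_erase]
        tauto
      rw [h1, card_erase_of_mem hp]
      omega
    · rw [e]
      exact ZZ_fl.trans (insert_subset hpZ hs)
    · rw [e]
      have h1 : Z \ ZZ (fl p F) ⊆ (Z \ ZZ F).erase p := by
        intro q hq
        obtain ⟨h2, h3⟩ := mem_sdiff.1 hq
        have hpn : ∀ i, p ∉ F i := fun i hi => hpF (mem_biUnion.2 ⟨i, mem_univ i, hi⟩)
        obtain ⟨i₀⟩ := ‹Nonempty I›
        refine mem_erase.2 ⟨?_, mem_sdiff.2 ⟨h2, fun h4 => ?_⟩⟩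
        · rintro rfl
          exact h3 (mem_biUnion.2 ⟨i₀, mem_univ _, mem_symmDiff.2
            (Or.inr ⟨mem_singleton_self _, hpn i₀⟩)⟩)
        · obtain ⟨i, -, hi⟩ := mem_biUnion.1 h4
          refine h3 (mem_biUnion.2 ⟨i, mem_univ _, mem_symmDiff.2 (Or.inl ⟨hi, fun h5 => ?_⟩)⟩)
          exact hpn i (mem_singleton.1 h5 ▸ hi)
      refine (card_le_card h1).trans ?_
      rw [card_erase_of_mem hp]
      omega

theorem claim2 [Nonempty I] (m : ℕ) : ∀ (F : I → Finset ℕ), Fx F → ∀ Z : Finset ℕ, (∀ q ∈ Z, Po q) →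
    (ZZ F \ Z).card ≤ m → Pr F Z := by
  induction m with
  | zero =>
    intro F hF Z hZ hc
    have h1 : ZZ F \ Z = ∅ := card_eq_zero.1 (Nat.le_zero.1 hc)
    exact claim1 _ F hF Z hZ (sdiff_eq_empty_iff_subset.1 h1) le_rfl
  | succ m ih =>
    intro F hF Z hZ hc
    by_cases h0 : ZZ F \ Z = ∅
    · exact claim1 _ F hF Z hZ (sdiff_eq_empty_iff_subset.1 h0) le_rfl
    obtain ⟨p, hp⟩ := nonempty_iff_ne_empty.2 h0
    obtain ⟨hpF, hpZ⟩ := mem_sdiff.1 hp
    obtain ⟨i₁, -, hi₁⟩ := mem_biUnion.1 hpF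
    have hpo : Po p := hF.po i₁ p hi₁
    have hZ' : ∀ q ∈ insert p Z, Po q := by
      intro q hq
      rcases mem_insert.1 hq with rfl | hq
      · exact hpo
      · exact hZ q hq
    have hcard : (ZZ F \ insert p Z).card ≤ m := by
      have h1 : ZZ F \ insert p Z = (ZZ F \ Z).erase p := by
        ext q
        simp only [Finset.mem_sdiff, Finset.mem_erase, Finset.mem_insert]
        tauto
      rw [h1, card_erase_of_mem hp]
      omega
    refine down hpo hpZ (ih F hF _ hZ' hcard) (ih (fl p F) (fx_fl hF hpo) _ hZ' ?_)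
    refine (card_le_card ?_).trans hcard
    intro q hq
    obtain ⟨h1, h2⟩ := mem_sdiff.1 hq
    refine mem_sdiff.2 ⟨?_, h2⟩
    rcases mem_insert.1 (ZZ_fl h1) with rfl | h3
    · exact absurd (mem_insert_self _ _) h2
    · exact h3

/-- **all the sets** -/
theorem all [Nonempty I] {F : I → Finset ℕ} (hF : Fx F) : Pr F ∅ :=
  claim2 _ F hF ∅ (fun q hq => absurd hq (notMem_empty q)) le_rfl

end Pool.Agent.N856.JL.All
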