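import Pool.Agent.N856.JL.All

/-!
# JL: the joint law for all the numbers, in terms of numbers
-/

set_option autoImplicit false
set_option linter.unusedVariables false

open scoped Classical

namespace Pool.Agent.N856.JL.All

open Finset Filter
open Pool.Agent.N969.P15 (Qc)
open Pool.Agent.N916.GB (Po SS SA Gd Cl eta card_eq Gd_iff_Qc)

/-- `sfp (x * y)` depends on the class of `x` only -/
theorem sfp_mul_left {x y : ℕ} (hx : 0 < x) (hy : 0 < y) : sfp (x * y) = sfp (sfp x * y) := by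
  obtain ⟨s, hs, h1, h2, h3⟩ := sfp_spec hx
  obtain ⟨t, ht, h4, h5, h6⟩ := sfp_spec (Nat.mul_pos h2 hy)
  have e : x * y = sfp (sfp x * y) * (s * t) ^ 2 := by
    calc x * y = (sfp x * y) * s ^ 2 := by
          conv_lhs => rw [← h1]
          ring
      _ = (sfp (sfp x * y) * t ^ 2) * s ^ 2 := by rw [h4]
      _ = _ := by ring
  rw [e]
  exact sfp_mul_sq h6 (mul_ne_zero hs.ne' ht.ne')

theorem sfp_inj_mul {x y z : ℕ} (hx : Squarefree x) (hy : Squarefree y) (hz : 0 < z)
    (h : sfp (x * z) = sfp (y * z)) : x = y := by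
  obtain ⟨s, hs, h1, h2, h3⟩ := sfp_spec (Nat.mul_pos (Nat.pos_of_ne_zero hx.ne_zero) hz)
  obtain ⟨t, ht, h4, h5, h6⟩ := sfp_spec (Nat.mul_pos (Nat.pos_of_ne_zero hy.ne_zero) hz)
  refine sq_uniq hx hy ht.ne' hs.ne' ?_
  refine Nat.eq_of_mul_eq_mul_right hz ?_
  calc x * t ^ 2 * z = (x * z) * t ^ 2 := by ring
    _ = (sfp (x * z) * s ^ 2) * t ^ 2 := by rw [h1]
    _ = (sfp (y * z) * t ^ 2) * s ^ 2 := by rw [h]; ring
    _ = y * z * s ^ 2 := by rw [h4]
    _ = y * s ^ 2 * z := by ring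

/-- the prime factors of the squarefree part of a product -/
theorem pf_sfp {x y : ℕ} (hx : Squarefree x) (hy : Squarefree y) :
    (sfp (x * y)).primeFactors = symmDiff y.primeFactors x.primeFactors := by
  obtain ⟨s, hs, h1, h2, h3⟩ := sfp_spec (Nat.mul_pos (Nat.pos_of_ne_zero hx.ne_zero)
    (Nat.pos_of_ne_zero hy.ne_zero))
  ext p
  rw [mem_symmDiff, Nat.mem_primeFactors, Nat.mem_primeFactors, Nat.mem_primeFactors]
  by_cases hp : p.Prime
  · have hfx := hx.natFactorization_le_one p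
    have hfy := hy.natFactorization_le_one p
    have hfz := h3.natFactorization_le_one p
    have hf := congrArg (fun n => n.factorization p) h1
    simp only [Nat.factorization_mul h2.ne' (pow_ne_zero 2 hs.ne'),
      Nat.factorization_mul hx.ne_zero hy.ne_zero, Nat.factorization_pow,
      Finsupp.add_apply, Finsupp.smul_apply, smul_eq_mul] at hf
    have key : ∀ n : ℕ, n ≠ 0 → (p ∣ n ↔ 1 ≤ n.factorization p) := fun n hn =>
      hp.dvd_iff_one_le_factorization hn
    rw [key _ h2.ne', key _ hx.ne_zero, key _ hy.ne_zero]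
    have hx0 := hx.ne_zero
    have hy0 := hy.ne_zero
    have hz0 := h2.ne'
    constructor
    · rintro ⟨-, h4, -⟩
      by_cases h5 : 1 ≤ y.factorization p
      · exact Or.inl ⟨⟨hp, h5, hy0⟩, fun h6 => by omega⟩
      · exact Or.inr ⟨⟨hp, by omega, hx0⟩, fun h6 => h5 h6.2.1⟩
    · rintro (⟨⟨-, h4, -⟩, h5⟩ | ⟨⟨-, h4, -⟩, h5⟩)
      · refine ⟨hp, ?_, hz0⟩
        have : ¬ 1 ≤ x.factorization p := fun h6 => h5 ⟨hp, h6, hx0⟩
        omega
      · refine ⟨hp, ?_, hz0⟩
        have : ¬ 1 ≤ y.factorization p := fun h6 => h5 ⟨hp, h6, hy0⟩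
        omega
  · constructor
    · rintro ⟨h4, -⟩
      exact absurd h4 hp
    · rintro (⟨⟨h4, -⟩, -⟩ | ⟨⟨h4, -⟩, -⟩) <;> exact absurd h4 hp

/-- **The joint law for all the squarefree numbers of the class.** -/
theorem dens {I : Type} [Fintype I] [Nonempty I] (c : I → ℕ) (hinj : Function.Injective c)
    (hc : ∀ i, Squarefree (c i) ∧ c i % 2 = 1) (K : Finset ℕ) (hKn : K.Nonempty)
    (hK : ∀ a ∈ K, a < 120 ∧ a.Coprime 120 ∧ ∀ i, (a * c i) % 4 = 3) :
    Tendsto (fun X : ℕ => (((Icc 1 X).filter fun n => Squarefree n ∧ n % 120 ∈ K ∧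
        ∀ i, Qc (sfp (c i * n))).card : ℝ) /
      (((Icc 1 X).filter fun n => Squarefree n ∧ n % 120 ∈ K).card : ℝ))
      atTop (nhds (eta ^ Fintype.card I)) := by
  set F : I → Finset ℕ := fun i => (c i).primeFactors with hF
  have hprod : ∀ i, ∏ p ∈ F i, p = c i := fun i => Nat.prod_primeFactors_of_squarefree (hc i).1
  have hFx : Fx F := by
    refine ⟨fun i p hp => ⟨Nat.prime_of_mem_primeFactors hp, ?_⟩, fun i j hij => ?_⟩
    · rintro rfl
      have h1 := Nat.dvd_of_mem_primeFactors hp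
      have h2 := (hc i).2
      omega
    · refine hinj ?_
      rw [← hprod i, ← hprod j, hij]
  have hK2 : ∀ a ∈ K, a % 2 = 1 := by
    intro a ha
    by_contra h
    have h1 : 2 ∣ a := by omega
    have h2 : 2 ∣ Nat.gcd a 120 := Nat.dvd_gcd h1 (by norm_num)
    rw [(hK a ha).2.1] at h2
    omega
  have hOk : OkJ K F := fun a ha => ⟨(hK a ha).1, hK2 a ha, fun i => by
    rw [hprod i]
    exact (hK a ha).2.2 i⟩
  obtain ⟨a, ha⟩ := hKn
  have ha0 : 0 < a := by
    rcases Nat.eq_zero_or_pos a with h | h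
    · have := hK2 a ha
      omega
    · exact h
  rw [Metric.tendsto_atTop]
  intro ε hε
  obtain ⟨X₀, hX₀⟩ := all hFx K hOk (ε / 2 * (1 / (4 * (120 : ℕ)))) (by positivity)
  refine ⟨max X₀ ((4 * 120 + 4) * (4 * 120 + 4)), fun X hX => ?_⟩
  have h1 := hX₀ X ((le_max_left _ _).trans hX)
  have e1 := card_eq hK2 X (GA F)
  have e2 := card_eq hK2 X (fun S => True)
  have e4 : (Icc 1 X).filter (fun D => Squarefree D ∧ D % 120 ∈ K ∧ GA F D.primeFactors) =
      (Icc 1 X).filter fun n => Squarefree n ∧ n % 120 ∈ K ∧ ∀ i, Qc (sfp (c i * n)) := by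
    refine filter_congr fun n hn => ?_
    refine and_congr_right fun hn1 => and_congr_right fun hn2 => ?_
    unfold GA
    refine forall_congr' fun i => ?_
    have h6 : (c i * n) % 4 = 3 := by
      have h7 := (hK _ hn2).2.2 i
      have h8 : n % 120 % 4 = n % 4 := Nat.mod_mod_of_dvd n (by norm_num)
      rw [Nat.mul_mod, h8, ← Nat.mul_mod, mul_comm] at h7
      exact h7
    obtain ⟨s, hs, g1, g2, g3⟩ := sfp_spec (Nat.mul_pos (Nat.pos_of_ne_zero (hc i).1.ne_zero)
      (Nat.pos_of_ne_zero hn1.ne_zero))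
    have h7 : sfp (c i * n) % 4 = 3 := by
      have h8 : sfp (c i * n) * s ^ 2 % 4 = 3 := by rw [g1, h6]
      have h9 : s % 4 = 0 ∨ s % 4 = 1 ∨ s % 4 = 2 ∨ s % 4 = 3 := by omega
      rw [pow_two, Nat.mul_mod, Nat.mul_mod s] at h8
      rcases h9 with h9 | h9 | h9 | h9 <;> rw [h9] at h8 <;> omega
    have h8 : symmDiff n.primeFactors (F i) = (sfp (c i * n)).primeFactors := (pf_sfp (hc i).1 hn1).symm
    rw [h8, Gd_iff_Qc g3 h7]
  have e6 : SSJ K ∅ X = SS K X := by
    unfold SSJ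
    exact filter_true_of_mem fun S _ => disjoint_empty_right S
  have c1 : N K ∅ X (GA F) = ((Icc 1 X).filter fun n =>
      Squarefree n ∧ n % 120 ∈ K ∧ ∀ i, Qc (sfp (c i * n))).card := by
    unfold N
    rw [e6, ← e4]
    convert e1.symm
  have c2 : N K ∅ X (fun _ => True) = ((Icc 1 X).filter fun n => Squarefree n ∧ n % 120 ∈ K).card := by
    unfold N
    rw [e6]
    have e5 : (Icc 1 X).filter (fun D => Squarefree D ∧ D % 120 ∈ K ∧ True) =
        (Icc 1 X).filter fun n => Squarefree n ∧ n % 120 ∈ K := by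
      refine filter_congr fun n hn => ?_
      rw [and_true]
    rw [← e5]
    convert e2.symm
  rw [c1, c2] at h1
  have h2 := Tr.lowM (M := 120) (by norm_num) (by norm_num) ha0 (hK a ha).1 (hK a ha).2.1 X
    ((le_max_right _ _).trans hX)
  have h3 : (((Icc 1 X).filter fun D => Squarefree D ∧ D % 120 = a).card : ℝ) ≤
      (((Icc 1 X).filter fun n => Squarefree n ∧ n % 120 ∈ K).card : ℝ) := by
    refine Nat.cast_le.2 (card_le_card fun n hn => ?_)
    rw [mem_filter] at hn ⊢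
    refine ⟨hn.1, hn.2.1, ?_⟩
    rw [hn.2.2]
    exact ha
  have hX1 : (0 : ℝ) < X := by
    have : 0 < X := by
      have := (le_max_right X₀ ((4 * 120 + 4) * (4 * 120 + 4))).trans hX
      omega
    exact_mod_cast this
  set Nn : ℝ := (((Icc 1 X).filter fun n => Squarefree n ∧ n % 120 ∈ K).card : ℝ) with hN
  have hN0 : 0 < Nn := by
    have : (0 : ℝ) < 1 / (4 * (120 : ℕ)) * X := by positivity
    linarith
  rw [Real.dist_eq, div_sub' hN0.ne', abs_div, abs_of_pos hN0, div_lt_iff₀ hN0]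
  have h4 : ε / 2 * (1 / (4 * (120 : ℕ))) * X ≤ ε / 2 * Nn := by
    have := h2.trans h3
    calc ε / 2 * (1 / (4 * (120 : ℕ))) * X = ε / 2 * (1 / (4 * (120 : ℕ)) * X) := by ring
      _ ≤ ε / 2 * Nn := by gcongr
  have h5 : ε / 2 * Nn < ε * Nn := by
    apply mul_lt_mul_of_pos_right _ hN0
    linarith
  rw [mul_comm Nn]
  exact lt_of_le_of_lt (h1.trans h4) h5

end Pool.Agent.N856.JL.All
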