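import Pool.Agent.N856.JL.Stm
import Pool.Agent.N218.GB.Asy

/-!
# JL: the final asymptotics (after `Pool/Agent/N218/GB/Asy.lean`)
-/

set_option autoImplicit false

open scoped Classical
open Finset Filter

namespace Pool.Agent.N856.JL.Asy

open Pool.Agent.N856.JL
open Pool.Agent.N916.GB
open Pool.Agent.N218.GB.Asy
open Pool.Agent.N856.JA.QK (c2)
open Pool.Agent.Y703.CX (sm la jj XX eL zz kk S_SIE eL_tendsto logX_eq HH NN ev_eL one_le_exp
  HH_ge HH_le HH_pos kk_ge kk_le X_pos one_add_log lin_le kap zz_ge zz_pos kap_nonneg kap_pow kap_le)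

theorem c2_eq : c2 = eta := rfl

/-- the sets outside the regular part -/
theorem out_sub {I : Type} [Fintype I] (F : I → Finset ℕ) (K : Finset ℕ) (X z H k L V : ℕ) :
    SSJ K (ZZ F) X \ ((RgJ K (ZZ F) X z H k).filter fun S => NdJ F L V (sm z S) (la z S)) ⊆
      (((((SA X).filter fun S => k < S.card) ∪
      ((SA X).filter fun S => S.card ≤ k ∧
        X < (∏ p ∈ sm z S, p) * ∏ p ∈ la z S, XX H (jj H p))) ∪
      ((SA X).filter fun S => ¬ Set.InjOn (jj H) (la z S : Set ℕ))) ∪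
      ((SA X).filter fun S => Disjoint S (ZZ F) ∧ S.card ≤ k ∧
        ¬ NdJ F L V (sm z S) (la z S))) := by
  intro S hS
  rw [Finset.mem_sdiff, Finset.mem_filter] at hS
  obtain ⟨h1'', h2⟩ := hS
  obtain ⟨h1', h0⟩ := mem_filter.1 h1''
  have h1 := SS_sub K X h1'
  simp only [mem_union, mem_filter]
  by_contra hc
  push Not at hc
  obtain ⟨⟨⟨c1, c2⟩, c3⟩, c4⟩ := hc
  have d1 : S.card ≤ k := c1 h1
  have d2 := c2 h1 d1
  have d3 := c3 h1
  have d4 := c4 h1 h0 d1
  apply h2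
  refine ⟨?_, d4⟩
  unfold RgJ
  rw [mem_filter]
  exact ⟨h1'', d3, d1, d2⟩

/-- **The proportion of the good sets, from the parts.** -/
theorem t_DQJ (h1 : S_BIL) (h3 : S_EQ) (h4 : S_LAR) (h5 : S_BOXJ) (hK : S_KEYJ) (hC : CntP)
    (hFB : S_FBJ) : S_DQJ := by
  intro I _ F hF K hOk ε hε
  obtain ⟨L, V, hLV⟩ := h4 I (ε / 2) (by linarith)
  obtain ⟨C, hC1, hkey⟩ := hK h1 h3 h5
  have s1 := sml_many hC
  have s2 := sml_cut hC
  have s3 := sml_coll hC
  have s4 := sml_eps (hFB I F hF L V)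
  have s8 := sml_main hC1
  have stot := sml_add (sml_add (sml_add (sml_add s1 s2) s3) s4) s8
  have hev := stot (ε / 2) (by linarith)
  have hz : ∀ᶠ X : ℕ in atTop, ∀ u ∈ ZZ F, u ≤ zz X := by
    filter_upwards [ev_eL 1, ev_eL (2 * ((∑ u ∈ ZZ F, u : ℕ) : ℝ))] with X hX hX2 u hu
    have g1 := zz_ge hX
    have g2 : eL X ≤ eL X ^ 3 := le_self_pow₀ hX (by norm_num)
    have g3 := Real.add_one_le_exp (eL X ^ 3)
    have g4 : ((∑ u ∈ ZZ F, u : ℕ) : ℝ) ≤ zz X := by linarith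
    have g5 : (∑ u ∈ ZZ F, u) ≤ zz X := by exact_mod_cast g4
    exact (single_le_sum (f := fun u => u) (fun _ _ => Nat.zero_le _) hu).trans g5
  have hk : ∀ᶠ X : ℕ in atTop, (ZZ F).card ≤ kk X := by
    filter_upwards [ev_eL 1, ev_eL (((ZZ F).card : ℕ) : ℝ)] with X hX hX2
    have g1 := kk_ge X
    have g4 : (((ZZ F).card : ℕ) : ℝ) ≤ kk X := by linarith
    exact_mod_cast g4
  have hev2 : ∀ᶠ X : ℕ in atTop, |(((SSJ K (ZZ F) X).filter (GdJ F)).card : ℝ) -
      eta ^ Fintype.card I * ((SSJ K (ZZ F) X).card : ℝ)| ≤ ε * X := by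
    filter_upwards [hev, ev_eL 1, hz, hk] with X hX hl hzX hkX
    have hl0 : 0 < eL X := by linarith
    have hXp := X_pos hl0
    have hNN : (HH X : ℝ) * Real.log X < NN X := by
      unfold NN
      push_cast
      exact Nat.lt_floor_add_one _
    have hmain := hkey I F hF K hOk (ε / 2) L V (by linarith) hLV X (zz X) (HH X) (kk X) (NN X)
      (kap C X) hXp (HH_pos hl0) (zz_pos hl) (kap_nonneg hC1 X) (kap_pow hC1 hl) hNN hzX hkX
    rw [c2_eq] at hmain
    set T := (RgJ K (ZZ F) X (zz X) (HH X) (kk X)).filter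
      fun S => NdJ F L V (sm (zz X) S) (la (zz X) S) with hT
    have hTG : (RgJ K (ZZ F) X (zz X) (HH X) (kk X)).filter
        (fun S => NdJ F L V (sm (zz X) S) (la (zz X) S) ∧ GdJ F S) = T.filter (GdJ F) := by
      rw [hT, filter_filter]
    rw [hTG] at hmain
    have hTS : T ⊆ SSJ K (ZZ F) X := (filter_subset _ _).trans (filter_subset _ _)
    have hRS : ((RgJ K (ZZ F) X (zz X) (HH X) (kk X)).card : ℝ) ≤ X := by
      exact_mod_cast (card_le_card (((filter_subset _ _).trans (filter_subset _ _)).trans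
        (SS_sub K X))).trans (SA_card X)
    have hcmp := cmp (GdJ F) T (SSJ K (ZZ F) X) hTS (eta ^ Fintype.card I)
      (pow_nonneg eta_mem.1 _) (pow_le_one₀ eta_mem.1 eta_mem.2)
    have hout : ((SSJ K (ZZ F) X \ T).card : ℝ) ≤
        (((((SA X).filter fun S => kk X < S.card).card : ℝ) +
        (((SA X).filter fun S => S.card ≤ kk X ∧
          X < (∏ p ∈ sm (zz X) S, p) * ∏ p ∈ la (zz X) S, XX (HH X) (jj (HH X) p)).card : ℝ)) +
        (((SA X).filter fun S => ¬ Set.InjOn (jj (HH X)) (la (zz X) S : Set ℕ)).card : ℝ)) +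
        (((SA X).filter fun S => Disjoint S (ZZ F) ∧ S.card ≤ kk X ∧
          ¬ NdJ F L V (sm (zz X) S) (la (zz X) S)).card : ℝ) := by
      have g := card_le_card (out_sub F K X (zz X) (HH X) (kk X) L V)
      rw [← hT] at g
      have g2 := (g.trans (card_union_le _ _)).trans
        (Nat.add_le_add_right ((card_union_le _ _).trans
        (Nat.add_le_add_right (card_union_le _ _) _)) _)
      exact_mod_cast g2
    have g1 : ε / 2 * ((RgJ K (ZZ F) X (zz X) (HH X) (kk X)).card : ℝ) ≤ ε / 2 * X :=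
      mul_le_mul_of_nonneg_left hRS (by positivity)
    linarith
  obtain ⟨X₀, h0⟩ := eventually_atTop.1 hev2
  exact ⟨X₀, fun X hX => h0 X hX⟩

end Pool.Agent.N856.JL.Asy
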