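import Mathlib
import Pool.Agent.N969.P15.Defs

/-!
# JL: adding one prime

If `N = 3` modulo `4` has only the trivial solvable factorizations, then so has `N q` for a prime `q = 1`
modulo `4` which is a square modulo all the prime factors of `N` but exactly one.
-/

set_option autoImplicit false
set_option linter.unusedVariables false

namespace Pool.Agent.N856.JL.Twr

open Finset
open Pool.Agent.N969.P15 (Qc)

theorem jac_recip {q b : ℕ} (hq : q % 4 = 1) (hb : b % 2 = 1) : jacobiSym b q = jacobiSym q b :=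
  (jacobiSym.quadratic_reciprocity_one_mod_four hq (Nat.odd_iff.2 hb)).symm

theorem qc_mul {N q p0 : ℕ} (hN : Squarefree N) (hN2 : N % 2 = 1) (hq : q.Prime) (hq4 : q % 4 = 1)
    (hqN : ¬ q ∣ N) (hp0 : p0.Prime) (hp0N : p0 ∣ N) (h0 : jacobiSym q p0 = -1)
    (h1 : ∀ p : ℕ, p.Prime → p ∣ N → p ≠ p0 → jacobiSym q p = 1) (h : Qc N) : Qc (N * q) := by
  -- the main case
  have key : ∀ b c : ℕ, b * (c * q) = N * q → (∀ p ∈ (c * q).primeFactors, jacobiSym b p = 1) →
      (∀ p ∈ b.primeFactors, jacobiSym (c * q : ℕ) p = 1) → b = 1 := by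
    intro b c hbc hc hb
    have hbcN : b * c = N := by
      refine Nat.eq_of_mul_eq_mul_right hq.pos ?_
      rw [← hbc]
      ring
    have hb0 : b ≠ 0 := by
      rintro rfl
      rw [zero_mul] at hbcN
      rw [← hbcN] at hN2
      omega
    have hc0 : c ≠ 0 := by
      rintro rfl
      rw [mul_zero] at hbcN
      rw [← hbcN] at hN2
      omega
    have hb2 : b % 2 = 1 := by
      have h2 : Odd (b * c) := by
        rw [hbcN]
        exact Nat.odd_iff.2 hN2
      exact Nat.odd_iff.1 (Nat.odd_mul.1 h2).1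
    have hsq : Squarefree b := hN.squarefree_of_dvd ⟨c, hbcN.symm⟩
    by_cases hp : p0 ∣ b
    · exfalso
      have h2 : jacobiSym b q = 1 :=
        hc q (Nat.mem_primeFactors.2 ⟨hq, Dvd.intro_left c rfl, mul_ne_zero hc0 hq.ne_zero⟩)
      rw [jac_recip hq4 hb2] at h2
      obtain ⟨b', rfl⟩ := hp
      have hb'0 : b' ≠ 0 := right_ne_zero_of_mul hb0
      have : NeZero p0 := ⟨hp0.ne_zero⟩
      have : NeZero b' := ⟨hb'0⟩
      rw [jacobiSym.mul_right, h0] at h2
      have h3 : jacobiSym q b' = 1 := by
        have h4 : b' = (b'.primeFactorsList).prod := (Nat.prod_primeFactorsList hb'0).symm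
        unfold jacobiSym
        rw [List.prod_eq_one]
        intro x hx
        rw [List.mem_pmap] at hx
        obtain ⟨p, hpl, rfl⟩ := hx
        have hpp := Nat.prime_of_mem_primeFactorsList hpl
        have hpd := Nat.dvd_of_mem_primeFactorsList hpl
        have : Fact p.Prime := ⟨hpp⟩
        have h5 : p ≠ p0 := by
          rintro rfl
          obtain ⟨t, ht⟩ := hpd
          have h6 : p * p ∣ p * b' := ⟨t, by rw [ht]; ring⟩
          have h7 := hsq p h6
          exact hpp.not_isUnit h7
        have h6 := h1 p hpp ((hpd.trans (Dvd.intro_left p0 rfl)).trans ⟨c, hbcN.symm⟩) h5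
        rw [← h6]
        exact jacobiSym.legendreSym.to_jacobiSym p q
      rw [h3] at h2
      norm_num at h2
    · have hp0c : p0 ∣ c := by
        rw [← hbcN, hp0.dvd_mul] at hp0N
        exact hp0N.resolve_left hp
      have h2 := h b c hbcN (fun p hp => hc p (Nat.mem_primeFactors.2
        ⟨(Nat.mem_primeFactors.1 hp).1, Dvd.dvd.mul_right (Nat.mem_primeFactors.1 hp).2.1 q,
          mul_ne_zero hc0 hq.ne_zero⟩)) (fun p hp => by
        have h3 := hb p hp
        obtain ⟨hpp, hpb, -⟩ := Nat.mem_primeFactors.1 hp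
        have h4 : p ≠ p0 := by
          rintro rfl
          contradiction
        push_cast at h3
        rw [jacobiSym.mul_left, h1 p hpp (hpb.trans ⟨c, hbcN.symm⟩) h4, mul_one] at h3
        exact h3)
      refine h2.resolve_right fun hc1 => ?_
      rw [hc1] at hp0c
      exact hp0.one_lt.ne' (Nat.dvd_one.1 hp0c)
  intro b c hbc hc hb
  have hqd : q ∣ b * c := ⟨N, by rw [hbc]; ring⟩
  rcases hq.dvd_mul.1 hqd with hd | hd
  · obtain ⟨b', rfl⟩ := hd
    right
    refine key c b' ?_ ?_ ?_
    · rw [← hbc]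
      ring
    · rw [mul_comm b' q]
      exact hb
    · rw [mul_comm b' q]
      exact hc
  · obtain ⟨c', rfl⟩ := hd
    left
    refine key b c' ?_ ?_ ?_
    · rw [← hbc]
      ring
    · rw [mul_comm c' q]
      exact hc
    · rw [mul_comm c' q]
      exact hb

end Pool.Agent.N856.JL.Twr
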