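import Pool.Agent.N856.JL.Cmb
import Pool.Agent.N856.JL.Twr
import Pool.Agent.N856.JL.Stm

/-!
# JL: the densities and the towers in terms of the tuples of discriminants
-/

set_option autoImplicit false
set_option linter.unusedVariables false

open scoped Classical

namespace Pool.Agent.N856.JL

open Finset Filter
open Pool.Agent.N969.P15 (Qc)
open Pool.Agent.N916.GB (eta)

/-- all the twists are good -/
def Gq {r : ℕ} (n : ℕ) (d : Fin r → ℕ) : Prop :=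
  ∀ T : Finset (Fin r), Qc (n * sfp (∏ i ∈ T, d i))

/-- the products with one more factor -/
theorem prod_snoc {r : ℕ} (d : Fin r → ℕ) (D : ℕ) (T : Finset (Fin (r + 1))) :
    ∏ i ∈ T, (Fin.snoc d D : Fin (r + 1) → ℕ) i =
      (∏ i ∈ univ.filter (fun i : Fin r => i.castSucc ∈ T), d i) *
        (if Fin.last r ∈ T then D else 1) := by
  have e1 : ∏ i ∈ T, (Fin.snoc d D : Fin (r + 1) → ℕ) i =
      ∏ i : Fin (r + 1), if i ∈ T then (Fin.snoc d D : Fin (r + 1) → ℕ) i else 1 := by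
    rw [prod_ite_mem, univ_inter]
  rw [e1, Fin.prod_univ_castSucc, Fin.snoc_last, prod_filter]
  congr 1
  refine prod_congr rfl fun i _ => ?_
  rw [Fin.snoc_castSucc (α := fun _ => ℕ)]

theorem gq_snoc {r n D : ℕ} {d : Fin r → ℕ} (hd : ∀ i, Dsc (d i)) (hD : Squarefree D)
    (hc : ∀ i, D.Coprime (d i)) : Gq n (Fin.snoc d D : Fin (r + 1) → ℕ) ↔
      Gq n d ∧ ∀ T : Finset (Fin r), Qc (n * sfp (∏ i ∈ T, d i) * D) := by
  have hcT : ∀ T : Finset (Fin r), (∏ i ∈ T, d i).Coprime D := fun T =>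
    (Nat.Coprime.prod_right fun i _ => hc i).symm
  have e1 : ∀ T : Finset (Fin r), univ.filter (fun i : Fin r => i.castSucc ∈ T.map Fin.castSuccEmb) =
      T := by
    intro T
    ext i
    simp only [mem_filter, mem_univ, true_and, Finset.mem_map, Fin.coe_castSuccEmb]
    constructor
    · rintro ⟨j, hj, hji⟩
      rw [← Fin.castSucc_injective r hji]
      exact hj
    · intro hi
      exact ⟨i, hi, rfl⟩
  have e2 : ∀ T : Finset (Fin r), Fin.last r ∉ T.map Fin.castSuccEmb := by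
    intro T h
    obtain ⟨j, -, hj⟩ := Finset.mem_map.1 h
    exact (Fin.castSucc_lt_last j).ne hj
  have e3 : ∀ T : Finset (Fin r), univ.filter
      (fun i : Fin r => i.castSucc ∈ insert (Fin.last r) (T.map Fin.castSuccEmb)) = T := by
    intro T
    conv_rhs => rw [← e1 T]
    refine filter_congr fun i _ => ?_
    rw [mem_insert]
    exact or_iff_right (Fin.castSucc_lt_last i).ne
  constructor
  · intro h
    refine ⟨fun T => ?_, fun T => ?_⟩
    · have h1 := h (T.map Fin.castSuccEmb)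
      rw [prod_snoc, e1, if_neg (e2 T), mul_one] at h1
      exact h1
    · have h1 := h (insert (Fin.last r) (T.map Fin.castSuccEmb))
      rw [prod_snoc, e3, if_pos (mem_insert_self _ _), sfp_mul (prod_pos' hd T) hD (hcT T),
        ← mul_assoc] at h1
      exact h1
  · rintro ⟨h1, h2⟩ T
    rw [prod_snoc]
    by_cases hT : Fin.last r ∈ T
    · rw [if_pos hT, sfp_mul (prod_pos' hd _) hD (hcT _), ← mul_assoc]
      exact h2 _
    · rw [if_neg hT, mul_one]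
      exact h1 _

/-! ### The densities -/

theorem dens_n (h : DensJ Qc) {r : ℕ} (d : Fin r → ℕ) (hd : ∀ i, Dsc (d i)) (hi : Ind d) :
    Tendsto (fun X : ℕ =>
      (((Icc 1 X).filter fun n => Cn n ∧ (∀ i, n.Coprime (d i)) ∧ Gq n d).card : ℝ) /
      (((Icc 1 X).filter fun n => Cn n ∧ ∀ i, n.Coprime (d i)).card : ℝ)) atTop
      (nhds (eta ^ 2 ^ r)) := by
  have h1 := h (Finset (Fin r)) (fun T => sfp (∏ i ∈ T, d i)) (sfp_inj hd hi) (fun T => by
    obtain ⟨g1, g2⟩ := prod_mod hd T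
    obtain ⟨g3, -⟩ := sfp_mod g1 g2
    exact ⟨sfp_sqf _, by omega⟩) {23, 47, 83, 107} ⟨23, by simp⟩ (fun a ha => by
      have hcop : ∀ a ∈ ({23, 47, 83, 107} : Finset ℕ), a < 120 ∧ a.Coprime 120 ∧ a % 4 = 3 := by
        decide
      obtain ⟨g1, g2, g3⟩ := hcop a ha
      refine ⟨g1, g2, fun T => ?_⟩
      obtain ⟨g4, g5⟩ := prod_mod hd T
      obtain ⟨g6, -⟩ := sfp_mod g4 g5
      have g7 : sfp (∏ i ∈ T, d i) % 4 = 1 := by omega
      rw [Nat.mul_mod, g3, g7])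
  have hm : ∀ n : ℕ, n % 120 ∈ ({23, 47, 83, 107} : Finset ℕ) ↔ n % 60 = 23 ∨ n % 60 = 47 := by
    intro n
    simp only [mem_insert, mem_singleton]
    omega
  rw [Fintype.card_finset, Fintype.card_fin] at h1
  refine h1.congr fun X => ?_
  congr 3
  · refine filter_congr fun n _ => ?_
    rw [hm, cop_iff hd]
    unfold Cn Gq
    constructor
    · rintro ⟨g1, g2, g3, g4⟩
      exact ⟨⟨g1, g2⟩, g3, fun T => by rw [mul_comm]; exact g4 T⟩
    · rintro ⟨⟨g1, g2⟩, g3, g4⟩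
      exact ⟨g1, g2, g3, fun T => by rw [mul_comm]; exact g4 T⟩
  · refine filter_congr fun n _ => ?_
    rw [hm, cop_iff hd]
    unfold Cn
    tauto

theorem dens_D (h : DensJ Qc) {r : ℕ} (d : Fin r → ℕ) (hd : ∀ i, Dsc (d i)) (hi : Ind d)
    (𝒩 : Finset ℕ) (hne : 𝒩.Nonempty) (hn : ∀ n ∈ 𝒩, Cn n ∧ (∀ i, n.Coprime (d i)) ∧ Gq n d) :
    Tendsto (fun X : ℕ =>
      (((Icc 1 X).filter fun D => Dsc D ∧ (∀ n ∈ 𝒩, D.Coprime n) ∧ (∀ i, D.Coprime (d i)) ∧
        ∀ n ∈ 𝒩, Gq n (Fin.snoc d D : Fin (r + 1) → ℕ)).card : ℝ) /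
      (((Icc 1 X).filter fun D => Dsc D ∧ (∀ n ∈ 𝒩, D.Coprime n) ∧
        ∀ i, D.Coprime (d i)).card : ℝ)) atTop (nhds (eta ^ (𝒩.card * 2 ^ r))) := by
  have hcs : ∀ n ∈ 𝒩, ∀ T : Finset (Fin r), n.Coprime (sfp (∏ i ∈ T, d i)) := fun n hn' =>
    (cop_iff hd n).2 (hn n hn').2.1
  have hn2 : ∀ n ∈ 𝒩, n % 4 = 3 := by
    intro n hn'
    have := (hn n hn').1.2
    omega
  have h1 := h (𝒩 × Finset (Fin r)) (fun q => q.1 * sfp (∏ i ∈ q.2, d i)) (by
    rintro ⟨⟨n, hn1⟩, T⟩ ⟨⟨m, hm1⟩, S⟩ hq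
    have hq' : n * sfp (∏ i ∈ T, d i) = m * sfp (∏ i ∈ S, d i) := hq
    have e1 : n ∣ m := (hcs n hn1 S).dvd_of_dvd_mul_right ⟨_, hq'.symm⟩
    have e2 : m ∣ n := (hcs m hm1 T).dvd_of_dvd_mul_right ⟨_, hq'⟩
    have e3 : n = m := Nat.dvd_antisymm e1 e2
    subst e3
    have e4 : sfp (∏ i ∈ T, d i) = sfp (∏ i ∈ S, d i) :=
      Nat.eq_of_mul_eq_mul_left (Nat.pos_of_ne_zero (hn n hn1).1.1.ne_zero) hq'
    have e5 : T = S := sfp_inj hd hi e4
    rw [e5]) (fun q => by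
    obtain ⟨⟨n, hn1⟩, T⟩ := q
    obtain ⟨g1, g2⟩ := prod_mod hd T
    obtain ⟨g3, -⟩ := sfp_mod g1 g2
    refine ⟨(Nat.squarefree_mul (hcs n hn1 T)).2 ⟨(hn n hn1).1.1, sfp_sqf _⟩, ?_⟩
    have g4 : sfp (∏ i ∈ T, d i) % 2 = 1 := by omega
    have g5 : n % 2 = 1 := by
      have := hn2 n hn1
      omega
    show n * sfp (∏ i ∈ T, d i) % 2 = 1
    rw [Nat.mul_mod, g4, g5]) {1, 49, 61, 109} ⟨1, by simp⟩ (fun a ha => by
      have hcop : ∀ a ∈ ({1, 49, 61, 109} : Finset ℕ), a < 120 ∧ a.Coprime 120 ∧ a % 4 = 1 := by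
        decide
      obtain ⟨g1, g2, g3⟩ := hcop a ha
      refine ⟨g1, g2, fun q => ?_⟩
      obtain ⟨⟨n, hn1⟩, T⟩ := q
      obtain ⟨g4, g5⟩ := prod_mod hd T
      obtain ⟨g6, -⟩ := sfp_mod g4 g5
      have g7 : sfp (∏ i ∈ T, d i) % 4 = 1 := by omega
      show a * (n * sfp (∏ i ∈ T, d i)) % 4 = 3
      rw [Nat.mul_mod, Nat.mul_mod n, g3, g7, hn2 n hn1])
  have hm : ∀ n : ℕ, n % 120 ∈ ({1, 49, 61, 109} : Finset ℕ) ↔
      n % 12 = 1 ∧ (n % 5 = 1 ∨ n % 5 = 4) := by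
    intro n
    simp only [mem_insert, mem_singleton]
    omega
  have hcop : ∀ D : ℕ, (∀ q : 𝒩 × Finset (Fin r), D.Coprime (q.1 * sfp (∏ i ∈ q.2, d i))) ↔
      (∀ n ∈ 𝒩, D.Coprime n) ∧ ∀ i, D.Coprime (d i) := by
    intro D
    constructor
    · intro g
      refine ⟨fun n hn1 => Nat.Coprime.coprime_dvd_right (Dvd.intro _ rfl) (g (⟨n, hn1⟩, ∅)),
        fun i => ?_⟩
      obtain ⟨n, hn1⟩ := hne
      exact (cop_iff hd D).1 (fun T =>
        Nat.Coprime.coprime_dvd_right (Dvd.intro_left _ rfl) (g (⟨n, hn1⟩, T))) i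
    · rintro ⟨g1, g2⟩ ⟨⟨n, hn1⟩, T⟩
      exact Nat.Coprime.mul_right (g1 n hn1) ((cop_iff hd D).2 g2 T)
  rw [Fintype.card_prod, Fintype.card_finset, Fintype.card_fin, Fintype.card_coe] at h1
  refine h1.congr fun X => ?_
  congr 3
  · refine filter_congr fun D _ => ?_
    rw [hm, hcop]
    unfold Dsc
    constructor
    · rintro ⟨g1, g2, ⟨g3, g4⟩, g5⟩
      refine ⟨⟨g1, g2⟩, g3, g4, fun n hn1 => (gq_snoc hd g1 g4).2 ⟨(hn n hn1).2.2, fun T => ?_⟩⟩
      exact g5 (⟨n, hn1⟩, T)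
    · rintro ⟨⟨g1, g2⟩, g3, g4, g5⟩
      refine ⟨g1, g2, ⟨g3, g4⟩, fun q => ?_⟩
      exact ((gq_snoc hd g1 g4).1 (g5 q.1 q.1.2)).2 q.2
  · refine filter_congr fun D _ => ?_
    rw [hm, hcop]
    unfold Dsc
    tauto

/-! ### The towers -/

theorem jac_one {q p : ℕ} (h : q % p = 1 % p) : jacobiSym q p = 1 := by
  have h1 : jacobiSym (q : ℤ) p = jacobiSym ((1 : ℕ) : ℤ) p :=
    jacobiSym.mod_left' (by exact_mod_cast h)
  rw [h1, Nat.cast_one, jacobiSym.one_left]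

theorem gq_prime {r n q p0 : ℕ} {d : Fin r → ℕ} (hd : ∀ i, Dsc (d i)) (hn : Cn n)
    (hc : ∀ i, n.Coprime (d i)) (hg : Gq n d) (hq : q.Prime) (hq60 : q % 60 = 1) (hqn : ¬ q ∣ n)
    (hqd : ∀ i, ¬ q ∣ d i) (hp0 : p0.Prime) (hp0n : p0 ∣ n) (h0 : jacobiSym q p0 = -1)
    (h1 : ∀ p : ℕ, p.Prime → p ∣ n → p ≠ p0 → jacobiSym q p = 1)
    (h2 : ∀ p : ℕ, p.Prime → ∀ i, p ∣ d i → jacobiSym q p = 1) :
    Gq n (Fin.snoc d q : Fin (r + 1) → ℕ) := by
  rw [gq_snoc hd hq.squarefree fun i => (Nat.Prime.coprime_iff_not_dvd hq).2 (hqd i)]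
  refine ⟨hg, fun T => ?_⟩
  have hcT := (cop_iff hd n).2 hc T
  obtain ⟨g1, g2⟩ := prod_mod hd T
  obtain ⟨g3, -⟩ := sfp_mod g1 g2
  have hdT : ∀ p : ℕ, p.Prime → p ∣ sfp (∏ i ∈ T, d i) → ∃ i, p ∣ d i := by
    intro p hp hpd
    obtain ⟨i, -, hi⟩ := (hp.prime.dvd_finsetProd_iff _).1 (hpd.trans (sfp_dvd (prod_pos' hd T)))
    exact ⟨i, hi⟩
  refine Twr.qc_mul ((Nat.squarefree_mul hcT).2 ⟨hn.1, sfp_sqf _⟩) ?_ hq (by omega) ?_ hp0
    (Dvd.dvd.mul_right hp0n _) h0 ?_ (hg T)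
  · have g4 : sfp (∏ i ∈ T, d i) % 2 = 1 := by omega
    have g5 : n % 2 = 1 := by
      have := hn.2
      omega
    rw [Nat.mul_mod, g4, g5]
  · intro hd'
    rcases hq.dvd_mul.1 hd' with h | h
    · exact hqn h
    · obtain ⟨i, hi⟩ := hdT q hq h
      exact hqd i hi
  · intro p hp hpd hne
    rcases hp.dvd_mul.1 hpd with h | h
    · exact h1 p hp h hne
    · obtain ⟨i, hi⟩ := hdT p hp h
      exact h2 p hp i hi

/-- one more prime -/
theorem next {n m p0 : ℕ} (hn : Cn n) (hm : 0 < m) (hp0 : p0.Prime) (hp0n : p0 ∣ n)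
    (hcm : n.Coprime m) (s : Finset ℕ) (hs : ∀ x ∈ s, x.Prime ∧ n < x) (B : ℕ) :
    ∃ q : ℕ, q.Prime ∧ B < q ∧ q % 60 = 1 ∧ jacobiSym q p0 = -1 ∧
      (∀ p : ℕ, p.Prime → p ∣ n → p ≠ p0 → q % p = 1) ∧ (∀ p : ℕ, p.Prime → p ∣ m → q % p = 1) ∧
      ∀ x ∈ s, q % x = 1 := by
  obtain ⟨n', hn'⟩ := hp0n
  have hn0 : n ≠ 0 := hn.1.ne_zero
  have hn'0 : n' ≠ 0 := by
    rintro rfl
    exact hn0 (by rw [hn', mul_zero])
  set M := 60 * n' * m * ∏ x ∈ s, x with hM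
  have hM0 : M ≠ 0 := by
    rw [hM]
    exact mul_ne_zero (mul_ne_zero (mul_ne_zero (by norm_num) hn'0) hm.ne')
      (prod_ne_zero_iff.2 fun x hx => (hs x hx).1.ne_zero)
  have hp0n' : p0 ∣ n := ⟨n', hn'⟩
  have hco : M.Coprime p0 := by
    rw [hM]
    refine Nat.Coprime.mul_left (Nat.Coprime.mul_left (Nat.Coprime.mul_left ?_ ?_) ?_) ?_
    · have h60 : Nat.Coprime 60 n := by
        have h1 : Nat.gcd 60 n = Nat.gcd (n % 60) 60 := Nat.gcd_rec 60 n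
        rw [Nat.Coprime, h1]
        rcases hn.2 with h | h <;> rw [h] <;> norm_num
      exact Nat.Coprime.coprime_dvd_right hp0n' h60
    · rw [Nat.coprime_comm, Nat.Prime.coprime_iff_not_dvd hp0]
      rintro ⟨t, ht⟩
      have h1 : p0 * p0 ∣ n := ⟨t, by rw [hn', ht]; ring⟩
      exact hp0.not_isUnit (hn.1 p0 h1)
    · exact (Nat.Coprime.coprime_dvd_left hp0n' hcm).symm
    · refine Nat.Coprime.prod_left fun x hx => ?_
      refine (Nat.coprime_primes (hs x hx).1 hp0).2 fun h => ?_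
      have := Nat.le_of_dvd (Nat.pos_of_ne_zero hn0) hp0n'
      have := (hs x hx).2
      omega
  -- a nonresidue
  have hp02 : p0 ≠ 2 := by
    rintro rfl
    have := hn.2
    omega
  obtain ⟨g, hg⟩ : ∃ g : ℕ, jacobiSym g p0 = -1 := by
    have : Fact p0.Prime := ⟨hp0⟩
    obtain ⟨a, ha⟩ := FiniteField.exists_nonsquare (F := ZMod p0) (by
      rw [ZMod.ringChar_zmod_n]
      exact hp02)
    refine ⟨a.val, ?_⟩
    rw [← jacobiSym.legendreSym.to_jacobiSym, legendreSym.eq_neg_one_iff]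
    have e : (((a.val : ℕ) : ℤ) : ZMod p0) = a := by
      rw [Int.cast_natCast, ZMod.natCast_zmod_val]
    rw [e]
    exact ha
  obtain ⟨k, hk1, hk2⟩ := Nat.chineseRemainder hco 1 g
  have hkM : k.Coprime (M * p0) := by
    refine Nat.Coprime.mul_right ?_ ?_
    · have h : k.gcd M = (1 : ℕ).gcd M := Nat.ModEq.gcd_eq hk1
      exact h.trans (Nat.gcd_one_left M)
    · rw [Nat.coprime_comm, Nat.Prime.coprime_iff_not_dvd hp0]
      intro h
      have h1 : jacobiSym (k : ℤ) p0 = jacobiSym (g : ℤ) p0 :=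
        jacobiSym.mod_left' (by exact_mod_cast hk2)
      have h2 : jacobiSym (k : ℤ) p0 = 0 := by
        have : NeZero p0 := ⟨hp0.ne_zero⟩
        rw [jacobiSym.eq_zero_iff_not_coprime, Int.gcd_natCast_natCast]
        intro h3
        have h4 := Nat.dvd_gcd h dvd_rfl
        rw [h3] at h4
        exact hp0.one_lt.ne' (Nat.dvd_one.1 h4)
      rw [h2, hg] at h1
      norm_num at h1
  obtain ⟨q, hqB, hq, hqk⟩ := Nat.forall_exists_prime_gt_and_modEq B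
    (mul_ne_zero hM0 hp0.ne_zero) hkM
  have hqM : q ≡ 1 [MOD M] := (hqk.of_dvd (Dvd.intro _ rfl)).trans hk1
  have hqp : q ≡ g [MOD p0] := (hqk.of_dvd (Dvd.intro_left _ rfl)).trans hk2
  have key : ∀ p : ℕ, 1 < p → p ∣ M → q % p = 1 := by
    intro p hp hpM
    have h1 : q % p = 1 % p := hqM.of_dvd hpM
    rw [h1, Nat.mod_eq_of_lt hp]
  refine ⟨q, hq, hqB, ?_, ?_, ?_, ?_, ?_⟩
  · refine key 60 (by norm_num) ⟨n' * m * ∏ x ∈ s, x, ?_⟩
    rw [hM]
    ring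
  · rw [← hg]
    exact jacobiSym.mod_left' (by exact_mod_cast hqp)
  · intro p hp hpn hne
    refine key p hp.one_lt ?_
    rw [hn'] at hpn
    have h1 : p ∣ n' := by
      rcases hp.dvd_mul.1 hpn with h | h
      · exact absurd ((Nat.prime_dvd_prime_iff_eq hp hp0).1 h) hne
      · exact h
    rw [hM]
    exact Dvd.dvd.mul_right (Dvd.dvd.mul_right (Dvd.dvd.mul_left h1 60) m) _
  · intro p hp hpm
    refine key p hp.one_lt ?_
    rw [hM]
    exact Dvd.dvd.mul_right (Dvd.dvd.mul_left hpm _) _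
  · intro x hx
    refine key x (hs x hx).1.one_lt ?_
    rw [hM]
    exact Dvd.dvd.mul_left (dvd_prod_of_mem _ hx) _

theorem tower {r n : ℕ} {d : Fin r → ℕ} (hd : ∀ i, Dsc (d i)) (hn : Cn n)
    (hc : ∀ i, n.Coprime (d i)) (hg : Gq n d) :
    ∃ q : ℕ → ℕ, StrictMono q ∧ (∀ j, (q j).Prime ∧ q j % 60 = 1 ∧ ¬ q j ∣ n ∧ ∀ i, ¬ q j ∣ d i) ∧
      ∀ k, Gq n (Fin.append d fun i : Fin k => q i) := by
  have hn0 : n ≠ 0 := hn.1.ne_zero
  obtain ⟨p0, hp0, hp0n⟩ := Nat.exists_prime_and_dvd (show n ≠ 1 by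
    have := hn.2
    omega)
  set m := ∏ i, d i with hm
  have hm0 : 0 < m := prod_pos' hd univ
  have hcm : n.Coprime m := Nat.Coprime.prod_right fun i _ => hc i
  obtain ⟨f, hf1, hf2⟩ := exists_seq_of_forall_finset_exists
    (fun x : ℕ => x.Prime ∧ n * m < x ∧ x % 60 = 1 ∧ jacobiSym x p0 = -1 ∧
      (∀ p : ℕ, p.Prime → p ∣ n → p ≠ p0 → x % p = 1) ∧ (∀ p : ℕ, p.Prime → p ∣ m → x % p = 1))
    (fun x y => x < y ∧ y % x = 1) (fun s hs => by
      obtain ⟨q, h1, h2, h3, h4, h5, h6, h7⟩ := next hn hm0 hp0 hp0n hcm s (fun x hx =>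
        ⟨(hs x hx).1, (Nat.le_mul_of_pos_right n hm0).trans_lt (hs x hx).2.1⟩)
        (n * m + ∑ x ∈ s, x)
      refine ⟨q, ⟨h1, by omega, h3, h4, h5, h6⟩, fun x hx => ⟨?_, h7 x hx⟩⟩
      have := single_le_sum (f := fun x : ℕ => x) (fun _ _ => Nat.zero_le _) hx
      omega)
  have hmono : StrictMono f := fun a b hab => (hf2 a b hab).1
  have hnm : ∀ j, ¬ f j ∣ n ∧ ∀ i, ¬ f j ∣ d i := by
    intro j
    have h1 := (hf1 j).2.1
    have h2 := Nat.le_mul_of_pos_right n hm0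
    have h3 : m ≤ n * m := Nat.le_mul_of_pos_left m (Nat.pos_of_ne_zero hn0)
    refine ⟨fun h => ?_, fun i h => ?_⟩
    · have := Nat.le_of_dvd (Nat.pos_of_ne_zero hn0) h
      omega
    · have := Nat.le_of_dvd hm0 (h.trans (dvd_prod_of_mem d (mem_univ i)))
      omega
  refine ⟨f, hmono, fun j => ⟨(hf1 j).1, (hf1 j).2.2.1, (hnm j).1, (hnm j).2⟩, fun k => ?_⟩
  have hfd : ∀ j, Dsc (f j) := by
    intro j
    have := (hf1 j).2.2.1
    exact ⟨(hf1 j).1.squarefree, by omega, by omega⟩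
  induction k with
  | zero =>
    have e : (Fin.append d fun i : Fin 0 => f i) = d := by
      funext i
      exact Fin.append_left d _ i
    rw [e]
    exact hg
  | succ k ih =>
    have e : (Fin.append d fun i : Fin (k + 1) => f i) =
        Fin.snoc (Fin.append d fun i : Fin k => f i) (f k) := by
      rw [← Fin.append_snoc]
      congr 1
      funext i
      refine Fin.lastCases ?_ (fun j => ?_) i
      · rw [Fin.snoc_last]
        rfl
      · rw [Fin.snoc_castSucc]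
        rfl
    rw [e]
    obtain ⟨g1, g2, g3, g4, g5, g6⟩ := hf1 k
    have happ : ∀ P : ℕ → Prop, (∀ i, P (d i)) → (∀ j, j < k → P (f j)) →
        ∀ i, P ((Fin.append d fun i : Fin k => f i) i) := by
      intro P h1 h2 i
      refine Fin.addCases (fun j => ?_) (fun j => ?_) i
      · rw [Fin.append_left]
        exact h1 j
      · rw [Fin.append_right]
        exact h2 j j.2
    refine gq_prime (happ Dsc hd fun j _ => hfd j) hn (happ (fun x => n.Coprime x) hc fun j _ => ?_)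
      ih g1 g3 (hnm k).1 (happ (fun x => ¬ f k ∣ x) (hnm k).2 fun j hj => ?_) hp0 hp0n g4
      (fun p hp h1 h2 => ?_) ?_
    · rw [Nat.coprime_comm]
      exact (Nat.Prime.coprime_iff_not_dvd (hf1 j).1).2 (hnm j).1
    · intro h
      have h1 := (Nat.prime_dvd_prime_iff_eq g1 (hf1 j).1).1 h
      exact (hmono hj).ne' h1
    · refine jac_one ?_
      rw [g5 p hp h1 h2, Nat.mod_eq_of_lt hp.one_lt]
    · intro p hp
      refine happ (fun x => p ∣ x → jacobiSym (f k) p = 1) (fun i h => ?_) (fun j hj h => ?_)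
      · refine jac_one ?_
        rw [g6 p hp (h.trans (dvd_prod_of_mem d (mem_univ i))), Nat.mod_eq_of_lt hp.one_lt]
      · have h1 := (Nat.prime_dvd_prime_iff_eq hp (hf1 j).1).1 h
        refine jac_one ?_
        rw [h1, (hf2 j k hj).2, Nat.mod_eq_of_lt (hf1 j).1.one_lt]

end Pool.Agent.N856.JL
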