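import Pool.Agent.N969.P15.Fin
import Pool.Agent.N975.T1
import Pool.Agent.Y687.MQ.Abs
import Pool.Agent.Y723.QT.Bc
import Pool.Agent.Y723.QT.Rf
import Pool.Agent.N856.JL.Den
import Pool.Agent.R494.AV1

/-!
# JL: the twists of `X_0(15)` over totally real multiquadratic fields
-/

set_option autoImplicit false
set_option linter.style.haveILetI false

open WeierstrassCurve NumberField

namespace Pool.Agent.N856.JL.Fld

open Pool.Agent.N856.JL (Cn Dsc Ind Gq sfp)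
open Pool.Agent.N969.P15 (Qc Cls0)
open Pool.Agent.N875.X15 (WS Fin2)
open Pool.Agent.Y687.MQ (ZB ZB_scale mq_zero)

/-- the coefficient `a` of the twist by `m` -/
def cA (m : ℤ) : ℤ := -12987 * m ^ 2

/-- the coefficient `b` of the twist by `m` -/
def cB (m : ℤ) : ℤ := -263466 * m ^ 3

theorem disc_ne {m : ℤ} (hm : m ≠ 0) : 4 * cA m ^ 3 + 27 * cB m ^ 2 ≠ 0 := by
  have e : 4 * cA m ^ 3 + 27 * cB m ^ 2 = (4 * (-12987) ^ 3 + 27 * 263466 ^ 2) * m ^ 6 := by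
    unfold cA cB
    ring
  rw [e]
  exact mul_ne_zero (by norm_num) (pow_ne_zero 6 hm)

theorem cn_cls {n : ℕ} : Cn n ↔ Cls0 n := Iff.rfl

/-- rank and order zero for the good `n` -/
theorem zb_one {N : ℕ} (hN : Cn N) (hQ : Qc N) : ZB (cA (-(N : ℤ))) (cB (-(N : ℤ))) := by
  obtain ⟨h0, F, h1, h2, h3, h4⟩ := Pool.Agent.N969.P15.t_T1 hN hQ
  have hN0 : (-(N : ℤ)) ≠ 0 := by
    have := hN.1.ne_zero
    omega
  refine ⟨⟨F, ⟨h1, h2⟩, ?_⟩, ?_⟩
  · rw [h3, h4]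
    rfl
  · have h5 := ((Pool.Agent.N875.X15.fin2_S hN0).1
      ((Pool.Agent.N875.X15.fin2_iff hN.1 hN.2).2 hQ)).1
    exact Pool.Agent.N975.T1.finite_short hN0 h5

/-- the scaling of the equation -/
theorem ws_scale {m k : ℤ} (hm : m ≠ 0) (hk : k ≠ 0) : Fin2 (WS (m * k ^ 2)) ↔ Fin2 (WS m) := by
  have hkq : (k : ℚ) ≠ 0 := by exact_mod_cast hk
  have hvr : Pool.Agent.Y700.VR (WS (m * k ^ 2)) (WS m) (k : ℚ) 0 0 0 := by
    refine ⟨hkq, ?_, ?_, ?_, ?_, ?_⟩ <;> simp [WS] <;> ring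
  have hΔ : (WS m).Δ ≠ 0 := by
    have e : (WS m).Δ = -16 * ((4 * cA m ^ 3 + 27 * cB m ^ 2 : ℤ) : ℚ) := by
      simp only [WS, cA, cB, WeierstrassCurve.Δ, WeierstrassCurve.b₂, WeierstrassCurve.b₄,
        WeierstrassCurve.b₆, WeierstrassCurve.b₈]
      push_cast
      ring
    rw [e]
    exact mul_ne_zero (by norm_num) (by exact_mod_cast disc_ne hm)
  have hT : Pool.Agent.Z702.S_TRN := Pool.Agent.Z932.Z702.t_TRN
  obtain ⟨h1, h2, -⟩ := hT _ _ _ _ _ _ hvr hΔ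
  exact and_congr h1 h2

/-- `z` is up to squares the negative of a good number -/
def GA (z : ℤ) : Prop := ∃ N : ℕ, Cn N ∧ Qc N ∧ ∃ k : ℤ, k ≠ 0 ∧ z = -(N : ℤ) * k ^ 2

theorem GA.ne {z : ℤ} (h : GA z) : z ≠ 0 := by
  obtain ⟨N, hN, -, k, hk, rfl⟩ := h
  refine mul_ne_zero ?_ (pow_ne_zero 2 hk)
  have := hN.1.ne_zero
  omega

theorem GA.fin2 {z : ℤ} (h : GA z) : Fin2 (WS z) := by
  obtain ⟨N, hN, hQ, k, hk, rfl⟩ := h
  rw [ws_scale (by have := hN.1.ne_zero; omega) hk]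
  exact (Pool.Agent.N875.X15.fin2_iff hN.1 hN.2).2 hQ

theorem GA.zb {z : ℤ} (h : GA z) : ZB (cA z) (cB z) := by
  obtain ⟨N, hN, hQ, k, hk, rfl⟩ := h
  have h0 : (-(N : ℤ)) ≠ 0 := by
    have := hN.1.ne_zero
    omega
  exact ZB_scale (a := -12987) (b := -263466) (by norm_num) h0 hk (zb_one hN hQ)

theorem GA.sha {z : ℤ} (h : GA z) (j : ℕ)
    (x : Pool.Agent.TH841.SH.D.Sha (Pool.Agent.W307.RT.Sh (cA z) (cB z)))
    (hx : (2 ^ j : ℕ) • x = 0) : x = 0 :=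
  Pool.Agent.N875.X15.fin2_pow (W := WS z) h.fin2 j x hx

/-- **rank and order zero over the field** -/
theorem field {n : ℕ} {d : Fin n → ℤ} {M : ℤ}
    (hd : ∀ T : Finset (Fin n), T.Nonempty → ¬ IsSquare (∏ i ∈ T, d i))
    (h : ∀ T : Finset (Fin n), GA (M * ∏ i ∈ T, d i)) (K : Type)
    [Field K] [NumberField K] (x : Fin n → K) (hx : ∀ i, x i ^ 2 = (d i : K))
    (hK : IntermediateField.adjoin ℚ (Set.range x) = ⊤) :
    (∃ F : ℂ → ℂ, Pool.Agent.Y19.QT.IsLFunK K (cA M) (cB M) (∏ i, d i) F ∧ F 1 ≠ 0) ∧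
      Finite (Pool.Agent.Y19.QT.EK K (cA M) (cB M)) := by
  have hM : M ≠ 0 := by
    have := (h ∅).ne
    rwa [Finset.prod_empty, mul_one] at this
  refine mq_zero hd (disc_ne hM) (fun T => ?_) K x hx hK
  have e1 : cA M * (∏ i ∈ T, d i) ^ 2 = cA (M * ∏ i ∈ T, d i) := by
    unfold cA
    ring
  have e2 : cB M * (∏ i ∈ T, d i) ^ 3 = cB (M * ∏ i ∈ T, d i) := by
    unfold cB
    ring
  rw [e1, e2]
  exact (h T).zb

/-- **the 2-primary part over the field** -/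
theorem shaK {n : ℕ} {d : Fin n → ℤ} {M : ℤ}
    (h : ∀ T : Finset (Fin n), GA (M * ∏ i ∈ T, d i)) (K : Type)
    [Field K] [NumberField K] (x : Fin n → K) (hx : ∀ i, x i ^ 2 = (d i : K))
    (hK : IntermediateField.adjoin ℚ (Set.range x) = ⊤) :
    {y : Pool.Agent.TH841.NF.D.Sha (Pool.Agent.TH841.NF.EF (cA M) (cB M) K) |
      ∃ k : ℕ, (2 ^ k : ℕ) • y = 0}.Finite ∧
    ∀ (k : ℕ) (y : Pool.Agent.TH841.NF.D.Sha (Pool.Agent.TH841.NF.EF (cA M) (cB M) K)),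
      (2 ^ k : ℕ) • y = 0 → (2 ^ n : ℕ) • y = 0 := by
  have hM : M ≠ 0 := by
    have := (h ∅).ne
    rwa [Finset.prod_empty, mul_one] at this
  have hd0 : ∀ i, d i ≠ 0 := by
    intro i h0
    have h1 := (h {i}).ne
    rw [Finset.prod_singleton, h0, mul_zero] at h1
    exact h1 rfl
  have hkl : Pool.Agent.Y723.QT.Kl
      (Pool.Agent.TH841.NF.D.Sha (Pool.Agent.TH841.NF.EF (cA M) (cB M) K)) (n + 0) := by
    refine Pool.Agent.Y723.QT.base_kl (r := x) (d := fun i => (d i : ℚ)) (fun i => ?_)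
      (fun i => by exact_mod_cast hd0 i) hK fun T => ?_
    · rw [hx i, map_intCast]
    · rw [Pool.Agent.TH841.NF.tw_Sh]
      have e1 : (∏ i ∈ T, d i) ^ 2 * cA M = cA (M * ∏ i ∈ T, d i) := by
        unfold cA
        ring
      have e2 : (∏ i ∈ T, d i) ^ 3 * cB M = cB (M * ∏ i ∈ T, d i) := by
        unfold cB
        ring
      rw [e1, e2]
      intro j y hy
      rw [(h T).sha j y hy, smul_zero]
  rw [add_zero] at hkl
  refine ⟨?_, hkl⟩
  have he : (-21 * M : ℤ) ^ 3 + cA M * (-21 * M) + cB M = 0 := by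
    unfold cA cB
    ring
  exact (Pool.Agent.Y723.QT.f2_iff (Pool.Agent.Y723.QT.tf_EF (F := K) (disc_ne hM) he)).2 ⟨n, hkl⟩

/-! ### The `L`-function without the factors at the places dividing `30 m D` -/

open IsDedekindDomain Pool.Agent.Y19.QT in
open scoped Classical in
/-- the `L`-function outside `30 m D` -/
def IsLm (K : Type) [Field K] (m D : ℤ) (F : ℂ → ℂ) : Prop :=
  Differentiable ℂ F ∧ ∀ s : ℂ, (3 : ℝ) / 2 < s.re →
    HasProd (fun v : HeightOneSpectrum (𝓞 K) =>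
      if ((30 * m * D : ℤ) : 𝓞 K) ∈ v.asIdeal then 1 else
        (1 - (av K (cA m) (cB m) v : ℂ) * (qv K v : ℂ) ^ (-s) + (qv K v : ℂ) ^ (1 - 2 * s))⁻¹) (F s)

theorem isLm_unique {K : Type} [Field K] {m D : ℤ} {F G : ℂ → ℂ} (hF : IsLm K m D F)
    (hG : IsLm K m D G) : F = G := by
  have hF' : AnalyticOnNhd ℂ F Set.univ := fun z _ => hF.1.analyticAt z
  have hG' : AnalyticOnNhd ℂ G Set.univ := fun z _ => hG.1.analyticAt z
  refine hF'.eq_of_eventuallyEq hG' (z₀ := 2) ?_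
  have hmem : {s : ℂ | (3 : ℝ) / 2 < s.re} ∈ nhds (2 : ℂ) :=
    (isOpen_lt continuous_const Complex.continuous_re).mem_nhds (by
      show (3 : ℝ) / 2 < (2 : ℂ).re
      norm_num)
  filter_upwards [hmem] with s hs
  exact (hF.2 s hs).unique (hG.2 s hs)

theorem bad_of {K : Type} [Field K] [NumberField K] {m D : ℤ}
    (v : IsDedekindDomain.HeightOneSpectrum (𝓞 K))
    (h : ((2 * (4 * cA m ^ 3 + 27 * cB m ^ 2) * D : ℤ) : 𝓞 K) ∈ v.asIdeal) :
    ((30 * m * D : ℤ) : 𝓞 K) ∈ v.asIdeal := by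
  have hv := v.isPrime
  have e : (2 * (4 * cA m ^ 3 + 27 * cB m ^ 2) * D : ℤ) =
      -(2 ^ 9 * 3 ^ 16 * 5 ^ 4 * m ^ 6 * D) := by
    unfold cA cB
    ring
  rw [e] at h
  push_cast at h ⊢
  rw [Ideal.neg_mem_iff] at h
  have e2 : (30 : 𝓞 K) * m * D = 2 * 3 * 5 * m * D := by ring
  rw [e2]
  rcases hv.mem_or_mem h with h1 | h1
  · rcases hv.mem_or_mem h1 with h2 | h2
    · have h2' : (2 ^ 9 * 3 ^ 16 * 5 ^ 4 : 𝓞 K) ∈ v.asIdeal := by
        convert h2 using 1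
        norm_num
      rcases hv.mem_or_mem h2' with h3 | h3
      · rcases hv.mem_or_mem h3 with h4 | h4
        · have h5 := hv.mem_of_pow_mem _ h4
          exact Ideal.mul_mem_right _ _ (Ideal.mul_mem_right _ _ (Ideal.mul_mem_right _ _
            (Ideal.mul_mem_right _ _ h5)))
        · have h5 := hv.mem_of_pow_mem _ h4
          exact Ideal.mul_mem_right _ _ (Ideal.mul_mem_right _ _ (Ideal.mul_mem_right _ _
            (Ideal.mul_mem_left _ _ h5)))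
      · have h5 := hv.mem_of_pow_mem _ h3
        exact Ideal.mul_mem_right _ _ (Ideal.mul_mem_right _ _ (Ideal.mul_mem_left _ _ h5))
    · have h5 := hv.mem_of_pow_mem _ h2
      exact Ideal.mul_mem_right _ _ (Ideal.mul_mem_left _ _ h5)
  · exact Ideal.mul_mem_left _ _ h1

/-- the `L`-function over the field -/
theorem fieldL {n : ℕ} {d : Fin n → ℤ} {M : ℤ}
    (hd : ∀ T : Finset (Fin n), T.Nonempty → ¬ IsSquare (∏ i ∈ T, d i))
    (h : ∀ T : Finset (Fin n), GA (M * ∏ i ∈ T, d i)) (K : Type)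
    [Field K] [NumberField K] (x : Fin n → K) (hx : ∀ i, x i ^ 2 = (d i : K))
    (hK : IntermediateField.adjoin ℚ (Set.range x) = ⊤) :
    ∃ F : ℂ → ℂ, IsLm K M (∏ i, d i) F ∧ F 1 ≠ 0 := by
  have hM : M ≠ 0 := by
    have := (h ∅).ne
    rwa [Finset.prod_empty, mul_one] at this
  have hd0 : ∀ i, d i ≠ 0 := by
    intro i h0
    have h1 := (h {i}).ne
    rw [Finset.prod_singleton, h0, mul_zero] at h1
    exact h1 rfl
  obtain ⟨⟨F, hF, hF1⟩, -⟩ := field hd h K x hx hK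
  obtain ⟨G, h1, h2, h3⟩ := Pool.Agent.R494.AV.more (K := K) (N := 30 * M * ∏ i, d i)
    (mul_ne_zero (mul_ne_zero (by norm_num) hM) (Finset.prod_ne_zero_iff.2 fun i _ => hd0 i))
    (fun v hv => bad_of v hv) hF hF1
  exact ⟨G, ⟨h1, h3⟩, h2⟩

end Pool.Agent.N856.JL.Fld
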