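import Pool.Agent.N856.JL.All2
import Pool.Agent.N856.JL.Fld
import Pool.Agent.R413.SJ.ShaQ

/-!
# JL: products of twists of `X_0(15)` over totally real multiquadratic fields
-/

set_option autoImplicit false

open NumberField IsDedekindDomain Filter Topology

namespace Pool.Agent.N856.JL.Av

/-- the coefficient `a` of the equation `y² = x³ + a x + b` of the twist by `m` of `X_0(15)` -/
def A (m : ℤ) : ℤ := -12987 * m ^ 2

/-- the coefficient `b` of the equation `y² = x³ + a x + b` of the twist by `m` of `X_0(15)` -/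
def B (m : ℤ) : ℤ := -263466 * m ^ 3

/-- the twist `E_m` by `m` of `X_0(15)`, over the field `K` -/
def E (K : Type) [Field K] (m : ℤ) : WeierstrassCurve K :=
  { a₁ := 0, a₂ := 0, a₃ := 0, a₄ := (A m : K), a₆ := (B m : K) }

/-- `E_m(ℚ)` is finite and `Ш(E_m/ℚ)` has no element of order two -/
def RankZeroShaTwo (m : ℤ) : Prop :=
  Finite (E ℚ m).toAffine.Point ∧ ∀ x : Pool.Agent.TH841.NF.D.Sha (E ℚ m), 2 • x = 0 → x = 0

/-- the class `𝒩` of the squarefree `n` with `n ≡ 23, 47 mod 60` -/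
def Twist (n : ℕ) : Prop := Squarefree n ∧ (n % 60 = 23 ∨ n % 60 = 47)

/-- the class `𝒟` of the squarefree `d` with `d ≡ 1, 49 mod 60` -/
def Disc (d : ℕ) : Prop := Squarefree d ∧ (d % 60 = 1 ∨ d % 60 = 49)

/-- up to a square `z` has the property `C` -/
def UpToSq (C : ℕ → Prop) (z : ℕ) : Prop := ∃ n k : ℕ, C n ∧ k ≠ 0 ∧ z = n * k ^ 2

/-- `ℚ(√d_1, …, √d_r)` has degree `2 ^ r` -/
def Independent {r : ℕ} (d : Fin r → ℕ) : Prop :=
  ∀ T : Finset (Fin r), T.Nonempty → ¬ IsSquare (∏ t ∈ T, d t)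

/-- `K = ℚ(√d_1, …, √d_r)` -/
def IsMultiquadratic {r : ℕ} (d : Fin r → ℕ) (K : Type) [Field K] [NumberField K] : Prop :=
  ∃ x : Fin r → K, (∀ t, x t ^ 2 = (d t : K)) ∧ IntermediateField.adjoin ℚ (Set.range x) = ⊤

/-- the group `A(K)` for the product `A` of the curves `E_{- e i}` -/
abbrev AK {ι : Type} (K : Type) [Field K] (e : ι → ℕ) : Type := ∀ i, (E K (-(e i : ℤ))).toAffine.Point

/-- the number `q_v` of elements of the residue field of a finite place `v` of `K` -/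
noncomputable def qv (K : Type) [Field K] (v : HeightOneSpectrum (𝓞 K)) : ℕ :=
  Nat.card (𝓞 K ⧸ v.asIdeal)

/-- `a_v = q_v + 1 - #E(k_v)` for `E : y² = x³ + a x + b`, that is `q_v` minus the number of affine
points over the residue field -/
noncomputable def av (K : Type) [Field K] (a b : ℤ) (v : HeightOneSpectrum (𝓞 K)) : ℤ :=
  (qv K v : ℤ) - Nat.card {z : (𝓞 K ⧸ v.asIdeal) × (𝓞 K ⧸ v.asIdeal) //
    z.2 ^ 2 = z.1 ^ 3 + (a : 𝓞 K ⧸ v.asIdeal) * z.1 + (b : 𝓞 K ⧸ v.asIdeal)}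

open Classical in
/-- `F` is entire and is, for `Re s > 3/2`, the `L`-function of the product of the curves `E_{- e i}`
over `K` without the Euler factors at the places dividing `30 m` and the `e i` -/
def IsL {ι : Type} [Fintype ι] (K : Type) [Field K] (e : ι → ℕ) (m : ℤ) (F : ℂ → ℂ) : Prop :=
  Differentiable ℂ F ∧ ∀ s : ℂ, (3 : ℝ) / 2 < s.re →
    HasProd (fun v : HeightOneSpectrum (𝓞 K) =>
      if ((30 * (∏ i, (e i : ℤ)) * m : ℤ) : 𝓞 K) ∈ v.asIdeal then 1 else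
        ∏ i, (1 - (av K (A (-(e i : ℤ))) (B (-(e i : ℤ))) v : ℂ) * (qv K v : ℂ) ^ (-s) +
          (qv K v : ℂ) ^ (1 - 2 * s))⁻¹) (F s)

open Classical in
/-- the rank conjecture for the product `A` of the curves `E_{- e i}` over `K`, with the rank and the
order zero, and the finiteness of `Ш(A/K)[2^∞]`, the sum of the groups of the factors, which is killed
by `2 ^ r` -/
def BSDZero {ι : Type} [Fintype ι] (K : Type) [Field K] [NumberField K] (e : ι → ℕ) (m : ℤ)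
    (r : ℕ) : Prop :=
  Finite (AK K e) ∧ Module.finrank ℤ (AK K e) = 0 ∧ (∃ F : ℂ → ℂ, IsL K e m F) ∧
    (∀ F : ℂ → ℂ, IsL K e m F → analyticOrderAt F 1 = (Module.finrank ℤ (AK K e) : ℕ∞)) ∧
    ∀ i, {y : Pool.Agent.TH841.NF.D.Sha (E K (-(e i : ℤ))) | ∃ j : ℕ, (2 ^ j : ℕ) • y = 0}.Finite ∧
      ∀ (j : ℕ) (y : Pool.Agent.TH841.NF.D.Sha (E K (-(e i : ℤ)))), (2 ^ j : ℕ) • y = 0 →
        (2 ^ r : ℕ) • y = 0

/-- `A` is good over `K = ℚ(√d_1, …, √d_r)`: the curves `E_{- e_i ∏_{t ∈ T} d_t}` over `ℚ`, which are the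
factors of the Weil restriction of `A` from `K` to `ℚ`, have finitely many rational points and no
element of order two in the Tate-Shafarevich group -/
def Good {ι : Type} {r : ℕ} (d : Fin r → ℕ) (e : ι → ℕ) : Prop :=
  ∀ i, ∀ T : Finset (Fin r), RankZeroShaTwo (-(e i : ℤ) * ∏ t ∈ T, (d t : ℤ))

/-- the twist of `A` by `D` -/
def twist {ι : Type} (e : ι → ℕ) (D : ℕ) : ι → ℕ := fun i => e i * D

/-- the number of the different curves among the curves `E_{- e_i ∏_{t ∈ T} d_t}` over `ℚ`, that is of the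
different classes modulo squares of the numbers `e_i ∏_{t ∈ T} d_t` -/
noncomputable def curves {ι : Type} {r : ℕ} (d : Fin r → ℕ) (e : ι → ℕ) : ℕ :=
  Set.ncard {s : ℕ | Squarefree s ∧ ∃ i, ∃ T : Finset (Fin r), ∃ k : ℕ, k ≠ 0 ∧
    e i * ∏ t ∈ T, d t = s * k ^ 2}

/-- the limit `(1 - 1/2) (1 - 1/4) (1 - 1/8) ⋯` -/
noncomputable def eta : ℝ := ∏' i : ℕ, (1 - (1 / 2 : ℝ) ^ (i + 1))

open Classical in
/-- the number of the `m ≤ X` with the property `P` -/
noncomputable def count (P : ℕ → Prop) (X : ℕ) : ℕ := ((Finset.Icc 1 X).filter fun m => P m).card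

/-- among the numbers with the property `P`, those with the property `Q` have natural density `δ` -/
def HasDensity (P Q : ℕ → Prop) (δ : ℝ) : Prop :=
  Tendsto (fun X : ℕ => (count (fun m => P m ∧ Q m) X : ℝ) / (count P X : ℝ)) atTop (𝓝 δ)

section proof

open Pool.Agent.N856.JL
open Pool.Agent.N969.P15 (Qc)
open Pool.Agent.N875.X15 (WS)

lemma disc_iff (d : ℕ) : Disc d ↔ Dsc d := by
  unfold Disc Dsc
  refine and_congr_right fun _ => ?_
  omega

lemma rz_iff (m : ℤ) : RankZeroShaTwo m ↔ Pool.Agent.N875.X15.Fin2 (WS m) := by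
  unfold RankZeroShaTwo Pool.Agent.N875.X15.Fin2
  refine and_congr Iff.rfl ?_
  have h := (Pool.Agent.R413.SJ.ShaQ.two_iff (WS m)).symm
  refine Iff.trans h (forall_congr' fun x => ?_)
  rw [two_nsmul]

/-- the condition for one curve -/
lemma rz_nat {N : ℕ} (hN : 0 < N) (h : Cn (sfp N)) : RankZeroShaTwo (-(N : ℤ)) ↔ Qc (sfp N) := by
  obtain ⟨s, hs, h1, h2, h3⟩ := sfp_spec hN
  have e : -(N : ℤ) = -((sfp N : ℕ) : ℤ) * (s : ℤ) ^ 2 := by
    conv_lhs => rw [← h1]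
    push_cast
    ring
  rw [rz_iff, e, Fld.ws_scale (by have := h.1.ne_zero; omega) (by exact_mod_cast hs.ne')]
  exact Pool.Agent.N875.X15.fin2_iff h.1 h.2

lemma ga_nat {N : ℕ} (hN : 0 < N) (h : Cn (sfp N)) (hQ : Qc (sfp N)) : Fld.GA (-(N : ℤ)) := by
  obtain ⟨s, hs, h1, h2, h3⟩ := sfp_spec hN
  refine ⟨sfp N, h, hQ, s, by exact_mod_cast hs.ne', ?_⟩
  conv_lhs => rw [← h1]
  push_cast
  ring

/-! ### residue classes -/

lemma sq_mod12 {x s : ℕ} (h : x * s ^ 2 % 12 = 11) : x % 12 = 11 := by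
  rw [pow_two, Nat.mul_mod, Nat.mul_mod s] at h
  have a1 : x % 12 < 12 := Nat.mod_lt _ (by norm_num)
  have a2 : s % 12 < 12 := Nat.mod_lt _ (by norm_num)
  generalize x % 12 = x at *
  generalize s % 12 = y at *
  interval_cases y <;> interval_cases x <;> simp_all

lemma sq_mod5 {x s : ℕ} (h : x * s ^ 2 % 5 = 2 ∨ x * s ^ 2 % 5 = 3) : x % 5 = 2 ∨ x % 5 = 3 := by
  rw [pow_two, Nat.mul_mod, Nat.mul_mod s] at h
  have a1 : x % 5 < 5 := Nat.mod_lt _ (by norm_num)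
  have a2 : s % 5 < 5 := Nat.mod_lt _ (by norm_num)
  generalize x % 5 = x at *
  generalize s % 5 = y at *
  interval_cases y <;> interval_cases x <;> simp_all

lemma tw_mod {n : ℕ} : (n % 60 = 23 ∨ n % 60 = 47) ↔ n % 12 = 11 ∧ (n % 5 = 2 ∨ n % 5 = 3) := by
  omega

lemma cn_sfp {N : ℕ} (h12 : N % 12 = 11) (h5 : N % 5 = 2 ∨ N % 5 = 3) : Cn (sfp N) := by
  obtain ⟨s, hs, h1, h2, h3⟩ := sfp_spec (show 0 < N by omega)
  refine ⟨h3, tw_mod.2 ⟨?_, ?_⟩⟩
  · rw [← h1] at h12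
    exact sq_mod12 h12
  · rw [← h1] at h5
    exact sq_mod5 h5

/-- a number of the first class times a number `1` modulo `12` and `± 1` modulo `5` -/
lemma mul_cls {n D : ℕ} (h : n % 60 = 23 ∨ n % 60 = 47) (h12 : D % 12 = 1)
    (h5 : D % 5 = 1 ∨ D % 5 = 4) : n * D % 12 = 11 ∧ (n * D % 5 = 2 ∨ n * D % 5 = 3) := by
  obtain ⟨h1, h2⟩ := tw_mod.1 h
  refine ⟨by rw [Nat.mul_mod, h1, h12], ?_⟩
  rcases h2 with h2 | h2 <;> rcases h5 with h5 | h5 <;> rw [Nat.mul_mod, h2, h5] <;> norm_num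

lemma one_mul_cls {x D : ℕ} (hx : x % 12 = 1 ∧ (x % 5 = 1 ∨ x % 5 = 4)) (h12 : D % 12 = 1)
    (h5 : D % 5 = 1 ∨ D % 5 = 4) : x * D % 12 = 1 ∧ (x * D % 5 = 1 ∨ x * D % 5 = 4) := by
  obtain ⟨h1, h2⟩ := hx
  refine ⟨by rw [Nat.mul_mod, h1, h12], ?_⟩
  rcases h2 with h2 | h2 <;> rcases h5 with h5 | h5 <;> rw [Nat.mul_mod, h2, h5] <;> norm_num

lemma cn_of {z y : ℕ} (hz : UpToSq Twist z) (hy12 : y % 12 = 1) (hy5 : y % 5 = 1 ∨ y % 5 = 4) :
    0 < z * y ∧ Cn (sfp (z * y)) := by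
  obtain ⟨n, k, hn, hk, rfl⟩ := hz
  have hn0 : 0 < n := Nat.pos_of_ne_zero hn.1.ne_zero
  have hy : 0 < y := by omega
  have hk0 : 0 < k ^ 2 := by positivity
  refine ⟨Nat.mul_pos (Nat.mul_pos hn0 hk0) hy, ?_⟩
  rw [All.sfp_mul_left (Nat.mul_pos hn0 hk0) hy, sfp_mul_sq hn.1 hk]
  obtain ⟨h1, h2⟩ := mul_cls hn.2 hy12 hy5
  exact cn_sfp h1 h2

lemma cn_of' {z n y : ℕ} (hz : UpToSq Disc z) (hn : Twist n) (hy12 : y % 12 = 1)
    (hy5 : y % 5 = 1 ∨ y % 5 = 4) : 0 < z * n * y ∧ Cn (sfp (z * n * y)) := by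
  obtain ⟨m, k, hm, hk, rfl⟩ := hz
  have hm0 : 0 < m := Nat.pos_of_ne_zero hm.1.ne_zero
  have hn0 : 0 < n := Nat.pos_of_ne_zero hn.1.ne_zero
  have hy : 0 < y := by omega
  have hk0 : 0 < k ^ 2 := by positivity
  refine ⟨Nat.mul_pos (Nat.mul_pos (Nat.mul_pos hm0 hk0) hn0) hy, ?_⟩
  rw [mul_assoc (m * k ^ 2), All.sfp_mul_left (Nat.mul_pos hm0 hk0) (Nat.mul_pos hn0 hy),
    sfp_mul_sq hm.1 hk]
  have hm' := ((disc_iff m).1 hm).2
  obtain ⟨h1, h2⟩ := one_mul_cls hm' hy12 hy5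
  obtain ⟨h3, h4⟩ := mul_cls hn.2 h1 h2
  have e : m * (n * y) = n * (m * y) := by ring
  rw [e]
  exact cn_sfp h3 h4

/-! ### the classes of the curves -/

section

variable {ι : Type} [Fintype ι] {r : ℕ} (d : Fin r → ℕ) (e : ι → ℕ)

open Classical in
/-- the squarefree parts -/
noncomputable def Cs : Finset ℕ :=
  (Finset.univ : Finset (ι × Finset (Fin r))).image fun q => sfp (e q.1 * ∏ t ∈ q.2, d t)

variable {d e}

lemma mem_Cs {s : ℕ} : s ∈ Cs d e ↔ ∃ i, ∃ T : Finset (Fin r), sfp (e i * ∏ t ∈ T, d t) = s := by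
  classical
  unfold Cs
  rw [Finset.mem_image]
  constructor
  · rintro ⟨q, -, h⟩
    exact ⟨q.1, q.2, h⟩
  · rintro ⟨i, T, h⟩
    exact ⟨(i, T), Finset.mem_univ _, h⟩

lemma curves_eq (hpos : ∀ i, 0 < e i) (hd : ∀ t, Dsc (d t)) : curves d e = (Cs d e).card := by
  classical
  unfold curves
  rw [← Set.ncard_coe_finset]
  congr 1
  ext s
  rw [Finset.mem_coe, mem_Cs, Set.mem_setOf_eq]
  constructor
  · rintro ⟨h1, i, T, k, hk, h2⟩
    refine ⟨i, T, ?_⟩
    rw [h2]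
    exact sfp_mul_sq h1 hk
  · rintro ⟨i, T, rfl⟩
    obtain ⟨k, hk, h1, h2, h3⟩ := sfp_spec (Nat.mul_pos (hpos i) (prod_pos' hd T))
    exact ⟨h3, i, T, k, hk.ne', h1.symm⟩

lemma all_Cs {P : ℕ → Prop} : (∀ i, ∀ T : Finset (Fin r), P (sfp (e i * ∏ t ∈ T, d t))) ↔
    ∀ s : Cs d e, P s := by
  constructor
  · rintro h ⟨s, hs⟩
    obtain ⟨i, T, h1⟩ := mem_Cs.1 hs
    exact h1 ▸ h i T
  · intro h i T
    exact h ⟨_, mem_Cs.2 ⟨i, T, rfl⟩⟩

end

lemma pos_of {C : ℕ → Prop} (hC : ∀ n, C n → 0 < n) {z : ℕ} (h : UpToSq C z) : 0 < z := by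
  obtain ⟨n, k, hn, hk, rfl⟩ := h
  have := hC n hn
  positivity

lemma pos_T {n : ℕ} (h : Twist n) : 0 < n := Nat.pos_of_ne_zero h.1.ne_zero
lemma pos_D {n : ℕ} (h : Disc n) : 0 < n := Nat.pos_of_ne_zero h.1.ne_zero

section

variable {ι : Type} [Fintype ι] {r : ℕ} {d : Fin r → ℕ} {e : ι → ℕ}

/-- good, for twists of the product -/
lemma good_tw (hd : ∀ t, Dsc (d t)) (he : ∀ i, UpToSq Twist (e i)) {D : ℕ} (hD : Dsc D) :
    Good d (twist e D) ↔ ∀ s : Cs d e, Qc (sfp ((s : ℕ) * D)) := by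
  rw [← all_Cs (P := fun s => Qc (sfp (s * D)))]
  refine forall_congr' fun i => forall_congr' fun T => ?_
  have hD0 : 0 < D := Nat.pos_of_ne_zero hD.1.ne_zero
  have hei := pos_of (fun n hn => pos_T hn) (he i)
  obtain ⟨g1, g2⟩ := prod_mod hd T
  obtain ⟨g3, g4⟩ := one_mul_cls ⟨g1, g2⟩ hD.2.1 hD.2.2
  obtain ⟨k1, k2⟩ := cn_of (he i) g3 g4
  have e1 : -((twist e D i : ℕ) : ℤ) * ∏ t ∈ T, (d t : ℤ) =
      -((e i * ((∏ t ∈ T, d t) * D) : ℕ) : ℤ) := by
    unfold twist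
    push_cast
    ring
  rw [e1, rz_nat k1 k2, ← mul_assoc, All.sfp_mul_left (Nat.mul_pos hei (prod_pos' hd T)) hD0]

lemma good_one (hd : ∀ t, Dsc (d t)) (he : ∀ i, UpToSq Twist (e i)) :
    Good d e ↔ ∀ i, ∀ T : Finset (Fin r), Qc (sfp (e i * ∏ t ∈ T, d t)) := by
  refine forall_congr' fun i => forall_congr' fun T => ?_
  obtain ⟨g1, g2⟩ := prod_mod hd T
  obtain ⟨k1, k2⟩ := cn_of (he i) g1 g2
  have e1 : -((e i : ℕ) : ℤ) * ∏ t ∈ T, (d t : ℤ) = -((e i * (∏ t ∈ T, d t) : ℕ) : ℤ) := by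
    push_cast
    ring
  rw [e1, rz_nat k1 k2]

lemma good_tw' (hd : ∀ t, Dsc (d t)) (he : ∀ i, UpToSq Disc (e i)) {n : ℕ} (hn : Twist n) :
    Good d (twist e n) ↔ ∀ s : Cs d e, Qc (sfp ((s : ℕ) * n)) := by
  rw [← all_Cs (P := fun s => Qc (sfp (s * n)))]
  refine forall_congr' fun i => forall_congr' fun T => ?_
  have hn0 : 0 < n := pos_T hn
  have hei := pos_of (fun n hn => pos_D hn) (he i)
  obtain ⟨g1, g2⟩ := prod_mod hd T
  obtain ⟨k1, k2⟩ := cn_of' (he i) hn g1 g2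
  have e1 : -((twist e n i : ℕ) : ℤ) * ∏ t ∈ T, (d t : ℤ) =
      -((e i * n * (∏ t ∈ T, d t) : ℕ) : ℤ) := by
    unfold twist
    push_cast
    ring
  have e2 : e i * n * ∏ t ∈ T, d t = e i * (∏ t ∈ T, d t) * n := by ring
  rw [e1, rz_nat k1 k2, e2, All.sfp_mul_left (Nat.mul_pos hei (prod_pos' hd T)) hn0]

lemma good_snoc (hd : ∀ t, Dsc (d t)) (D : ℕ) :
    Good (Fin.snoc d D : Fin (r + 1) → ℕ) e ↔ Good d e ∧ Good d (twist e D) := by
  have key : ∀ T : Finset (Fin (r + 1)),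
      (∏ t ∈ T, (((Fin.snoc d D : Fin (r + 1) → ℕ) t : ℕ) : ℤ)) =
      (((∏ t ∈ Finset.univ.filter (fun t : Fin r => t.castSucc ∈ T), d t) *
        (if Fin.last r ∈ T then D else 1) : ℕ) : ℤ) := by
    intro T
    rw [← Nat.cast_prod, prod_snoc]
  have e1 : ∀ T : Finset (Fin r), Finset.univ.filter
      (fun i : Fin r => i.castSucc ∈ T.map Fin.castSuccEmb) = T := by
    intro T
    ext i
    simp only [Finset.mem_filter, Finset.mem_univ, true_and, Finset.mem_map, Fin.coe_castSuccEmb]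
    constructor
    · rintro ⟨j, hj, hji⟩
      rw [← Fin.castSucc_injective r hji]
      exact hj
    · intro hi
      exact ⟨i, hi, rfl⟩
  have e2 : ∀ T : Finset (Fin r), Fin.last r ∉ T.map Fin.castSuccEmb := by
    intro T h
    obtain ⟨j, -, hj⟩ := Finset.mem_map.1 h
    exact (Fin.castSucc_lt_last j).ne hj
  have e3 : ∀ T : Finset (Fin r), Finset.univ.filter
      (fun i : Fin r => i.castSucc ∈ insert (Fin.last r) (T.map Fin.castSuccEmb)) = T := by
    intro T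
    conv_rhs => rw [← e1 T]
    refine Finset.filter_congr fun i _ => ?_
    rw [Finset.mem_insert]
    exact or_iff_right (Fin.castSucc_lt_last i).ne
  constructor
  · intro h
    refine ⟨fun i T => ?_, fun i T => ?_⟩
    · have h1 := h i (T.map Fin.castSuccEmb)
      rw [key, e1, if_neg (e2 T), mul_one, Nat.cast_prod] at h1
      exact h1
    · have h1 := h i (insert (Fin.last r) (T.map Fin.castSuccEmb))
      rw [key, e3, if_pos (Finset.mem_insert_self _ _)] at h1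
      have e4 : -((twist e D i : ℕ) : ℤ) * ∏ t ∈ T, (d t : ℤ) =
          -(e i : ℤ) * (((∏ t ∈ T, d t) * D : ℕ) : ℤ) := by
        unfold twist
        push_cast
        ring
      rw [e4]
      exact h1
  · rintro ⟨h1, h2⟩ i T
    rw [key]
    by_cases hT : Fin.last r ∈ T
    · rw [if_pos hT]
      have h3 := h2 i (Finset.univ.filter (fun t : Fin r => t.castSucc ∈ T))
      have e4 : -((twist e D i : ℕ) : ℤ) *
          ∏ t ∈ Finset.univ.filter (fun t : Fin r => t.castSucc ∈ T), (d t : ℤ) =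
          -(e i : ℤ) * (((∏ t ∈ Finset.univ.filter (fun t : Fin r => t.castSucc ∈ T), d t) * D : ℕ) :
            ℤ) := by
        unfold twist
        push_cast
        ring
      rw [e4] at h3
      exact h3
    · rw [if_neg hT, mul_one]
      have h3 := h1 i (Finset.univ.filter (fun t : Fin r => t.castSucc ∈ T))
      rw [← Nat.cast_prod] at h3
      exact h3

lemma dens_congr {P P' Q Q' : ℕ → Prop} {δ : ℝ} (hP : ∀ m, P m ↔ P' m)
    (hQ : ∀ m, P m → (Q m ↔ Q' m)) (h : HasDensity P Q δ) : HasDensity P' Q' δ := by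
  have e1 : P = P' := funext fun m => propext (hP m)
  subst e1
  have e2 : (fun m => P m ∧ Q m) = fun m => P m ∧ Q' m :=
    funext fun m => propext (and_congr_right fun h => hQ m h)
  unfold HasDensity at h ⊢
  rw [← e2]
  exact h

/-- the law in the form `HasDensity` -/
lemma law {I : Type} [Fintype I] [Nonempty I] (c : I → ℕ) (hinj : Function.Injective c)
    (hc : ∀ i, Squarefree (c i) ∧ c i % 2 = 1) (K : Finset ℕ) (hKn : K.Nonempty)
    (hK : ∀ a ∈ K, a < 120 ∧ a.Coprime 120 ∧ ∀ i, (a * c i) % 4 = 3) :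
    HasDensity (fun n => Squarefree n ∧ n % 120 ∈ K) (fun n => ∀ i, Qc (sfp (c i * n)))
      (Pool.Agent.N916.GB.eta ^ Fintype.card I) := by
  have h := All.dens c hinj hc K hKn hK
  unfold HasDensity
  refine h.congr fun X => ?_
  unfold count
  congr 3
  · ext n
    simp only [Finset.mem_filter, and_assoc]
  · ext n
    simp only [Finset.mem_filter]

/-- the density for a fixed product and a random discriminant -/
theorem dens_D [Nonempty ι] (hd : ∀ t, Disc (d t)) (he : ∀ i, UpToSq Twist (e i)) :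
    HasDensity Disc (fun D => Good d (twist e D)) (eta ^ curves d e) := by
  have hd' : ∀ t, Dsc (d t) := fun t => (disc_iff _).1 (hd t)
  have hpos : ∀ i, 0 < e i := fun i => pos_of (fun n hn => pos_T hn) (he i)
  have hcs : ∀ s : Cs d e, Cn (s : ℕ) := by
    rintro ⟨s, hs⟩
    obtain ⟨i, T, h1⟩ := mem_Cs.1 hs
    obtain ⟨g1, g2⟩ := prod_mod hd' T
    have := (cn_of (he i) g1 g2).2
    rw [h1] at this
    exact this
  have hne : Nonempty (Cs d e) := by
    obtain ⟨i⟩ := ‹Nonempty ι›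
    exact ⟨⟨_, mem_Cs.2 ⟨i, ∅, rfl⟩⟩⟩
  have h := law (I := Cs d e) (fun s => (s : ℕ)) Subtype.val_injective
    (fun s => ⟨(hcs s).1, by have := (hcs s).2; omega⟩) {1, 49, 61, 109} ⟨1, by simp⟩ (fun a ha => by
      have hcop : ∀ a ∈ ({1, 49, 61, 109} : Finset ℕ), a < 120 ∧ a.Coprime 120 ∧ a % 4 = 1 := by
        decide
      obtain ⟨g1, g2, g3⟩ := hcop a ha
      refine ⟨g1, g2, fun s => ?_⟩
      have g4 : (s : ℕ) % 4 = 3 := by have := (hcs s).2; omega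
      rw [Nat.mul_mod, g3, g4])
  rw [Fintype.card_coe, ← curves_eq hpos hd'] at h
  refine dens_congr (fun n => ?_) (fun n hn => ?_) h
  · unfold Disc
    refine and_congr_right fun _ => ?_
    simp only [Finset.mem_insert, Finset.mem_singleton]
    omega
  · refine (good_tw hd' he ?_).symm
    refine (disc_iff n).1 ⟨hn.1, ?_⟩
    have := hn.2
    simp only [Finset.mem_insert, Finset.mem_singleton] at this
    omega

/-- the density for a fixed family of discriminants and a random curve -/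
theorem dens_n [Nonempty ι] (hd : ∀ t, Disc (d t)) (he : ∀ i, UpToSq Disc (e i)) :
    HasDensity Twist (fun n => Good d (twist e n)) (eta ^ curves d e) := by
  have hd' : ∀ t, Dsc (d t) := fun t => (disc_iff _).1 (hd t)
  have hpos : ∀ i, 0 < e i := fun i => pos_of (fun n hn => pos_D hn) (he i)
  have hcs : ∀ s : Cs d e, Dsc (s : ℕ) := by
    rintro ⟨s, hs⟩
    obtain ⟨i, T, h1⟩ := mem_Cs.1 hs
    obtain ⟨g1, g2⟩ := prod_mod hd' T
    obtain ⟨m, k, hm, hk, h2⟩ := he i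
    have hm0 := pos_D hm
    have hm' := ((disc_iff m).1 hm).2
    obtain ⟨g3, g4⟩ := one_mul_cls hm' g1 g2
    refine (show Dsc (sfp (e i * ∏ t ∈ T, d t)) → Dsc s from fun h => h1 ▸ h) ?_
    rw [All.sfp_mul_left (hpos i) (prod_pos' hd' T), h2, sfp_mul_sq hm.1 hk]
    exact ⟨sfp_sqf _, sfp_mod g3 g4⟩
  have hne : Nonempty (Cs d e) := by
    obtain ⟨i⟩ := ‹Nonempty ι›
    exact ⟨⟨_, mem_Cs.2 ⟨i, ∅, rfl⟩⟩⟩
  have h := law (I := Cs d e) (fun s => (s : ℕ)) Subtype.val_injective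
    (fun s => ⟨(hcs s).1, by have := (hcs s).2; omega⟩) {23, 47, 83, 107} ⟨23, by simp⟩ (fun a ha => by
      have hcop : ∀ a ∈ ({23, 47, 83, 107} : Finset ℕ), a < 120 ∧ a.Coprime 120 ∧ a % 4 = 3 := by
        decide
      obtain ⟨g1, g2, g3⟩ := hcop a ha
      refine ⟨g1, g2, fun s => ?_⟩
      have g4 : (s : ℕ) % 4 = 1 := by have := (hcs s).2; omega
      rw [Nat.mul_mod, g3, g4])
  rw [Fintype.card_coe, ← curves_eq hpos hd'] at h
  refine dens_congr (fun n => ?_) (fun n hn => ?_) h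
  · unfold Twist
    refine and_congr_right fun _ => ?_
    simp only [Finset.mem_insert, Finset.mem_singleton]
    omega
  · refine (good_tw' hd' he ⟨hn.1, ?_⟩).symm
    have := hn.2
    simp only [Finset.mem_insert, Finset.mem_singleton] at this
    omega

/-- the field -/
theorem bsd (hd : ∀ t, Disc (d t)) (hi : Independent d) (he : ∀ i, UpToSq Twist (e i))
    (hg : Good d e) (K : Type) [Field K] [NumberField K] (hK : IsMultiquadratic d K) :
    Module.finrank ℚ K = 2 ^ r ∧ BSDZero K e (∏ t, (d t : ℤ)) r := by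
  classical
  have hd' : ∀ t, Dsc (d t) := fun t => (disc_iff _).1 (hd t)
  obtain ⟨x, hx, hgen⟩ := hK
  have hgq := (good_one hd' he).1 hg
  have hga : ∀ i, ∀ T : Finset (Fin r), Fld.GA (-(e i : ℤ) * ∏ t ∈ T, (d t : ℤ)) := by
    intro i T
    obtain ⟨g1, g2⟩ := prod_mod hd' T
    obtain ⟨k1, k2⟩ := cn_of (he i) g1 g2
    have e1 : -((e i : ℕ) : ℤ) * ∏ t ∈ T, (d t : ℤ) = -((e i * (∏ t ∈ T, d t) : ℕ) : ℤ) := by
      push_cast
      ring
    rw [e1]
    exact ga_nat k1 k2 (hgq i T)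
  have hx' : ∀ t, x t ^ 2 = ((d t : ℤ) : K) := fun t => by rw [hx t, Int.cast_natCast]
  have hind : ∀ T : Finset (Fin r), T.Nonempty → ¬ IsSquare (∏ t ∈ T, (d t : ℤ)) := by
    intro T hT hsq
    rw [← Nat.cast_prod] at hsq
    obtain ⟨a, ha⟩ := hsq
    refine hi T hT ⟨a.natAbs, ?_⟩
    have := congrArg Int.natAbs ha
    rwa [Int.natAbs_natCast, Int.natAbs_mul] at this
  have hdeg : Module.finrank ℚ K = 2 ^ r := by
    have := Pool.Agent.Y73.QMQ1.gal_of hx' hgen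
    rw [← IsGalois.card_aut_eq_finrank]
    exact Pool.Agent.Y73.QMQ1.card_gal hind hx' hgen
  refine ⟨hdeg, ?_⟩
  have hf := fun i => Fld.field hind (hga i) K x hx' hgen
  have hs := fun i => Fld.shaK (hga i) K x hx' hgen
  have hN : 30 * (∏ i, (e i : ℤ)) * (∏ t, (d t : ℤ)) ≠ 0 := by
    refine mul_ne_zero (mul_ne_zero (by norm_num) (Finset.prod_ne_zero_iff.2 fun i _ => ?_))
      (Finset.prod_ne_zero_iff.2 fun t _ => ?_)
    · exact_mod_cast (pos_of (fun n hn => pos_T hn) (he i)).ne'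
    · exact_mod_cast (hd t).1.ne_zero
  have hbad : ∀ i, ∀ v : HeightOneSpectrum (𝓞 K),
      ((2 * (4 * Fld.cA (-(e i : ℤ)) ^ 3 + 27 * Fld.cB (-(e i : ℤ)) ^ 2) *
        ∏ t, (d t : ℤ) : ℤ) : 𝓞 K) ∈ v.asIdeal →
      ((30 * (∏ i, (e i : ℤ)) * (∏ t, (d t : ℤ)) : ℤ) : 𝓞 K) ∈ v.asIdeal := by
    intro i v hv
    have h1 := Fld.bad_of v hv
    obtain ⟨z, hz⟩ : (30 * (-(e i : ℤ)) * ∏ t, (d t : ℤ)) ∣
        (30 * (∏ i, (e i : ℤ)) * (∏ t, (d t : ℤ))) := by
      refine mul_dvd_mul_right (mul_dvd_mul_left 30 ?_) _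
      rw [neg_dvd]
      exact Finset.dvd_prod_of_mem (fun i => (e i : ℤ)) (Finset.mem_univ i)
    rw [hz, Int.cast_mul]
    exact Ideal.mul_mem_right _ _ h1
  obtain ⟨F, hF, hF1⟩ := Pool.Agent.R494.AV.prodL (K := K)
    (a := fun i => Fld.cA (-(e i : ℤ))) (b := fun i => Fld.cB (-(e i : ℤ)))
    (D := fun _ => ∏ t, (d t : ℤ)) hN hbad (fun i => (hf i).1)
  obtain ⟨h1, h2⟩ := Pool.Agent.R494.AV.rank_zero (K := K)
    (a := fun i => Fld.cA (-(e i : ℤ))) (b := fun i => Fld.cB (-(e i : ℤ))) fun i => (hf i).2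
  have h2' : Module.finrank ℤ (AK K e) = 0 := h2
  refine ⟨h1, h2', ⟨F, hF⟩, fun G hG => ?_, fun i => hs i⟩
  have h3 : G = F := Pool.Agent.R494.AV.unique (K := K) (a := fun i => Fld.cA (-(e i : ℤ)))
    (b := fun i => Fld.cB (-(e i : ℤ))) (N := 30 * (∏ i, (e i : ℤ)) * (∏ t, (d t : ℤ))) hG hF
  rw [h2', h3]
  exact (hF.1.analyticAt 1).analyticOrderAt_eq_zero.2 hF1

end

end proof

end Pool.Agent.N856.JL.Av
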