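import Pool.Agent.N856.JL.Den

/-!
# JL: independence modulo squares
-/

set_option autoImplicit false
set_option linter.unusedVariables false

open scoped Classical

namespace Pool.Agent.N856.JL

open Finset

theorem sfp_square {N : ℕ} (hN : 0 < N) (h : IsSquare N) : sfp N = 1 := by
  obtain ⟨a, rfl⟩ := h
  have ha : a ≠ 0 := by
    rintro rfl
    exact absurd hN (by norm_num)
  have := sfp_mul_sq squarefree_one ha
  rwa [one_mul, pow_two] at this

theorem ind_snoc {r D : ℕ} {d : Fin r → ℕ} (hd : ∀ i, Dsc (d i)) (hi : Ind d) (hD : Squarefree D)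
    (hc : ∀ i, D.Coprime (d i)) (h1 : 1 < D) : Ind (Fin.snoc d D : Fin (r + 1) → ℕ) := by
  intro T hT hsq
  rw [prod_snoc] at hsq
  by_cases h : Fin.last r ∈ T
  · rw [if_pos h] at hsq
    have hcT : (∏ i ∈ univ.filter (fun i : Fin r => i.castSucc ∈ T), d i).Coprime D :=
      (Nat.Coprime.prod_right fun i _ => hc i).symm
    have h2 := sfp_square (Nat.mul_pos (prod_pos' hd _) (by omega)) hsq
    rw [sfp_mul (prod_pos' hd _) hD hcT] at h2
    have h3 := Nat.eq_one_of_mul_eq_one_left h2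
    omega
  · rw [if_neg h, mul_one] at hsq
    refine hi _ ?_ hsq
    obtain ⟨j, hj⟩ := hT
    have hne : j ≠ Fin.last r := by
      rintro rfl
      exact h hj
    refine ⟨j.castPred hne, mem_filter.2 ⟨mem_univ _, ?_⟩⟩
    rw [Fin.castSucc_castPred]
    exact hj

theorem append_succ {r : ℕ} (d : Fin r → ℕ) (f : ℕ → ℕ) (k : ℕ) :
    (Fin.append d fun i : Fin (k + 1) => f i) =
      Fin.snoc (Fin.append d fun i : Fin k => f i) (f k) := by
  rw [← Fin.append_snoc]
  congr 1
  funext i
  refine Fin.lastCases ?_ (fun j => ?_) i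
  · rw [Fin.snoc_last]
    rfl
  · rw [Fin.snoc_castSucc]
    rfl

theorem append_all {r k : ℕ} {d : Fin r → ℕ} {f : ℕ → ℕ} (P : ℕ → Prop) (h1 : ∀ i, P (d i))
    (h2 : ∀ j, j < k → P (f j)) : ∀ i, P ((Fin.append d fun i : Fin k => f i) i) := by
  intro i
  refine Fin.addCases (fun j => ?_) (fun j => ?_) i
  · rw [Fin.append_left]
    exact h1 j
  · rw [Fin.append_right]
    exact h2 j j.2

theorem ind_append {r : ℕ} {d : Fin r → ℕ} (hd : ∀ i, Dsc (d i)) (hi : Ind d) {q : ℕ → ℕ}
    (hq : StrictMono q) (hp : ∀ j, (q j).Prime ∧ q j % 60 = 1 ∧ ∀ i, ¬ q j ∣ d i) (k : ℕ) :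
    (∀ i, Dsc ((Fin.append d fun i : Fin k => q i) i)) ∧ Ind (Fin.append d fun i : Fin k => q i) := by
  have hqd : ∀ j, Dsc (q j) := by
    intro j
    have := (hp j).2.1
    exact ⟨(hp j).1.squarefree, by omega, by omega⟩
  refine ⟨append_all Dsc hd fun j _ => hqd j, ?_⟩
  induction k with
  | zero =>
    have e : (Fin.append d fun i : Fin 0 => q i) = d := by
      funext i
      exact Fin.append_left d _ i
    rw [e]
    exact hi
  | succ k ih =>
    rw [append_succ]
    refine ind_snoc (append_all Dsc hd fun j _ => hqd j) ih (hp k).1.squarefree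
      (append_all (fun x => (q k).Coprime x) (fun i => ?_) fun j hj => ?_) (hp k).1.one_lt
    · exact (Nat.Prime.coprime_iff_not_dvd (hp k).1).2 ((hp k).2.2 i)
    · exact (Nat.coprime_primes (hp k).1 (hp j).1).2 (hq hj).ne'

end Pool.Agent.N856.JL
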