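import Pool.Agent.N856.JL.Av
import Pool.Agent.N856.JL.Ind

/-!
# JL: products of twists of `X_0(15)` over totally real multiquadratic fields, the theorem
-/

set_option autoImplicit false
set_option linter.unusedVariables false

open NumberField IsDedekindDomain Filter Topology

namespace Pool.Agent.N856.JL.Av

open Pool.Agent.N856.JL
open Pool.Agent.N969.P15 (Qc)

/-- the construction of a sequence, one member after the other -/
theorem exists_seq {Ω : (k : ℕ) → (Fin k → ℕ) → Prop} (h0 : Ω 0 Fin.elim0)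
    (h : ∀ k f, Ω k f → ∃ D, Ω (k + 1) (Fin.snoc f D)) :
    ∃ q : ℕ → ℕ, ∀ k, Ω k fun i : Fin k => q i := by
  choose g hg using h
  let s : (k : ℕ) → {f : Fin k → ℕ // Ω k f} := fun k =>
    Nat.rec ⟨Fin.elim0, h0⟩ (fun k f => ⟨Fin.snoc f.1 (g k f.1 f.2), hg k f.1 f.2⟩) k
  have hs : ∀ k, (s (k + 1)).1 = Fin.snoc (s k).1 (g k (s k).1 (s k).2) := fun k => rfl
  refine ⟨fun k => (s (k + 1)).1 (Fin.last k), fun k => ?_⟩
  have key : ∀ k, (s k).1 = fun i : Fin k => (s ((i : ℕ) + 1)).1 (Fin.last i) := by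
    intro k
    induction k with
    | zero =>
      funext i
      exact i.elim0
    | succ k ih =>
      funext i
      refine Fin.lastCases ?_ (fun j => ?_) i
      · rfl
      · rw [hs k, Fin.snoc_castSucc (α := fun _ => ℕ)]
        exact congrFun ih j
  rw [← key k]
  exact (s k).2

theorem append_snoc' {r k : ℕ} (d : Fin r → ℕ) (f : Fin k → ℕ) (D : ℕ) :
    (Fin.append d (Fin.snoc f D : Fin (k + 1) → ℕ)) =
      (Fin.snoc (Fin.append d f) D : Fin (r + k + 1) → ℕ) :=
  (Fin.append_snoc d f D)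

section

variable {ι : Type} [Fintype ι] {r : ℕ} {d : Fin r → ℕ} {e : ι → ℕ}

/-- a positive density gives arbitrarily large members -/
theorem exists_gt {P Q : ℕ → Prop} {δ : ℝ} (hδ : 0 < δ) (h : HasDensity P Q δ)
    (hP : ∀ N, ∃ n, N < n ∧ P n) (N : ℕ) : ∃ n, N < n ∧ P n ∧ Q n := by
  classical
  by_contra hne
  push Not at hne
  -- the number of the members is bounded
  have hb : ∀ X, count (fun m => P m ∧ Q m) X ≤ N := by
    intro X
    unfold count
    have : (Finset.Icc 1 X).filter (fun m => P m ∧ Q m) ⊆ Finset.Icc 1 N := by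
      intro m hm
      rw [Finset.mem_filter, Finset.mem_Icc] at hm
      rw [Finset.mem_Icc]
      refine ⟨hm.1.1, ?_⟩
      by_contra h1
      exact hne m (by omega) hm.2.1 hm.2.2
    have h2 := Finset.card_le_card this
    rw [Nat.card_Icc, Nat.add_sub_cancel] at h2
    convert h2
  -- the number of all the numbers tends to infinity
  have ht : Tendsto (fun X : ℕ => (count P X : ℝ)) atTop atTop := by
    rw [tendsto_natCast_atTop_iff]
    refine tendsto_atTop_atTop.2 fun b => ?_
    have hmono : Monotone (count P) := by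
      intro x y hxy
      exact Finset.card_le_card (Finset.filter_subset_filter _ (Finset.Icc_subset_Icc_right hxy))
    have : ∃ X, b ≤ count P X := by
      induction b with
      | zero => exact ⟨0, Nat.zero_le _⟩
      | succ b ih =>
        obtain ⟨X, hX⟩ := ih
        obtain ⟨n, hn, hPn⟩ := hP X
        refine ⟨n, ?_⟩
        have h1 : insert n ((Finset.Icc 1 X).filter fun m => P m) ⊆
            (Finset.Icc 1 n).filter fun m => P m := by
          intro m hm
          rw [Finset.mem_insert] at hm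
          rw [Finset.mem_filter, Finset.mem_Icc]
          rcases hm with rfl | hm
          · exact ⟨⟨by omega, le_rfl⟩, hPn⟩
          · rw [Finset.mem_filter, Finset.mem_Icc] at hm
            exact ⟨⟨hm.1.1, by omega⟩, hm.2⟩
        have h2 := Finset.card_le_card h1
        rw [Finset.card_insert_of_notMem (by
          rw [Finset.mem_filter, Finset.mem_Icc]
          omega)] at h2
        unfold count at hX ⊢
        omega
    obtain ⟨X, hX⟩ := this
    exact ⟨X, fun Y hY => hX.trans (hmono hY)⟩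
  have h0 : Tendsto (fun X : ℕ => (count (fun m => P m ∧ Q m) X : ℝ) / (count P X : ℝ)) atTop
      (𝓝 0) := by
    refine squeeze_zero (fun X => by positivity) (fun X => ?_)
      (ht.const_div_atTop (N : ℝ))
    exact div_le_div_of_nonneg_right (by exact_mod_cast hb X) (by positivity)
  have := tendsto_nhds_unique h h0
  linarith

theorem disc_inf (N : ℕ) : ∃ n, N < n ∧ Disc n := by
  have h : Set.Infinite {p : ℕ | p.Prime ∧ p ≡ 1 [MOD 60]} :=
    Nat.infinite_setOfPred_prime_modEq_one (by norm_num)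
  obtain ⟨p, hp, hN⟩ := h.exists_gt N
  exact ⟨p, hN, hp.1.squarefree, Or.inl hp.2⟩

theorem eta_pos : 0 < eta := by
  have := Pool.Agent.N916.GB.eta_bounds.1
  have h : eta = Pool.Agent.N916.GB.eta := rfl
  rw [h]
  linarith

/-- independence for a large next member -/
theorem ind_snoc' (hd : ∀ t, Disc (d t)) (hi : Independent d) {D : ℕ} (hD : Disc D)
    (hlt : ∏ t, d t < D) : Independent (Fin.snoc d D : Fin (r + 1) → ℕ) := by
  have hd' : ∀ t, Dsc (d t) := fun t => (disc_iff _).1 (hd t)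
  have hD0 := pos_D hD
  intro T hT hsq
  rw [prod_snoc] at hsq
  by_cases h : Fin.last r ∈ T
  · rw [if_pos h] at hsq
    set P := ∏ i ∈ Finset.univ.filter (fun i : Fin r => i.castSucc ∈ T), d i with hP
    have hP0 : 0 < P := prod_pos' hd' _
    have h1 : sfp (P * D) = 1 := sfp_square (Nat.mul_pos hP0 hD0) hsq
    have h2 : sfp (D * D) = 1 := sfp_square (Nat.mul_pos hD0 hD0) ⟨D, rfl⟩
    rw [All.sfp_mul_left hP0 hD0] at h1
    obtain ⟨s, hs, g1, g2, g3⟩ := sfp_spec hP0
    have h3 := All.sfp_inj_mul g3 hD.1 hD0 (h1.trans h2.symm)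
    have h4 : sfp P ≤ P := by
      conv_rhs => rw [← g1]
      exact Nat.le_mul_of_pos_right _ (by positivity)
    have h5 : P ≤ ∏ t, d t := by
      refine Finset.prod_le_prod_of_subset_of_one_le' (Finset.filter_subset _ _) fun i _ _ => ?_
      exact pos_D (hd i)
    omega
  · rw [if_neg h, mul_one] at hsq
    refine hi _ ?_ hsq
    obtain ⟨j, hj⟩ := hT
    have hne : j ≠ Fin.last r := by
      rintro rfl
      exact h hj
    refine ⟨j.castPred hne, Finset.mem_filter.2 ⟨Finset.mem_univ _, ?_⟩⟩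
    rw [Fin.castSucc_castPred]
    exact hj

theorem disc_snoc (hd : ∀ t, Disc (d t)) {D : ℕ} (hD : Disc D) :
    ∀ t, Disc ((Fin.snoc d D : Fin (r + 1) → ℕ) t) := by
  intro i
  refine Fin.lastCases ?_ (fun j => ?_) i
  · rw [Fin.snoc_last]
    exact hD
  · rw [Fin.snoc_castSucc (α := fun _ => ℕ)]
    exact hd j

/-- the fixed product and a random next field -/
theorem dens_next [Nonempty ι] (hd : ∀ t, Disc (d t)) (he : ∀ i, UpToSq Twist (e i))
    (hg : Good d e) :
    HasDensity Disc (fun D => Good (Fin.snoc d D : Fin (r + 1) → ℕ) e) (eta ^ curves d e) := by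
  refine dens_congr (fun _ => Iff.rfl) (fun D hD => ?_) (dens_D hd he)
  rw [good_snoc fun t => (disc_iff _).1 (hd t)]
  exact ⟨fun h => ⟨hg, h⟩, fun h => h.2⟩

/-- the towers -/
theorem towers [Nonempty ι] (hd : ∀ t, Disc (d t)) (hi : Independent d)
    (he : ∀ i, UpToSq Twist (e i)) (hg : Good d e) :
    ∃ q : ℕ → ℕ, StrictMono q ∧ (∀ j, Disc (q j)) ∧
      ∀ k, Independent (Fin.append d fun i : Fin k => q i) ∧
        Good (Fin.append d fun i : Fin k => q i) e := by
  obtain ⟨q, hq⟩ := exists_seq (Ω := fun k f => (∀ i j, i < j → f i < f j) ∧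
    (∀ t, Disc (Fin.append d f t)) ∧ Independent (Fin.append d f) ∧ Good (Fin.append d f) e) (by
      have e0 : Fin.append d (Fin.elim0 : Fin 0 → ℕ) = d := by
        funext i
        exact Fin.append_left d _ i
      refine ⟨fun i => i.elim0, ?_, ?_, ?_⟩
      · rw [e0]
        exact hd
      · rw [e0]
        exact hi
      · rw [e0]
        exact hg) (by
      rintro k f ⟨h1, h2, h3, h4⟩
      obtain ⟨D, hD, hD1, hD2⟩ := exists_gt (pow_pos eta_pos _) (dens_next h2 he h4) disc_inf
        (∏ t, Fin.append d f t + ∑ i, f i)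
      have hlt : ∏ t, Fin.append d f t < D := by omega
      refine ⟨D, fun i j hij => ?_, ?_, ?_, ?_⟩
      · revert hij
        refine Fin.lastCases (fun hij => ?_) (fun j => ?_) j
        · have hi' : i ≠ Fin.last k := hij.ne
          obtain ⟨i', rfl⟩ : ∃ i' : Fin k, i = i'.castSucc := ⟨i.castPred hi', by
            rw [Fin.castSucc_castPred]⟩
          rw [Fin.snoc_last, Fin.snoc_castSucc (α := fun _ => ℕ)]
          have := Finset.single_le_sum (f := f) (fun _ _ => Nat.zero_le _) (Finset.mem_univ i')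
          omega
        · intro hij
          have hi' : i ≠ Fin.last k := (hij.trans (Fin.castSucc_lt_last j)).ne
          obtain ⟨i', rfl⟩ : ∃ i' : Fin k, i = i'.castSucc := ⟨i.castPred hi', by
            rw [Fin.castSucc_castPred]⟩
          rw [Fin.snoc_castSucc (α := fun _ => ℕ), Fin.snoc_castSucc (α := fun _ => ℕ)]
          exact h1 i' j (Fin.castSucc_lt_castSucc_iff.1 hij)
      · rw [append_snoc']
        exact disc_snoc h2 hD1
      · rw [append_snoc']
        exact ind_snoc' h2 h3 hD1 hlt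
      · rw [append_snoc']
        exact hD2)
  refine ⟨q, fun a b hab => ?_, fun j => ?_, fun k => ⟨(hq k).2.2.1, (hq k).2.2.2⟩⟩
  · have := (hq (b + 1)).1 ⟨a, by omega⟩ ⟨b, by omega⟩ hab
    exact this
  · have := (hq (j + 1)).2.1 (Fin.natAdd r ⟨j, by omega⟩)
    rw [Fin.append_right] at this
    exact this

/-- the number of the curves if they are all different -/
theorem curves_all (hpos : ∀ i, 0 < e i) (hd : ∀ t, Disc (d t))
    (h : ∀ i j, ∀ T : Finset (Fin r), IsSquare (e i * e j * ∏ t ∈ T, d t) → i = j ∧ T = ∅) :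
    curves d e = Fintype.card ι * 2 ^ r := by
  classical
  have hd' : ∀ t, Dsc (d t) := fun t => (disc_iff _).1 (hd t)
  rw [curves_eq hpos hd']
  unfold Cs
  rw [Finset.card_image_of_injective, Finset.card_univ, Fintype.card_prod, Fintype.card_finset,
    Fintype.card_fin]
  rintro ⟨i, S⟩ ⟨j, T⟩ hij
  have hij' : sfp (e i * ∏ t ∈ S, d t) = sfp (e j * ∏ t ∈ T, d t) := hij
  obtain ⟨a, ha, a1, a2, a3⟩ := sfp_spec (Nat.mul_pos (hpos i) (prod_pos' hd' S))
  obtain ⟨b, hb, b1, b2, b3⟩ := sfp_spec (Nat.mul_pos (hpos j) (prod_pos' hd' T))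
  have e1 : (∏ t ∈ S, d t) * (∏ t ∈ T, d t) =
      (∏ t ∈ symmDiff S T, d t) * (∏ t ∈ S ∩ T, d t) ^ 2 := by
    have s1 : ∏ t ∈ S, d t = (∏ t ∈ S \ T, d t) * ∏ t ∈ S ∩ T, d t := by
      rw [← Finset.prod_union (Finset.disjoint_sdiff_inter S T), Finset.sdiff_union_inter]
    have s2 : ∏ t ∈ T, d t = (∏ t ∈ T \ S, d t) * ∏ t ∈ S ∩ T, d t := by
      rw [Finset.inter_comm, ← Finset.prod_union (Finset.disjoint_sdiff_inter T S),
        Finset.sdiff_union_inter]
    have s3 : ∏ t ∈ symmDiff S T, d t = (∏ t ∈ S \ T, d t) * ∏ t ∈ T \ S, d t := by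
      rw [← Finset.prod_union disjoint_sdiff_sdiff]
      rfl
    rw [s1, s2, s3]
    ring
  have hI : 0 < ∏ t ∈ S ∩ T, d t := prod_pos' hd' _
  have h2 : IsSquare (e i * e j * ∏ t ∈ symmDiff S T, d t) := by
    have h3 : (e i * e j * ∏ t ∈ symmDiff S T, d t) * (∏ t ∈ S ∩ T, d t) ^ 2 =
        (sfp (e i * ∏ t ∈ S, d t) * a * b) ^ 2 := by
      calc (e i * e j * ∏ t ∈ symmDiff S T, d t) * (∏ t ∈ S ∩ T, d t) ^ 2
          = e i * e j * ((∏ t ∈ symmDiff S T, d t) * (∏ t ∈ S ∩ T, d t) ^ 2) := by ring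
        _ = (e i * ∏ t ∈ S, d t) * (e j * ∏ t ∈ T, d t) := by rw [← e1]; ring
        _ = (sfp (e i * ∏ t ∈ S, d t) * a ^ 2) * (sfp (e j * ∏ t ∈ T, d t) * b ^ 2) := by
          rw [a1, b1]
        _ = _ := by rw [← hij']; ring
    have h4 : (∏ t ∈ S ∩ T, d t) ^ 2 ∣ (sfp (e i * ∏ t ∈ S, d t) * a * b) ^ 2 :=
      ⟨_, h3.symm.trans (mul_comm _ _)⟩
    obtain ⟨c, hc⟩ := (Nat.pow_dvd_pow_iff (by norm_num)).1 h4
    refine ⟨c, ?_⟩
    refine Nat.eq_of_mul_eq_mul_right (pow_pos hI 2) ?_
    rw [h3, hc]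
    ring
  obtain ⟨h5, h6⟩ := h i j _ h2
  rw [h5, symmDiff_eq_bot.1 (show symmDiff S T = ⊥ from h6)]

end

/-- **The rank conjecture for products of twists of `X_0(15)` over totally real multiquadratic fields:
exact natural densities.** -/
theorem main {ι : Type} [Fintype ι] [Nonempty ι] {r : ℕ} {d : Fin r → ℕ} (hd : ∀ t, Disc (d t)) :
    -- the rank conjecture for good products
    (∀ e : ι → ℕ, (∀ i, UpToSq Twist (e i)) → Independent d → Good d e →
      ∀ (K : Type) [Field K] [NumberField K], IsMultiquadratic d K →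
        Module.finrank ℚ K = 2 ^ r ∧ BSDZero K e (∏ t, (d t : ℤ)) r) ∧
    -- fixed field, fixed product, random quadratic twist
    (∀ e : ι → ℕ, (∀ i, UpToSq Twist (e i)) →
      HasDensity Disc (fun D => Good d (twist e D)) (eta ^ curves d e)) ∧
    (∀ e : ι → ℕ, (∀ i, UpToSq Disc (e i)) →
      HasDensity Twist (fun n => Good d (twist e n)) (eta ^ curves d e)) ∧
    -- fixed product, random quadratic extension of the field
    (∀ e : ι → ℕ, (∀ i, UpToSq Twist (e i)) → Good d e →
      HasDensity Disc (fun D => Good (Fin.snoc d D : Fin (r + 1) → ℕ) e) (eta ^ curves d e)) ∧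
    -- infinite towers
    (∀ e : ι → ℕ, (∀ i, UpToSq Twist (e i)) → Independent d → Good d e →
      ∃ q : ℕ → ℕ, StrictMono q ∧ (∀ j, Disc (q j)) ∧
        ∀ k, Independent (Fin.append d fun i : Fin k => q i) ∧
          Good (Fin.append d fun i : Fin k => q i) e) ∧
    -- the exponent
    (∀ e : ι → ℕ, (∀ i, 0 < e i) →
      (∀ i j, ∀ T : Finset (Fin r), IsSquare (e i * e j * ∏ t ∈ T, d t) → i = j ∧ T = ∅) →
        curves d e = Fintype.card ι * 2 ^ r) ∧
    0.2887 < eta ∧ eta < 0.2889 := by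
  refine ⟨fun e he hi hg K _ _ hK => bsd hd hi he hg K hK, fun e he => dens_D hd he,
    fun e he => dens_n hd he, fun e he hg => dens_next hd he hg,
    fun e he hi hg => towers hd hi he hg, fun e hpos h => curves_all hpos hd h, ?_, ?_⟩
  · exact Pool.Agent.N916.GB.eta_bounds.1
  · exact Pool.Agent.N916.GB.eta_bounds.2

end Pool.Agent.N856.JL.Av
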