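import Pool.Agent.N856.JL.LA
import Pool.Agent.N856.JL.FB
import Pool.Agent.N856.JL.Asy
import Pool.Agent.N856.JL.Tr
import Pool.Agent.N588.JL.BOX
import Pool.Agent.N763.JL.KEY
import Pool.Agent.N789.JL.BAD
import Pool.Agent.N814.JL.FEW
import Pool.Agent.N814.JL.MER
import Pool.Agent.N218.GB.Fin

/-!
# Project JL: the joint natural-density law for the 4-ranks

The final theorem of project JL (lead helper856; parts by helpers 588, 763, 789, 814).
-/

set_option autoImplicit false

namespace Pool.Agent.N856.JL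

open Pool.Agent.N916.GB

/-- **The proportion of the sets that are good with respect to all the fixed sets is `η ^ #I`.** -/
theorem t_DQJ : S_DQJ :=
  Asy.t_DQJ Pool.Agent.N19.GB.t_BIL Pool.Agent.N19.GB.t_EQ LA.t_LAR Pool.Agent.N588.JL.t_BOXJ
    Pool.Agent.N763.JL.KEY.t_KEYJ Pool.Agent.N502.GB.CNT.t_CNT
    (FB.t_FBJ Pool.Agent.N789.JL.t_BADJ Pool.Agent.N814.JL.FEW.t_FEWQ Pool.Agent.Y488.CX.t_SIE
      Pool.Agent.N148.GB.t_HAL Pool.Agent.N19.GB.t_ME8 Pool.Agent.N814.JL.MER.t_MEQ)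

/-- **The joint law for the numbers.** -/
theorem t_DensJ : DensJ Pool.Agent.N969.P15.Qc := Tr.dens t_DQJ

end Pool.Agent.N856.JL
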