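import Pool.Agent.N856.JL.Stm
import Pool.Agent.N856.JA.Fin
import Pool.Agent.N916.GB.Num

/-!
# JL-LA: the joint law for the Rédei systems

The system with constant solutions is reduced to the system of project QJ by dropping one large prime
`3` modulo `4` (its equation is the sum of the others).
-/

set_option autoImplicit false
set_option linter.unusedVariables false
set_option linter.unusedSectionVars false

open scoped Classical

namespace Pool.Agent.N856.JL.LA

open Finset
open Pool.Agent.N856.JL
open Pool.Agent.N856.JA.QK (prs ext c2)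
open Pool.Agent.N856.JA.QJ (La GdB Hyp LAEJ S_LAJ)

theorem z2_self (x : ZMod 2) : x + x = 0 := CharTwo.add_self_eq_zero x

theorem z2 (x : ZMod 2) : x = 0 ∨ x = 1 := by
  revert x
  decide

section split

variable {J : Type} [Fintype J] [LinearOrder J]

theorem mp {k l : J} (h : k < l) : (k, l) ∈ prs J := mem_filter.2 ⟨mem_univ _, h⟩

theorem pm {e : J × J} (h : e ∈ prs J) : e.1 < e.2 := (mem_filter.1 h).2

/-- the restriction of the symbols -/
noncomputable def res (j0 : J) (α : prs J → ZMod 2) : prs {k : J // k ≠ j0} → ZMod 2 := fun e =>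
  α ⟨(e.1.1.1, e.1.2.1), mp (pm e.2)⟩

/-- the symbols at `j0` -/
noncomputable def col (t : J → ZMod 2) (j0 : J) (α : prs J → ZMod 2) :
    {k : J // k ≠ j0} → ZMod 2 := fun k => ext t α k j0

/-- the completion -/
noncomputable def glue (t : J → ZMod 2) (j0 : J) (β : prs {k : J // k ≠ j0} → ZMod 2)
    (s : {k : J // k ≠ j0} → ZMod 2) : prs J → ZMod 2 := fun e =>
  if h : e.1.1 = j0 then s ⟨e.1.2, fun h' => by
    have := pm e.2
    rw [h, h'] at this
    exact lt_irrefl _ this⟩
  else if h' : e.1.2 = j0 then s ⟨e.1.1, h⟩ + t e.1.1 * t j0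
  else β ⟨(⟨e.1.1, h⟩, ⟨e.1.2, h'⟩), mp (pm e.2)⟩

theorem ext_lt (t : J → ZMod 2) (α : prs J → ZMod 2) {k l : J} (h : l < k) :
    ext t α k l = α ⟨(l, k), mp h⟩ := by
  unfold JA.QK.ext
  rw [dif_pos (mp h)]

theorem ext_gt (t : J → ZMod 2) (α : prs J → ZMod 2) {k l : J} (h : k < l) :
    ext t α k l = α ⟨(k, l), mp h⟩ + t k * t l := by
  unfold JA.QK.ext
  rw [dif_neg (fun h' => lt_asymm h (pm h')), dif_pos (mp h)]

theorem ext_self (t : J → ZMod 2) (α : prs J → ZMod 2) (k : J) : ext t α k k = 0 := by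
  unfold JA.QK.ext
  rw [dif_neg (fun h' => lt_irrefl k (pm h')),
    dif_neg (fun h' => lt_irrefl k (pm h'))]

theorem ext_add (t : J → ZMod 2) (α : prs J → ZMod 2) {k l : J} (h : k ≠ l) :
    ext t α k l + ext t α l k = t k * t l := by
  rcases lt_or_gt_of_ne h with h | h
  · rw [ext_gt t α h, ext_lt t α h]
    have := z2_self (α ⟨(k, l), mp h⟩)
    linear_combination this
  · rw [ext_lt t α h, ext_gt t α h]
    have := z2_self (α ⟨(l, k), mp h⟩)
    linear_combination this

/-- the splitting of the completions -/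
noncomputable def spl (t : J → ZMod 2) (j0 : J) :
    (prs J → ZMod 2) ≃ (prs {k : J // k ≠ j0} → ZMod 2) × ({k : J // k ≠ j0} → ZMod 2) where
  toFun α := (res j0 α, col t j0 α)
  invFun q := glue t j0 q.1 q.2
  left_inv α := by
    funext e
    obtain ⟨⟨k, l⟩, he⟩ := e
    have hkl : k < l := pm he
    show glue t j0 (res j0 α) (col t j0 α) ⟨(k, l), he⟩ = α ⟨(k, l), he⟩
    unfold glue
    by_cases h : k = j0
    · rw [dif_pos h]
      subst h
      show ext t α l k = _
      rw [ext_lt t α hkl]
    · rw [dif_neg h]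
      by_cases h' : l = j0
      · rw [dif_pos h']
        subst h'
        show ext t α k l + t k * t l = _
        rw [ext_gt t α hkl]
        have := z2_self (t k * t l)
        linear_combination this
      · rw [dif_neg h']
        rfl
  right_inv q := by
    obtain ⟨β, s⟩ := q
    refine Prod.ext ?_ ?_
    · funext e
      obtain ⟨⟨⟨k, hk⟩, ⟨l, hl⟩⟩, he⟩ := e
      show glue t j0 β s ⟨(k, l), _⟩ = β ⟨(⟨k, hk⟩, ⟨l, hl⟩), he⟩
      unfold glue
      rw [dif_neg hk, dif_neg hl]
    · funext k
      obtain ⟨k, hk⟩ := k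
      show ext t (glue t j0 β s) k j0 = s ⟨k, hk⟩
      rcases lt_or_gt_of_ne hk with h | h
      · rw [ext_gt t _ h]
        unfold glue
        rw [dif_neg hk, dif_pos rfl]
        have := z2_self (t k * t j0)
        linear_combination this
      · rw [ext_lt t _ h]
        unfold glue
        rw [dif_pos rfl]

theorem ext_res (t : J → ZMod 2) (j0 : J) (α : prs J → ZMod 2) (k l : {k : J // k ≠ j0}) :
    ext (fun k : {k : J // k ≠ j0} => t k) (res j0 α) k l = ext t α k l := by
  rcases lt_trichotomy (k : J) (l : J) with h | h | h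
  · rw [ext_gt t α h, ext_gt _ _ (show k < l from h)]
    rfl
  · have : k = l := Subtype.ext h
    subst this
    rw [ext_self, ext_self]
  · rw [ext_lt t α h, ext_lt _ _ (show l < k from h)]
    rfl

end split

/-! ### The reduction of a system -/

section red

variable {U J : Type} [Fintype U] [Fintype J] [LinearOrder J]

/-- a sum over all indices -/
theorem sum_split (j0 : J) (f : J → ZMod 2) :
    ∑ l, f l = f j0 + ∑ l : {k : J // k ≠ j0}, f l := by
  rw [Fintype.sum_eq_add_sum_subtype_ne f j0]

/-- the sum of the equations of one block -/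
theorem quad {ι : Type} (s : Finset ι) (R : ι → ι → ZMod 2) (t x : ι → ZMod 2)
    (hR : ∀ i ∈ s, ∀ j ∈ s, i ≠ j → R i j + R j i = t i * t j) :
    ∑ i ∈ s, ∑ j ∈ s, R i j * (x i + x j) = ∑ i ∈ s, x i * t i * (∑ j ∈ s, t j + t i) := by
  have h1 : ∑ i ∈ s, ∑ j ∈ s, R i j * (x i + x j) =
      ∑ i ∈ s, ∑ j ∈ s, (R i j + R j i) * x i := by
    have e1 : ∑ i ∈ s, ∑ j ∈ s, R i j * (x i + x j) =
        ∑ i ∈ s, ∑ j ∈ s, R i j * x i + ∑ i ∈ s, ∑ j ∈ s, R i j * x j := by
      rw [← sum_add_distrib]
      refine sum_congr rfl fun i _ => ?_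
      rw [← sum_add_distrib]
      refine sum_congr rfl fun j _ => ?_
      ring
    rw [e1, sum_comm (f := fun i j => R i j * x j), ← sum_add_distrib]
    refine sum_congr rfl fun i _ => ?_
    rw [← sum_add_distrib]
    refine sum_congr rfl fun j _ => ?_
    ring
  rw [h1]
  refine sum_congr rfl fun i hi => ?_
  rw [← sum_mul]
  have h2 : ∑ j ∈ s, (R i j + R j i) = t i * (∑ j ∈ s, t j + t i) := by
    have e1 : ∀ j ∈ s, R i j + R j i = t i * t j + (if j = i then t i else 0) := by
      intro j hj
      by_cases h : j = i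
      · subst h
        rw [if_pos rfl, z2_self]
        rcases z2 (t j) with h | h <;> rw [h] <;> decide
      · rw [if_neg h, add_zero, hR i hi j hj fun h' => h h'.symm]
    rw [sum_congr rfl e1, sum_add_distrib, ← mul_sum, sum_ite_eq' s i, if_pos hi]
    rcases z2 (t i) with h | h <;> rw [h] <;> ring
  rw [h2]
  ring

/-- the sum of all the equations is zero -/
theorem tot (W : Finset U) (tU : U → ZMod 2) (tJ : J → ZMod 2) (A : U → U → ZMod 2)
    (B : U → J → ZMod 2) (R : J → J → ZMod 2) (hA : ∀ u v, u ≠ v → A u v + A v u = tU u * tU v)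
    (hR : ∀ k l, k ≠ l → R k l + R l k = tJ k * tJ l)
    (hpar : ∑ u ∈ W, tU u + ∑ j, tJ j = 1) (c : U → ZMod 2) (d : J → ZMod 2) :
    ∑ u ∈ W, (∑ v ∈ W, A u v * (c u + c v) + ∑ l, B u l * (c u + d l)) +
    ∑ k, (∑ u ∈ W, (B u k + tU u * tJ k) * (d k + c u) + ∑ l, R k l * (d k + d l)) = 0 := by
  rw [sum_add_distrib, sum_add_distrib, quad W A tU c fun i _ j _ h => hA i j h,
    quad univ R tJ d fun i _ j _ h => hR i j h]
  have h1 : ∑ u ∈ W, ∑ l, B u l * (c u + d l) + ∑ k, ∑ u ∈ W, (B u k + tU u * tJ k) * (d k + c u) =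
      ∑ u ∈ W, c u * tU u * (∑ j, tJ j) + ∑ k, d k * tJ k * (∑ u ∈ W, tU u) := by
    rw [sum_comm (s := univ) (t := W), ← sum_add_distrib]
    have e2 : ∑ k, d k * tJ k * (∑ u ∈ W, tU u) = ∑ u ∈ W, ∑ k, d k * tJ k * tU u := by
      rw [sum_comm]
      refine sum_congr rfl fun k _ => ?_
      rw [mul_sum]
    rw [e2, ← sum_add_distrib]
    refine sum_congr rfl fun u _ => ?_
    rw [mul_sum, ← sum_add_distrib, ← sum_add_distrib]
    refine sum_congr rfl fun k _ => ?_
    have := z2_self (B u k * (c u + d k))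
    linear_combination this
  have h2 : ∀ x t T : ZMod 2, x * t * (T + t) + x * t * (1 + T) = 0 := by decide
  have h3 : ∑ j, tJ j = 1 + ∑ u ∈ W, tU u := by
    have := z2_self (∑ u ∈ W, tU u)
    linear_combination hpar - this
  have h4 : ∑ u ∈ W, tU u = 1 + ∑ j, tJ j := by
    have := z2_self (∑ j, tJ j)
    linear_combination hpar - this
  have h5 : ∑ i ∈ W, c i * tU i * (∑ j ∈ W, tU j + tU i) +
      ∑ u ∈ W, c u * tU u * (∑ j, tJ j) = 0 := by
    rw [← sum_add_distrib]
    refine sum_eq_zero fun u _ => ?_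
    rw [h3]
    exact h2 _ _ _
  have h6 : ∑ i, d i * tJ i * (∑ j, tJ j + tJ i) +
      ∑ k, d k * tJ k * (∑ u ∈ W, tU u) = 0 := by
    rw [← sum_add_distrib]
    refine sum_eq_zero fun u _ => ?_
    rw [h4]
    exact h2 _ _ _
  linear_combination h1 + h5 + h6

/-- the reduction of a system -/
theorem red (W : Finset U) (tU : U → ZMod 2) (tJ : J → ZMod 2) (A : U → U → ZMod 2)
    (B : U → J → ZMod 2) (R : J → J → ZMod 2) (hA : ∀ u v, u ≠ v → A u v + A v u = tU u * tU v)
    (hR : ∀ k l, k ≠ l → R k l + R l k = tJ k * tJ l) (hR0 : ∀ k, R k k = 0)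
    (hpar : ∑ u ∈ W, tU u + ∑ j, tJ j = 1) (j0 : J) :
    GdR W tU tJ A B R ↔ GdB W (fun u => B u j0) tU (fun k : {k : J // k ≠ j0} => R k j0)
      (fun k : {k : J // k ≠ j0} => tJ k) A (fun u (k : {k : J // k ≠ j0}) => B u k)
      (fun k l : {k : J // k ≠ j0} => R k l) := by
  unfold GdR GdB
  constructor
  · intro h c d' h0 h1 h2
    set d : J → ZMod 2 := fun k => if hk : k = j0 then 0 else d' ⟨k, hk⟩ with hd
    have hd0 : d j0 = 0 := by
      rw [hd]
      exact dif_pos rfl
    have hd1 : ∀ k : {k : J // k ≠ j0}, d k = d' k := by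
      intro k
      rw [hd]
      exact dif_neg k.2
    have g1 : ∀ u ∈ W, ∑ v ∈ W, A u v * (c u + c v) + ∑ l, B u l * (c u + d l) = 0 := by
      intro u hu
      have h3 := h1 u hu
      simp only at h3
      rw [sum_split j0 fun l => B u l * (c u + d l), hd0]
      simp only [hd1]
      linear_combination h3
    have g2 : ∀ k : J, k ≠ j0 →
        ∑ u ∈ W, (B u k + tU u * tJ k) * (d k + c u) + ∑ l, R k l * (d k + d l) = 0 := by
      intro k hk
      have h3 := h2 ⟨k, hk⟩
      have e1 := hd1 ⟨k, hk⟩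
      simp only at e1 h3
      rw [sum_split j0 fun l => R k l * (d k + d l), hd0]
      simp only [hd1]
      rw [e1]
      linear_combination h3
    have g3 : ∑ u ∈ W, (B u j0 + tU u * tJ j0) * (d j0 + c u) + ∑ l, R j0 l * (d j0 + d l) = 0 := by
      have h3 := tot W tU tJ A B R hA hR hpar c d
      rw [sum_eq_zero g1, zero_add, sum_split j0] at h3
      rw [sum_eq_zero fun (k : {k : J // k ≠ j0}) _ => g2 (k : J) k.2, add_zero] at h3
      exact h3
    obtain ⟨k1, k2⟩ := h c d g1 fun k => by
      by_cases hk : k = j0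
      · rw [hk]
        exact g3
      · exact g2 k hk
    refine ⟨fun u => ?_, fun l => ?_⟩
    · by_cases hu : u ∈ W
      · rw [k1 u hu j0, hd0]
      · exact h0 u hu
    · rw [← hd1, k2 _ j0, hd0]
  · intro h c d h1 h2
    obtain ⟨k1, k2⟩ := h (fun u => if u ∈ W then c u + d j0 else 0) (fun k => d k + d j0)
      (fun u hu => if_neg hu) (by
        intro u hu
        have h3 := h1 u hu
        rw [sum_split j0 fun l => B u l * (c u + d l)] at h3
        rw [if_pos hu]
        have e1 : ∀ v ∈ W, A u v * (c u + d j0 + if v ∈ W then c v + d j0 else 0) =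
            A u v * (c u + c v) := by
          intro v hv
          rw [if_pos hv]
          have := z2_self (A u v * d j0)
          linear_combination this
        have e2 : ∀ l : {k : J // k ≠ j0}, B u l * (c u + d j0 + (d l + d j0)) =
            B u l * (c u + d l) := by
          intro l
          have := z2_self (B u l * d j0)
          linear_combination this
        simp only
        rw [sum_congr rfl e1, sum_congr rfl fun l _ => e2 l]
        linear_combination h3) (by
        intro k
        have h3 := h2 k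
        rw [sum_split j0 fun l => R k l * (d k + d l)] at h3
        have e1 : ∀ u ∈ W, (B u k + tU u * tJ k) * (d k + d j0 + if u ∈ W then c u + d j0 else 0) =
            (B u k + tU u * tJ k) * (d k + c u) := by
          intro v hv
          rw [if_pos hv]
          have := z2_self ((B v k + tU v * tJ k) * d j0)
          linear_combination this
        have e2 : ∀ l : {k : J // k ≠ j0}, R k l * (d k + d j0 + (d l + d j0)) =
            R k l * (d k + d l) := by
          intro l
          have := z2_self (R k l * d j0)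
          linear_combination this
        simp only
        rw [sum_congr rfl e1, sum_congr rfl fun l _ => e2 l]
        linear_combination h3)
    have k3 : ∀ k, d k = d j0 := by
      intro k
      by_cases hk : k = j0
      · rw [hk]
      · have := k2 ⟨k, hk⟩
        simp only at this
        have h4 := z2_self (d j0)
        linear_combination this - h4
    refine ⟨fun u hu l => ?_, fun k l => by rw [k3 k, k3 l]⟩
    have := k1 u
    rw [if_pos hu] at this
    have h4 := z2_self (d j0)
    rw [k3 l]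
    linear_combination this - h4

end red

/-! ### The hypotheses -/

section hyp

variable {U J : Type} [Fintype U] [Fintype J] [LinearOrder J]

theorem card_drop (j0 : J) (P : J → Prop) [DecidablePred P]
    [DecidablePred fun k : {k : J // k ≠ j0} => P k] :
    (univ.filter P).card ≤ (univ.filter fun k : {k : J // k ≠ j0} => P k).card + 1 := by
  have h1 : univ.filter P ⊆ insert j0 ((univ.filter fun k : {k : J // k ≠ j0} => P k).image
      Subtype.val) := by
    intro k hk
    by_cases h : k = j0
    · rw [h]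
      exact mem_insert_self _ _
    · refine mem_insert_of_mem (mem_image.2 ⟨⟨k, h⟩, mem_filter.2 ⟨mem_univ _, ?_⟩, rfl⟩)
      exact (mem_filter.1 hk).2
  calc _ ≤ _ := card_le_card h1
    _ ≤ _ := card_insert_le _ _
    _ ≤ _ := Nat.add_le_add_right card_image_le 1

theorem hyp_of {I : Type} {K V K0 V0 : ℕ} {W : I → Finset U} {tU : U → ZMod 2} {tJ : J → ZMod 2}
    {A : U → U → ZMod 2} {B : U → J → ZMod 2} (h : HypR K V W tU tJ A B) (hK : K0 ≤ K)
    (hV : V0 + 1 ≤ V) {j0 : J} (hj : tJ j0 = 1) (s : {k : J // k ≠ j0} → ZMod 2)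
    (h1 : ∀ w : U → ZMod 2, s ≠ fun k => ∑ u, w u * (B u k.1 + tU u * tJ k.1))
    (h2 : ∀ w : U → ZMod 2, s ≠ fun k => tJ k.1 + ∑ u, w u * B u k.1) :
    Hyp K0 V0 W (fun u => B u j0) tU s (fun k => tJ k) A (fun u k => B u k) where
  many i j := by
    have e1 := h.many i j
    have e2 := card_drop j0 fun k => La tU tJ B (W i) k + La tU tJ B (W j) k + tJ k = 1
    have e3 : K0 * Fintype.card U ≤ K * Fintype.card U := Nat.mul_le_mul_right _ hK
    have e4 : K0 * Fintype.card U + V0 ≤ (univ.filter fun k : {k : J // k ≠ j0} =>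
      La tU tJ B (W i) k + La tU tJ B (W j) k + tJ k = 1).card := by omega
    exact e4
  diff i j hij := by
    have e1 := h.diff i j hij
    have e2 := card_drop j0 fun k => La tU tJ B (W i) k + La tU tJ B (W j) k = 1
    have e3 : K0 * Fintype.card U ≤ K * Fintype.card U := Nat.mul_le_mul_right _ hK
    have e4 : K0 * Fintype.card U + V0 ≤ (univ.filter fun k : {k : J // k ≠ j0} =>
      La tU tJ B (W i) k + La tU tJ B (W j) k = 1).card := by omega
    exact e4
  par i := by
    have e1 := h.par i
    rw [sum_split j0, hj] at e1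
    linear_combination e1
  recip := h.recip
  nd w e hwe := by
    rcases z2 e with he | he
    · have hw : ∃ u, w u ≠ 0 := hwe.resolve_right fun h' => h' he
      obtain ⟨k, hk1, hk2⟩ := h.nd w hw
      have hk : k ≠ j0 := by
        intro h'
        rw [h', hj] at hk1
        exact one_ne_zero hk1
      refine ⟨⟨⟨k, hk⟩, ?_⟩, ⟨⟨k, hk⟩, ?_⟩⟩
      · simp only [he, hk1, zero_mul, zero_add, mul_zero, add_zero]
        exact hk2
      · simp only [he, zero_mul, zero_add]
        exact hk2
    · rw [he]
      refine ⟨?_, ?_⟩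
      · by_contra h'
        push Not at h'
        refine h1 w (funext fun k => ?_)
        have := h' k
        have h3 := z2_self (∑ u, w u * (B u k + tU u * tJ k))
        linear_combination this - h3
      · by_contra h'
        push Not at h'
        refine h2 w (funext fun k => ?_)
        have := h' k
        have h3 := z2_self (tJ k + ∑ u, w u * B u k)
        linear_combination this - h3

end hyp

theorem c2_mem : 0 ≤ c2 ∧ c2 ≤ 1 := by
  have h := Pool.Agent.N916.GB.eta_bounds
  have e : c2 = Pool.Agent.N916.GB.eta := rfl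
  rw [e]
  constructor <;> linarith [h.1, h.2]

theorem t_LAR_aux (I : Type) [Fintype I] [Nonempty I] (ε : ℝ) (hε : 0 < ε) (K0 V0 M : ℕ)
    (hM : (1 / 2 : ℝ) ^ M ≤ ε / 2) (h0 : LAEJ I (ε / 2) K0 V0) :
    LARJ I ε (K0 + 1) (V0 + M + 2) := by
  intro U J _ _ _ W tU tJ A B h
  obtain ⟨i0⟩ := ‹Nonempty I›
  have hm := h.many i0 i0
  have hJ1 : (K0 + 1) * Fintype.card U + (V0 + M + 2) ≤ Fintype.card J :=
    hm.trans (card_le_univ _)
  obtain ⟨j0, hj0⟩ : ∃ j0, tJ j0 = 1 := by
    have : 0 < (univ.filter fun k => La tU tJ B (W i0) k + La tU tJ B (W i0) k + tJ k = 1).card := by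
      omega
    obtain ⟨k, hk⟩ := card_pos.1 this
    refine ⟨k, ?_⟩
    have := (mem_filter.1 hk).2
    rw [z2_self, zero_add] at this
    exact this
  set J' := {k : J // k ≠ j0} with hJ'
  have hcJ : Fintype.card J' + 1 = Fintype.card J := by
    have h1 := Fintype.sum_eq_add_sum_subtype_ne (fun _ : J => 1) j0
    have h2 : ∑ _k : J', 1 = Fintype.card J' := by rw [sum_const, card_univ, smul_eq_mul, mul_one]
    have h3 : ∑ _k : J, 1 = Fintype.card J := by rw [sum_const, card_univ, smul_eq_mul, mul_one]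
    have h4 : ∑ _k : {k : J // k ≠ j0}, 1 = ∑ _k : J', 1 := by
      refine Fintype.sum_equiv (Equiv.refl _) _ _ fun _ => rfl
    omega
  set F : (prs J' → ZMod 2) → (J' → ZMod 2) → Prop := fun β s => ∀ i,
    GdB (W i) (fun u => B u j0) tU s (fun k : J' => tJ k) A (fun u (k : J') => B u k)
      (ext (fun k : J' => tJ k) β) with hF
  have e0 : ∀ α : prs J → ZMod 2, (∀ i, GdR (W i) tU tJ A B (ext tJ α)) ↔
      F (spl tJ j0 α).1 (spl tJ j0 α).2 := by
    intro α
    refine forall_congr' fun i => ?_
    rw [red (W i) tU tJ A B (ext tJ α) h.recip (fun k l hkl => ext_add tJ α hkl)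
      (fun k => ext_self tJ α k) (h.par i) j0]
    have e1 : (fun k l : J' => ext tJ α k l) = ext (fun k : J' => tJ k) (res j0 α) := by
      funext k l
      exact (ext_res tJ j0 α k l).symm
    rw [e1]
    rfl
  have e1 : (univ.filter fun α : prs J → ZMod 2 => ∀ i, GdR (W i) tU tJ A B (ext tJ α)).card =
      ∑ s : J' → ZMod 2, (univ.filter fun β => F β s).card := by
    have e2 : (univ.filter fun α : prs J → ZMod 2 => ∀ i, GdR (W i) tU tJ A B (ext tJ α)).card =
        (univ.filter fun q : (prs J' → ZMod 2) × (J' → ZMod 2) => F q.1 q.2).card := by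
      refine card_bij' (fun α _ => spl tJ j0 α) (fun q _ => (spl tJ j0).symm q) ?_ ?_ ?_ ?_
      · intro α hα
        exact mem_filter.2 ⟨mem_univ _, (e0 α).1 (mem_filter.1 hα).2⟩
      · intro q hq
        refine mem_filter.2 ⟨mem_univ _, (e0 _).2 ?_⟩
        rw [Equiv.apply_symm_apply]
        exact (mem_filter.1 hq).2
      · intro α _
        exact Equiv.symm_apply_apply _ _
      · intro q _
        exact Equiv.apply_symm_apply _ _
    rw [e2, card_filter, Fintype.sum_prod_type_right]
    refine sum_congr rfl fun s _ => ?_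
    rw [card_filter]
  have e3 : (2 : ℝ) ^ (prs J).card = 2 ^ (prs J').card * 2 ^ Fintype.card J' := by
    have := Fintype.card_congr (spl tJ j0)
    rw [Fintype.card_prod, Fintype.card_fun, Fintype.card_fun, Fintype.card_fun, ZMod.card,
      Fintype.card_coe, Fintype.card_coe] at this
    exact_mod_cast this
  set P : ℝ := 2 ^ (prs J').card with hP
  have hP0 : 0 < P := by positivity
  set Q : ℝ := 2 ^ Fintype.card J' with hQ
  have hQ0 : 0 < Q := by positivity
  set bad : Finset (J' → ZMod 2) := univ.image (fun w : U → ZMod 2 => fun k : J' =>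
    ∑ u, w u * (B u k.1 + tU u * tJ k.1)) ∪ univ.image (fun w : U → ZMod 2 => fun k : J' =>
    tJ k.1 + ∑ u, w u * B u k.1) with hbad
  have hb : (bad.card : ℝ) ≤ 2 * 2 ^ Fintype.card U := by
    have h1 : bad.card ≤ Fintype.card (U → ZMod 2) + Fintype.card (U → ZMod 2) :=
      (card_union_le _ _).trans (Nat.add_le_add (card_image_le.trans card_univ.le)
        (card_image_le.trans card_univ.le))
    rw [Fintype.card_fun, ZMod.card] at h1
    have h2 : ((bad.card : ℕ) : ℝ) ≤ ((2 ^ Fintype.card U + 2 ^ Fintype.card U : ℕ) : ℝ) := by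
      exact_mod_cast h1
    push_cast at h2
    linarith
  have hck : 0 ≤ c2 ^ Fintype.card I ∧ c2 ^ Fintype.card I ≤ 1 :=
    ⟨pow_nonneg c2_mem.1 _, pow_le_one₀ c2_mem.1 c2_mem.2⟩
  have hgood : ∀ s : J' → ZMod 2, s ∉ bad →
      |((univ.filter fun β => F β s).card : ℝ) - P * c2 ^ Fintype.card I| ≤ ε / 2 * P := by
    intro s hs
    have h1 := hyp_of h (Nat.le_succ K0) (show V0 + 1 ≤ V0 + M + 2 by omega) hj0 s
      (fun w hw => hs (mem_union_left _ (mem_image.2 ⟨w, mem_univ _, hw.symm⟩)))
      (fun w hw => hs (mem_union_right _ (mem_image.2 ⟨w, mem_univ _, hw.symm⟩)))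
    have h2 := h0 U J' W _ tU s _ A _ h1
    have h3 : |((univ.filter fun β => F β s).card : ℝ) / P - c2 ^ Fintype.card I| ≤ ε / 2 := h2
    have h4 : ((univ.filter fun β => F β s).card : ℝ) - P * c2 ^ Fintype.card I =
        P * (((univ.filter fun β => F β s).card : ℝ) / P - c2 ^ Fintype.card I) := by
      field_simp
    rw [h4, abs_mul, abs_of_pos hP0, mul_comm]
    exact mul_le_mul_of_nonneg_right h3 hP0.le
  have hall : ∀ s : J' → ZMod 2,
      |((univ.filter fun β => F β s).card : ℝ) - P * c2 ^ Fintype.card I| ≤ P := by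
    intro s
    have h1 : ((univ.filter fun β => F β s).card : ℝ) ≤ P := by
      have : (univ.filter fun β => F β s).card ≤ Fintype.card (prs J' → ZMod 2) := card_le_univ _
      rw [Fintype.card_fun, ZMod.card, Fintype.card_coe] at this
      rw [hP]
      exact_mod_cast this
    have h2 : (0 : ℝ) ≤ ((univ.filter fun β => F β s).card : ℝ) := Nat.cast_nonneg _
    have h3 : 0 ≤ P * c2 ^ Fintype.card I := mul_nonneg hP0.le hck.1
    have h4 : P * c2 ^ Fintype.card I ≤ P := by nlinarith [hck.2]
    rw [abs_le]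
    constructor <;> linarith
  have e4 : |((∑ s : J' → ZMod 2, (univ.filter fun β => F β s).card : ℕ) : ℝ) -
      P * Q * c2 ^ Fintype.card I| ≤ ε / 2 * (P * Q) + bad.card * P := by
    have h1 : ((∑ s : J' → ZMod 2, (univ.filter fun β => F β s).card : ℕ) : ℝ) -
        P * Q * c2 ^ Fintype.card I =
        ∑ s : J' → ZMod 2, (((univ.filter fun β => F β s).card : ℝ) - P * c2 ^ Fintype.card I) := by
      rw [sum_sub_distrib, sum_const, card_univ, Fintype.card_fun, ZMod.card]
      push_cast
      rw [nsmul_eq_mul]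
      push_cast
      rw [hQ]
      ring
    rw [h1]
    calc _ ≤ ∑ s : J' → ZMod 2, |((univ.filter fun β => F β s).card : ℝ) -
          P * c2 ^ Fintype.card I| := abs_sum_le_sum_abs _ _
      _ ≤ ∑ s : J' → ZMod 2, (ε / 2 * P + if s ∈ bad then P else 0) := by
          refine sum_le_sum fun s _ => ?_
          by_cases hs : s ∈ bad
          · rw [if_pos hs]
            have := hall s
            have h2 : 0 ≤ ε / 2 * P := by positivity
            linarith
          · rw [if_neg hs, add_zero]
            exact hgood s hs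
      _ = ε / 2 * (P * Q) + bad.card * P := by
          rw [sum_add_distrib, sum_const, card_univ, Fintype.card_fun, ZMod.card,
            sum_ite_mem, univ_inter, sum_const]
          rw [nsmul_eq_mul, nsmul_eq_mul]
          push_cast
          rw [hQ]
          ring
  have e5 : (bad.card : ℝ) ≤ ε / 2 * Q := by
    have h1 : (2 : ℝ) * 2 ^ Fintype.card U * 2 ^ M ≤ Q := by
      have h2 : 1 + Fintype.card U + M ≤ Fintype.card J' := by
        have : (K0 + 1) * Fintype.card U = K0 * Fintype.card U + Fintype.card U := by ring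
        rw [this] at hJ1
        have := Nat.zero_le (K0 * Fintype.card U)
        omega
      calc (2 : ℝ) * 2 ^ Fintype.card U * 2 ^ M = 2 ^ (1 + Fintype.card U + M) := by
            rw [pow_add, pow_add, pow_one]
        _ ≤ Q := pow_le_pow_right₀ (by norm_num) h2
    have h3 : (2 : ℝ) ^ M * (1 / 2 : ℝ) ^ M = 1 := by
      rw [← mul_pow]
      norm_num
    have h4 : 0 < (2 : ℝ) ^ M := by positivity
    calc (bad.card : ℝ) ≤ 2 * 2 ^ Fintype.card U := hb
      _ = (2 * 2 ^ Fintype.card U * 2 ^ M) * (1 / 2 : ℝ) ^ M := by rw [mul_assoc, h3, mul_one]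
      _ ≤ Q * (ε / 2) := mul_le_mul h1 hM (by positivity) hQ0.le
      _ = ε / 2 * Q := mul_comm _ _
  rw [e1, e3]
  have e6 : ((∑ s : J' → ZMod 2, (univ.filter fun β => F β s).card : ℕ) : ℝ) / (P * Q) -
      c2 ^ Fintype.card I = (((∑ s : J' → ZMod 2, (univ.filter fun β => F β s).card : ℕ) : ℝ) -
      P * Q * c2 ^ Fintype.card I) / (P * Q) := by
    field_simp
  rw [e6, abs_div, abs_of_pos (mul_pos hP0 hQ0), div_le_iff₀ (mul_pos hP0 hQ0)]
  refine e4.trans ?_
  have := mul_le_mul_of_nonneg_right e5 hP0.le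
  linarith

theorem t_LAR : S_LAR := by
  intro I _ ε hε
  by_cases hI : Nonempty I
  · obtain ⟨K0, V0, h0⟩ := Pool.Agent.N856.JA.QJ.t_LAJ I (ε / 2) (by linarith)
    obtain ⟨M, hM⟩ := exists_pow_lt_of_lt_one (show 0 < ε / 2 by linarith)
      (show (1 / 2 : ℝ) < 1 by norm_num)
    exact ⟨_, _, t_LAR_aux I ε hε K0 V0 M hM.le h0⟩
  · refine ⟨0, 0, ?_⟩
    intro U J _ _ _ W tU tJ A B h
    have : IsEmpty I := not_nonempty_iff.1 hI
    have e1 : (univ.filter fun α : prs J → ZMod 2 => ∀ i, GdR (W i) tU tJ A B (ext tJ α)) =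
        univ := filter_true_of_mem fun α _ i => (IsEmpty.false i).elim
    have e2 : Fintype.card I = 0 := Fintype.card_eq_zero
    rw [e1, e2, card_univ, Fintype.card_fun, ZMod.card, Fintype.card_coe, pow_zero]
    push_cast
    rw [div_self (by positivity), sub_self, abs_zero]
    exact hε.le

end Pool.Agent.N856.JL.LA
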