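import Pool.Agent.N856.JL.Fin
import Pool.Agent.N856.JL.Fld
import Pool.Agent.N856.JL.Ind
import Pool.Agent.N969.P15.QF
import Pool.Agent.R413.SJ.ShaQ

/-!
# JL: the theorem over totally real multiquadratic fields, with the definitions of the hand-in
-/

set_option autoImplicit false

open NumberField IsDedekindDomain Filter Topology

namespace Pool.Agent.N856.JL.Res

/-- the coefficient `a` of the equation `y² = x³ + a x + b` of the twist by `m` of `X_0(15)` -/
def A (m : ℤ) : ℤ := -12987 * m ^ 2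

/-- the coefficient `b` of the equation `y² = x³ + a x + b` of the twist by `m` of `X_0(15)` -/
def B (m : ℤ) : ℤ := -263466 * m ^ 3

/-- the twist `E_m` by `m` of `X_0(15)`, over the field `K` -/
def E (K : Type) [Field K] (m : ℤ) : WeierstrassCurve K :=
  { a₁ := 0, a₂ := 0, a₃ := 0, a₄ := (A m : K), a₆ := (B m : K) }

/-- `E_m(ℚ)` is finite and `Ш(E_m/ℚ)` has no element of order two -/
def RankZeroShaTwo (m : ℤ) : Prop :=
  Finite (E ℚ m).toAffine.Point ∧ ∀ x : Pool.Agent.TH841.NF.D.Sha (E ℚ m), 2 • x = 0 → x = 0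

/-- the imaginary quadratic field `ℚ(√-N)` has no ideal class of order four -/
def NoOrderFour (N : ℕ) : Prop :=
  ∀ (K : Type) [Field K] [NumberField K], Module.finrank ℚ K = 2 → (∃ s : K, s ^ 2 = -(N : K)) →
    ∀ c : ClassGroup (𝓞 K), c ^ 4 = 1 → c ^ 2 = 1

/-- the numbers `n` of the curves `E_{-n}` -/
def Twist (n : ℕ) : Prop := Squarefree n ∧ (n % 60 = 23 ∨ n % 60 = 47)

/-- the numbers `d` of the real quadratic fields `ℚ(√d)`, in which `2` is unramified and `3` and `5`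
split -/
def Disc (d : ℕ) : Prop := Squarefree d ∧ d % 12 = 1 ∧ (d % 5 = 1 ∨ d % 5 = 4)

/-- `ℚ(√d_1, …, √d_r)` has degree `2 ^ r` -/
def Independent {r : ℕ} (d : Fin r → ℕ) : Prop :=
  ∀ T : Finset (Fin r), T.Nonempty → ¬ IsSquare (∏ i ∈ T, d i)

/-- `K = ℚ(√d_1, …, √d_r)` -/
def IsMultiquadratic {r : ℕ} (d : Fin r → ℕ) (K : Type) [Field K] [NumberField K] : Prop :=
  ∃ x : Fin r → K, (∀ i, x i ^ 2 = (d i : K)) ∧ IntermediateField.adjoin ℚ (Set.range x) = ⊤

/-- the fields `ℚ(√d_1, …, √d_r)` of degree `2 ^ r` of the family, and the numbers `n` of the family prime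
to the `d_i` -/
def Setting {r : ℕ} (d : Fin r → ℕ) (n : ℕ) : Prop :=
  (∀ i, Disc (d i)) ∧ Independent d ∧ Twist n ∧ ∀ i, n.Coprime (d i)

/-- `E_{-n}` is good over `F = ℚ(√d_1, …, √d_r)`: the curves `E_{- n ∏_{i ∈ T} d_i}` over `ℚ`, which are
the factors of the Weil restriction of `E_{-n}` from `F` to `ℚ`, have finitely many rational points and
no element of order two in the Tate-Shafarevich group -/
def Good {r : ℕ} (d : Fin r → ℕ) (n : ℕ) : Prop :=
  ∀ T : Finset (Fin r), RankZeroShaTwo (-(n : ℤ) * ∏ i ∈ T, (d i : ℤ))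

/-- the number `q_v` of elements of the residue field of a finite place `v` of `K` -/
noncomputable def qv (K : Type) [Field K] (v : HeightOneSpectrum (𝓞 K)) : ℕ :=
  Nat.card (𝓞 K ⧸ v.asIdeal)

/-- `a_v = q_v + 1 - #E(k_v)` for `E : y² = x³ + a x + b`, that is `q_v` minus the number of affine
points over the residue field -/
noncomputable def av (K : Type) [Field K] (a b : ℤ) (v : HeightOneSpectrum (𝓞 K)) : ℤ :=
  (qv K v : ℤ) - Nat.card {z : (𝓞 K ⧸ v.asIdeal) × (𝓞 K ⧸ v.asIdeal) //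
    z.2 ^ 2 = z.1 ^ 3 + (a : 𝓞 K ⧸ v.asIdeal) * z.1 + (b : 𝓞 K ⧸ v.asIdeal)}

open Classical in
/-- `F` is entire and is, for `Re s > 3/2`, the `L`-function of `E_m` over `K` without the Euler factors
at the places dividing `30 m D` -/
def IsL (K : Type) [Field K] (m D : ℤ) (F : ℂ → ℂ) : Prop :=
  Differentiable ℂ F ∧ ∀ s : ℂ, (3 : ℝ) / 2 < s.re →
    HasProd (fun v : HeightOneSpectrum (𝓞 K) =>
      if ((30 * m * D : ℤ) : 𝓞 K) ∈ v.asIdeal then 1 else
        (1 - (av K (A m) (B m) v : ℂ) * (qv K v : ℂ) ^ (-s) + (qv K v : ℂ) ^ (1 - 2 * s))⁻¹) (F s)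

open Classical in
/-- the rank conjecture for `E_m` over `K` with the rank and the order zero, and the finiteness of the
2-primary part of `Ш(E_m/K)`, which is killed by `2 ^ r`; the `L`-function is without the Euler factors
at the places dividing `30 m D` -/
def BSDZero (K : Type) [Field K] [NumberField K] (m D : ℤ) (r : ℕ) : Prop :=
  Finite (E K m).toAffine.Point ∧
  (∃ F : ℂ → ℂ, IsL K m D F) ∧
  (∀ F : ℂ → ℂ, IsL K m D F →
    analyticOrderAt F 1 = (Module.finrank ℤ (E K m).toAffine.Point : ℕ∞)) ∧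
  Module.finrank ℤ (E K m).toAffine.Point = 0 ∧
  {y : Pool.Agent.TH841.NF.D.Sha (E K m) | ∃ j : ℕ, (2 ^ j : ℕ) • y = 0}.Finite ∧
  ∀ (j : ℕ) (y : Pool.Agent.TH841.NF.D.Sha (E K m)), (2 ^ j : ℕ) • y = 0 → (2 ^ r : ℕ) • y = 0

/-- the limit `(1 - 1/2) (1 - 1/4) (1 - 1/8) ⋯` -/
noncomputable def eta : ℝ := ∏' i : ℕ, (1 - (1 / 2 : ℝ) ^ (i + 1))

open Classical in
/-- the number of the `m ≤ X` with the property `P` -/
noncomputable def count (P : ℕ → Prop) (X : ℕ) : ℕ := ((Finset.Icc 1 X).filter fun m => P m).card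

/-- among the numbers with the property `P`, those with the property `Q` have natural density `δ` -/
def HasDensity (P Q : ℕ → Prop) (δ : ℝ) : Prop :=
  Tendsto (fun X : ℕ => (count (fun m => P m ∧ Q m) X : ℝ) / (count P X : ℝ)) atTop (𝓝 δ)

section proof

open Pool.Agent.N856.JL
open Pool.Agent.N969.P15 (Qc)
open Pool.Agent.N875.X15 (WS Fin2)

lemma rz_iff (m : ℤ) : RankZeroShaTwo m ↔ Pool.Agent.N875.X15.Fin2 (WS m) := by
  unfold RankZeroShaTwo Pool.Agent.N875.X15.Fin2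
  refine and_congr Iff.rfl ?_
  have h := (Pool.Agent.R413.SJ.ShaQ.two_iff (WS m)).symm
  refine Iff.trans h (forall_congr' fun x => ?_)
  rw [two_nsmul]

/-- the setting without the independence -/
structure Pre {r : ℕ} (d : Fin r → ℕ) (n : ℕ) : Prop where
  disc : ∀ i, Disc (d i)
  twist : Twist n
  coprime : ∀ i, n.Coprime (d i)

lemma pre_of {r : ℕ} {d : Fin r → ℕ} {n : ℕ} (h : Setting d n) : Pre d n :=
  ⟨h.1, h.2.2.1, h.2.2.2⟩

/-- the squarefree representative -/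
lemma rep {r : ℕ} {d : Fin r → ℕ} {n : ℕ} (h : Pre d n) (T : Finset (Fin r)) :
    Cn (n * sfp (∏ i ∈ T, d i)) ∧ ∃ s : ℕ, s ≠ 0 ∧ ∏ i ∈ T, d i = sfp (∏ i ∈ T, d i) * s ^ 2 := by
  have hd : ∀ i, Dsc (d i) := h.disc
  obtain ⟨s, hs, h2, -, -⟩ := sfp_spec (prod_pos' hd T)
  obtain ⟨g1, g2⟩ := prod_mod hd T
  obtain ⟨g3, g4⟩ := sfp_mod g1 g2
  have hc := (cop_iff hd n).2 h.coprime T
  refine ⟨⟨(Nat.squarefree_mul hc).2 ⟨h.twist.1, sfp_sqf _⟩, ?_⟩, s, hs.ne', h2.symm⟩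
  have g5 : sfp (∏ i ∈ T, d i) % 60 = 1 ∨ sfp (∏ i ∈ T, d i) % 60 = 49 := by omega
  rcases h.twist.2 with g6 | g6 <;> rcases g5 with g5 | g5 <;> rw [Nat.mul_mod, g6, g5] <;> norm_num

lemma rz_prod {r : ℕ} {d : Fin r → ℕ} {n : ℕ} (h : Pre d n) (T : Finset (Fin r)) :
    RankZeroShaTwo (-(n : ℤ) * ∏ i ∈ T, (d i : ℤ)) ↔ Qc (n * sfp (∏ i ∈ T, d i)) := by
  obtain ⟨h1, s, hs, h2⟩ := rep h T
  have e : -(n : ℤ) * ∏ i ∈ T, (d i : ℤ) =
      -((n * sfp (∏ i ∈ T, d i) : ℕ) : ℤ) * (s : ℤ) ^ 2 := by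
    rw [← Nat.cast_prod, h2]
    push_cast
    rw [← h2]
    ring
  rw [rz_iff, e, Fld.ws_scale (by have := h1.1.ne_zero; omega) (by exact_mod_cast hs)]
  exact Pool.Agent.N875.X15.fin2_iff h1.1 h1.2

lemma good_iff {r : ℕ} {d : Fin r → ℕ} {n : ℕ} (h : Pre d n) : Good d n ↔ Gq n d :=
  forall_congr' fun T => rz_prod h T

lemma ga_of {r : ℕ} {d : Fin r → ℕ} {n : ℕ} (h : Pre d n) (hg : Gq n d) (T : Finset (Fin r)) :
    Fld.GA (-(n : ℤ) * ∏ i ∈ T, (d i : ℤ)) := by
  obtain ⟨h1, s, hs, h2⟩ := rep h T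
  refine ⟨n * sfp (∏ i ∈ T, d i), h1, hg T, s, by exact_mod_cast hs, ?_⟩
  rw [← Nat.cast_prod, h2]
  push_cast
  rw [← h2]
  ring

/-- the condition on the class groups -/
lemma class_iff {r : ℕ} {d : Fin r → ℕ} {n : ℕ} (h : Pre d n) (T : Finset (Fin r)) :
    NoOrderFour (n * ∏ i ∈ T, d i) ↔ Qc (n * sfp (∏ i ∈ T, d i)) := by
  obtain ⟨h1, s, hs, h2⟩ := rep h T
  set M := n * sfp (∏ i ∈ T, d i) with hM
  have hM0 : 0 < M := Nat.pos_of_ne_zero h1.1.ne_zero
  have hM4 : M % 4 = 3 := by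
    rcases h1.2 with h3 | h3 <;> omega
  have e : n * ∏ i ∈ T, d i = M * s ^ 2 := by
    rw [hM, mul_assoc, ← h2]
  rw [e, Pool.Agent.N875.X15.qc_P15 h1.1.ne_zero]
  have key : ∀ (K : Type) [Field K] [NumberField K], (∃ x : K, x ^ 2 = -((M * s ^ 2 : ℕ) : K)) ↔
      ∃ x : K, x ^ 2 = -(M : K) := by
    intro K _ _
    have hs' : (s : K) ≠ 0 := by exact_mod_cast hs
    constructor
    · rintro ⟨x, hx⟩
      refine ⟨x / s, ?_⟩
      rw [div_pow, hx]
      push_cast
      field_simp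
    · rintro ⟨x, hx⟩
      refine ⟨x * s, ?_⟩
      rw [mul_pow, hx]
      push_cast
      ring
  constructor
  · intro h3
    obtain ⟨K, i1, i2, h4, h5⟩ := Pool.Agent.N969.P15.exists_qf hM0
    exact (Pool.Agent.N875.X15.qc_iff_class h1.1 hM4 K h4 h5).1 (h3 K h4 ((key K).2 h5))
  · intro h3 K _ _ h4 h5
    exact (Pool.Agent.N875.X15.qc_iff_class h1.1 hM4 K h4 ((key K).1 h5)).2 h3

lemma dens_congr {P P' Q Q' : ℕ → Prop} {δ : ℝ} (hP : ∀ m, P m ↔ P' m)
    (hQ : ∀ m, P m → (Q m ↔ Q' m)) (h : HasDensity P Q δ) : HasDensity P' Q' δ := by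
  have e1 : P = P' := funext fun m => propext (hP m)
  subst e1
  have e2 : (fun m => P m ∧ Q m) = fun m => P m ∧ Q' m :=
    funext fun m => propext (and_congr_right fun h => hQ m h)
  unfold HasDensity at h ⊢
  rw [← e2]
  exact h

/-- the field -/
lemma bsd {r : ℕ} {d : Fin r → ℕ} {n : ℕ} (h : Setting d n) (hg : Good d n) (K : Type) [Field K]
    [NumberField K] (hK : IsMultiquadratic d K) :
    Module.finrank ℚ K = 2 ^ r ∧ BSDZero K (-(n : ℤ)) (∏ i, (d i : ℤ)) r := by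
  classical
  obtain ⟨x, hx, hgen⟩ := hK
  have hga := ga_of (pre_of h) ((good_iff (pre_of h)).1 hg)
  have hx' : ∀ i, x i ^ 2 = ((d i : ℤ) : K) := fun i => by rw [hx i, Int.cast_natCast]
  have hind : ∀ T : Finset (Fin r), T.Nonempty → ¬ IsSquare (∏ i ∈ T, (d i : ℤ)) := by
    intro T hT hsq
    rw [← Nat.cast_prod] at hsq
    obtain ⟨a, ha⟩ := hsq
    refine h.2.1 T hT ⟨a.natAbs, ?_⟩
    have := congrArg Int.natAbs ha
    rwa [Int.natAbs_natCast, Int.natAbs_mul] at this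
  have hdeg : Module.finrank ℚ K = 2 ^ r := by
    have := Pool.Agent.Y73.QMQ1.gal_of hx' hgen
    rw [← IsGalois.card_aut_eq_finrank]
    exact Pool.Agent.Y73.QMQ1.card_gal hind hx' hgen
  refine ⟨hdeg, ?_⟩
  obtain ⟨F, hF, hF1⟩ := Fld.fieldL hind hga K x hx' hgen
  have hfin := (Fld.field hind hga K x hx' hgen).2
  obtain ⟨hs1, hs2⟩ := Fld.shaK hga K x hx' hgen
  have hfin' : Finite (E K (-(n : ℤ))).toAffine.Point := hfin
  have h0 : Module.finrank ℤ (E K (-(n : ℤ))).toAffine.Point = 0 :=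
    Module.finrank_eq_zero_of_rank_eq_zero (rank_eq_zero_iff.2 fun _ =>
      ⟨(Nat.card (E K (-(n : ℤ))).toAffine.Point : ℤ), by exact_mod_cast Nat.card_pos.ne', by
        rw [natCast_zsmul]
        exact card_nsmul_eq_zero'⟩)
  refine ⟨hfin', ⟨F, hF⟩, fun F' hF' => ?_, h0, hs1, hs2⟩
  have h3 : F' = F := Fld.isLm_unique hF' hF
  rw [h0, h3]
  exact (hF.1.analyticAt 1).analyticOrderAt_eq_zero.2 hF1

end proof

/-- **The rank conjecture for the twists of `X_0(15)` over totally real multiquadratic fields: exact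
natural densities.** -/
theorem main :
    -- good curves: the class groups, and the rank conjecture
    (∀ (r : ℕ) (d : Fin r → ℕ) (n : ℕ), Setting d n →
      (Good d n ↔ ∀ T : Finset (Fin r), NoOrderFour (n * ∏ i ∈ T, d i)) ∧
      (Good d n → ∀ (K : Type) [Field K] [NumberField K], IsMultiquadratic d K →
        Module.finrank ℚ K = 2 ^ r ∧ BSDZero K (-(n : ℤ)) (∏ i, (d i : ℤ)) r)) ∧
    -- fixed field, varying curve
    (∀ (r : ℕ) (d : Fin r → ℕ), (∀ i, Disc (d i)) → Independent d →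
      HasDensity (fun n => Twist n ∧ ∀ i, n.Coprime (d i)) (Good d) (eta ^ 2 ^ r)) ∧
    -- fixed curve, varying field
    (∀ (r : ℕ) (d : Fin r → ℕ) (n : ℕ), Setting d n → Good d n →
      HasDensity (fun D => Disc D ∧ D.Coprime n ∧ ∀ i, D.Coprime (d i))
        (fun D => Good (Fin.snoc d D : Fin (r + 1) → ℕ) n) (eta ^ 2 ^ r) ∧
      ∀ D : ℕ, 1 < D → Disc D → D.Coprime n → (∀ i, D.Coprime (d i)) →
        Setting (Fin.snoc d D : Fin (r + 1) → ℕ) n) ∧
    -- towers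
    (∀ (r : ℕ) (d : Fin r → ℕ) (n : ℕ), Setting d n → Good d n →
      ∃ q : ℕ → ℕ, StrictMono q ∧ (∀ j, (q j).Prime ∧ q j % 60 = 1) ∧
        ∀ k, Setting (Fin.append d fun i : Fin k => q i) n ∧
          Good (Fin.append d fun i : Fin k => q i) n) ∧
    0.2887 < eta ∧ eta < 0.2889 := by
  classical
  have heta : eta = Pool.Agent.N916.GB.eta := rfl
  have hJ := Pool.Agent.N856.JL.t_DensJ
  have hsnoc : ∀ (r : ℕ) (d : Fin r → ℕ) (n : ℕ), Setting d n →
      ∀ D : ℕ, 1 < D → Disc D → D.Coprime n → (∀ i, D.Coprime (d i)) →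
        Setting (Fin.snoc d D : Fin (r + 1) → ℕ) n := by
    intro r d n h D hD1 hD hDn hDd
    obtain ⟨hdisc, hind, htw, hcop⟩ := h
    refine ⟨fun i => ?_, Pool.Agent.N856.JL.ind_snoc hdisc hind hD.1 hDd hD1, htw, fun i => ?_⟩
    · refine Fin.lastCases ?_ (fun j => ?_) i
      · rw [Fin.snoc_last]
        exact hD
      · rw [Fin.snoc_castSucc (α := fun _ => ℕ)]
        exact hdisc j
    · refine Fin.lastCases ?_ (fun j => ?_) i
      · rw [Fin.snoc_last]
        exact hDn.symm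
      · rw [Fin.snoc_castSucc (α := fun _ => ℕ)]
        exact hcop j
  refine ⟨fun r d n h => ⟨?_, fun hg K _ _ hK => bsd h hg K hK⟩, fun r d hd hi => ?_,
    fun r d n h hg => ⟨?_, hsnoc r d n h⟩, fun r d n h hg => ?_, ?_, ?_⟩
  · rw [good_iff (pre_of h)]
    exact forall_congr' fun T => (class_iff (pre_of h) T).symm
  · have h1 := Pool.Agent.N856.JL.dens_n hJ d hd hi
    rw [← heta] at h1
    have h2 : HasDensity (fun n => Twist n ∧ ∀ i, n.Coprime (d i))
        (fun n => Pool.Agent.N856.JL.Gq n d) (eta ^ 2 ^ r) := by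
      refine h1.congr fun X => ?_
      unfold count
      congr 3
      · ext n
        simp only [Finset.mem_filter, Twist, Pool.Agent.N856.JL.Cn]
        tauto
      · ext n
        simp only [Finset.mem_filter, Twist, Pool.Agent.N856.JL.Cn]
    exact dens_congr (fun _ => Iff.rfl) (fun n hn =>
      (good_iff (⟨hd, hn.1, hn.2⟩ : Pre d n)).symm) h2
  · have h1 := Pool.Agent.N856.JL.dens_D hJ d h.1 h.2.1 {n} (Finset.singleton_nonempty n)
      (fun m hm => by
        rw [Finset.mem_singleton] at hm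
        rw [hm]
        exact ⟨h.2.2.1, h.2.2.2, (good_iff (pre_of h)).1 hg⟩)
    rw [← heta, Finset.card_singleton, one_mul] at h1
    have h2 : HasDensity (fun D => Disc D ∧ D.Coprime n ∧ ∀ i, D.Coprime (d i))
        (fun D => Pool.Agent.N856.JL.Gq n (Fin.snoc d D : Fin (r + 1) → ℕ)) (eta ^ 2 ^ r) := by
      refine h1.congr fun X => ?_
      unfold count
      congr 3
      · ext D
        simp only [Finset.mem_filter, Disc, Pool.Agent.N856.JL.Dsc, Finset.mem_singleton,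
          forall_eq]
        tauto
      · ext D
        simp only [Finset.mem_filter, Disc, Pool.Agent.N856.JL.Dsc, Finset.mem_singleton,
          forall_eq]
    refine dens_congr (fun _ => Iff.rfl) (fun D hD => (good_iff ?_).symm) h2
    refine ⟨fun i => ?_, h.2.2.1, fun i => ?_⟩
    · refine Fin.lastCases ?_ (fun j => ?_) i
      · rw [Fin.snoc_last]
        exact hD.1
      · rw [Fin.snoc_castSucc (α := fun _ => ℕ)]
        exact h.1 j
    · refine Fin.lastCases ?_ (fun j => ?_) i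
      · rw [Fin.snoc_last]
        exact hD.2.1.symm
      · rw [Fin.snoc_castSucc (α := fun _ => ℕ)]
        exact h.2.2.2 j
  · obtain ⟨q, hq, hp, hgq⟩ := Pool.Agent.N856.JL.tower h.1 h.2.2.1 h.2.2.2 ((good_iff (pre_of h)).1 hg)
    refine ⟨q, hq, fun j => ⟨(hp j).1, (hp j).2.1⟩, fun k => ?_⟩
    obtain ⟨h1, h2⟩ := Pool.Agent.N856.JL.ind_append h.1 h.2.1 hq
      (fun j => ⟨(hp j).1, (hp j).2.1, (hp j).2.2.2⟩) k
    have h3 : Setting (Fin.append d fun i : Fin k => q i) n :=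
      ⟨h1, h2, h.2.2.1, Pool.Agent.N856.JL.append_all (fun x => n.Coprime x) h.2.2.2 fun j _ => by
        rw [Nat.coprime_comm]
        exact (Nat.Prime.coprime_iff_not_dvd (hp j).1).2 (hp j).2.2.1⟩
    exact ⟨h3, (good_iff (pre_of h3)).2 (hgq k)⟩
  · rw [heta]
    exact Pool.Agent.N916.GB.eta_bounds.1
  · rw [heta]
    exact Pool.Agent.N916.GB.eta_bounds.2

end Pool.Agent.N856.JL.Res
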